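import Pool.Agent.Y146.KP.Abw

/-!
# The decomposition of the cohomology of a group variety
-/

open CategoryTheory AlgebraicGeometry Polynomial

set_option linter.unusedSectionVars false

universe u v w

namespace Pool.Agent.Y146.KP

open Pool.Agent.H914 Pool.Agent.H914.VarClass Pool.Agent.H914.VarClass.Obj
  Pool.Agent.H914.WeilCohomology Pool.Agent.H281R3.HT Pool.Agent.TH125.Gal Pool.Agent.W550.B
  Pool.Agent.Y104.Geo

variable {k : Type u} [Field k] {𝒱 : VarClass k} {ops : CycleOps 𝒱}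
  {W : WeilCohomology.{u, v} ops} {A : 𝒱.Obj}

lemma map_gr_ext {V : Type*} [AddCommGroup V] [Module W.K V]
    {φ ψ : W.H A →ₗ[W.K] V} (h : ∀ i, i ≤ 2 * A.dim → ∀ a ∈ W.gr A i, φ a = ψ a) : φ = ψ := by
  apply gr_ext (W.isInternal A)
  intro i a ha
  by_cases hi : i ≤ 2 * A.dim
  · exact h i hi a ha
  · rw [W.gr_eq_bot A i (by omega), Submodule.mem_bot] at ha
    rw [ha, map_zero, map_zero]

/-- The multiplication by two on the cohomology. -/
lemma two_gr {m : A.prod A ⟶ A}
    (hm : ∀ a ∈ W.gr A 1, W.map m a = W.map (fst A A) a + W.map (snd A A) a)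
    (hgen : Algebra.adjoin W.K (W.gr A 1 : Set (W.H A)) = ⊤) {j : ℕ} {x : W.H A}
    (hx : x ∈ W.gr A j) : W.map (diag A ≫ m) x = (2 : W.K) ^ j • x := by
  have h1 : (W.map (diag A ≫ m)).toLinearMap ∘ₗ proj (W.isInternal A) j =
      (2 : W.K) ^ j • proj (W.isInternal A) j := by
    apply word_ext hgen
    intro l hl
    rw [LinearMap.comp_apply, LinearMap.smul_apply, proj_word l hl]
    split_ifs with h
    · subst h
      exact two_word hm l hl
    · rw [map_zero, smul_zero]
  have h2 := congrArg (fun φ : Module.End W.K (W.H A) => φ x) h1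
  simp only [LinearMap.comp_apply, LinearMap.smul_apply, proj_same _ hx] at h2
  exact h2

/-- **The Kunneth projectors are algebraic.** -/
lemma rop_proj {m : A.prod A ⟶ A}
    (hm : ∀ a ∈ W.gr A 1, W.map m a = W.map (fst A A) a + W.map (snd A A) a)
    (hgen : Algebra.adjoin W.K (W.gr A 1 : Set (W.H A)) = ⊤) (j : ℕ) :
    ROp W A 0 (proj (W.isInternal A) j) := by
  classical
  set y : Module.End W.K (W.H A) := (W.map (diag A ≫ m)).toLinearMap with hy
  have hyR : ROp W A 0 y := rop_map (diag A ≫ m)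
  by_cases hj : j ≤ 2 * A.dim
  swap
  · have h0 : proj (W.isInternal A) j = 0 := by
      apply map_gr_ext
      intro i hi a ha
      rw [proj_ne _ ha (by omega), LinearMap.zero_apply]
    rw [h0]
    exact rop_opAlg.zero 0
  let L : ℚ[X] := Lagrange.basis (Finset.range (2 * A.dim + 1)) (fun i => (2 : ℚ) ^ i) j
  have hL : ∀ i, i ≤ 2 * A.dim → L.eval ((2 : ℚ) ^ i) = if i = j then 1 else 0 := by
    intro i hi
    have hinj : Set.InjOn (fun i : ℕ => (2 : ℚ) ^ i) (Finset.range (2 * A.dim + 1)) := by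
      intro a _ b _ hab
      exact pow_right_injective₀ (by norm_num) (by norm_num) hab
    split_ifs with h
    · subst h
      exact Lagrange.eval_basis_self hinj (Finset.mem_range.2 (by omega))
    · exact Lagrange.eval_basis_of_ne (v := fun i : ℕ => (2 : ℚ) ^ i) (Ne.symm h)
        (Finset.mem_range.2 (by omega))
  have h1 : proj (W.isInternal A) j =
      ∑ i ∈ Finset.range (L.natDegree + 1), ((L.coeff i : ℚ) : W.K) • y ^ i := by
    apply map_gr_ext
    intro i hi a ha
    have h2 : ∀ r : ℕ, (y ^ r) a = ((2 : W.K) ^ i) ^ r • a := by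
      intro r
      induction r with
      | zero => simp
      | succ r ih =>
        rw [pow_succ', Module.End.mul_apply, ih, map_smul]
        have h3 : y a = (2 : W.K) ^ i • a := two_gr hm hgen ha
        rw [h3, smul_smul, pow_succ]
    rw [LinearMap.sum_apply]
    have h3 : ∀ r, (((L.coeff r : ℚ) : W.K) • y ^ r) a =
        (((L.coeff r * ((2 : ℚ) ^ i) ^ r : ℚ)) : W.K) • a := by
      intro r
      rw [LinearMap.smul_apply, h2, smul_smul]
      push_cast
      rfl
    rw [Finset.sum_congr rfl fun r _ => h3 r, ← Finset.sum_smul, ← Rat.cast_sum,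
      ← Polynomial.eval_eq_sum_range, hL i hi]
    split_ifs with h
    · subst h
      rw [proj_same _ ha, Rat.cast_one, one_smul]
    · rw [proj_ne _ ha h, Rat.cast_zero, zero_smul]
  rw [h1]
  refine rop_opAlg.sum fun i _ => rop_opAlg.smul _ ?_
  exact rop_opAlg.cast (rop_opAlg.pow hyR i) (by ring)

/-- Pull-backs are correspondences. -/
lemma exists_graph {X Y : 𝒱.Obj} (f : X ⟶ Y) : ∃ u : (Y.prod X).Cycles,
    (Y.prod X).IsCyc Y.dim u ∧ ∀ x, cycMap W u x = W.map f x := by
  refine ⟨ops.push (Obj.lift f (𝟙 X)) X.V.fundCycle, ?_, fun x => ?_⟩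
  · apply ops.push_mem _ X.V.fundCycle_mem
    change 0 + (Y.dim + X.dim) = Y.dim + X.dim
    omega
  · have e1 : Obj.lift f (𝟙 X) ≫ snd Y X = 𝟙 X := Obj.lift_snd _ _
    have e2 : Obj.lift f (𝟙 X) ≫ fst Y X = f := Obj.lift_fst _ _
    rw [cycMap, W.cl_push, W.cl_fund, corr_apply, ← W.push_mul, ← W.push_comp, ← W.map_comp, e1,
      e2, W.push_id, one_mul]

variable {Γ : Type w} [Group Γ] {χ : Γ →* W.Kˣ} {G : Set (GVar W Γ)} {M : Subfield W.K}

/-- One slot. -/
lemma exists_comp_one (S : Sl W G M) {m : S.X.X.prod S.X.X ⟶ S.X.X}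
    (hm : ∀ a ∈ W.gr S.X.X 1, W.map m a = W.map (fst S.X.X S.X.X) a + W.map (snd S.X.X S.X.X) a)
    (hgen : Algebra.adjoin W.K (W.gr S.X.X 1 : Set (W.H S.X.X)) = ⊤) (j : ℕ)
    (hspan : Submodule.span W.K (Set.range S.P.x) = W.gr S.X.X j) :
    ∃ C : Comp W G M S.X.X, C.op = proj (W.isInternal S.X.X) j := by
  obtain ⟨p, hp, hp'⟩ := Pool.Agent.H447.exists_of_rop (p := S.X.X.dim) (by simp)
    (rop_proj hm hgen j)
  obtain ⟨q, hq, hq'⟩ := Pool.Agent.H447.exists_of_rop (p := S.X.X.dim) (by simp)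
    (rop_opAlg.one : ROp W S.X.X 0 1)
  refine ⟨⟨Unit, fun _ => S, S.X.X, MPD.one fun _ => S.X.X, p, q, ⟨S.X.X.dim, S.X.X.dim, rfl, hp,
    hq⟩, fun x => ?_⟩, ?_⟩
  · rw [cycMap, hp']
    have h1 := proj_mem (W.isInternal S.X.X) j x
    rw [← hspan] at h1
    refine Submodule.span_mono ?_ h1
    rintro _ ⟨q, rfl⟩
    refine ⟨fun _ => q, ?_⟩
    change (List.ofFn fun i : Fin 1 => W.map (𝟙 S.X.X) (S.P.x q)).prod = S.P.x q
    rw [List.ofFn_succ, List.ofFn_zero, List.prod_cons, List.prod_nil, mul_one, W.map_id]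
  · change W.corr (W.cl _ q) ∘ₗ W.corr (W.cl _ p) = _
    rw [hp', hq']
    rfl

/-- **The decomposition of the cohomology.** -/
theorem dec_of_slots {m : A.prod A ⟶ A}
    (hm : ∀ a ∈ W.gr A 1, W.map m a = W.map (fst A A) a + W.map (snd A A) a)
    (hgen : Algebra.adjoin W.K (W.gr A 1 : Set (W.H A)) = ⊤)
    (h0 : ∃ C : Comp W G M A, C.op = proj (W.isInternal A) 0)
    (h1 : ∃ C : Comp W G M A, C.op = proj (W.isInternal A) 1) : Dec W G M A := by
  obtain ⟨C₁, hC₁⟩ := h1
  obtain ⟨u, hu, hu'⟩ := exists_graph (W := W) m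
  obtain ⟨v, hv, hv'⟩ := exists_graph (W := W) (diag A)
  have huv : AreOpposite u v := ⟨A.dim, (A.prod A).dim, by rw [dim_prod], hu, hv⟩
  have key : ∀ j, ∃ C : Comp W G M A, C.op = proj (W.isInternal A) j := by
    intro j
    induction j with
    | zero => exact h0
    | succ j ih =>
      obtain ⟨C, hC⟩ := ih
      obtain ⟨C', hC'⟩ := C₁.prod C
      obtain ⟨C'', hC''⟩ := C'.trans huv
      obtain ⟨C₂, hC₂⟩ := C''.exists_smul (((j + 1 : ℕ) : ℚ)⁻¹)
      refine ⟨C₂, ?_⟩
      have h2 : C''.op = nOp W m 1 j := by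
        rw [hC'', hC', hC₁, hC]
        apply LinearMap.ext
        intro x
        rw [LinearMap.comp_apply, LinearMap.comp_apply, hu', hv']
        rfl
      have hne : ((j + 1 : ℕ) : W.K) ≠ 0 := Nat.cast_ne_zero.2 (Nat.succ_ne_zero j)
      rw [hC₂, h2, nOp_eq hm hgen, smul_smul, Rat.cast_inv, Rat.cast_natCast,
        inv_mul_cancel₀ hne, one_smul]
  choose C hC using key
  refine ⟨Fin (2 * A.dim + 1), inferInstance, fun i => C i, ?_⟩
  simp only [hC]
  rw [Fin.sum_univ_eq_sum_range (fun i => proj (W.isInternal A) i) (2 * A.dim + 1)]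
  exact sum_proj (W.isInternal A) fun i hi => W.gr_eq_bot A i (by omega)

end Pool.Agent.Y146.KP
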