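import Pool.Agent.Y154.Trf

/-!
# The trace form of an algebra with a central element
-/

open Matrix Polynomial

namespace Pool.Agent.Y146.KP

/-- The trace form of an algebra of matrices is nondegenerate if all stable subspaces are images
of polynomials in a central element. -/
theorem nondeg_of_central {K : Type*} [Field K] [CharZero K] {n : Type*} [Fintype n]
    [DecidableEq n] (E : Subalgebra K (Matrix n n K)) (G : Set (Matrix n n K))
    (hG : ∀ g ∈ G, IsUnit g)
    (hGE : ∀ g ∈ G, ∀ e ∈ E, g * e * g⁻¹ ∈ E ∧ g⁻¹ * e * g ∈ E)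
    {F : Matrix n n K} (hF : ∀ e ∈ E, e * F = F * e)
    (hpoly : ∀ V : Submodule K (n → K), (∀ g ∈ G, ∀ x ∈ V, g *ᵥ x ∈ V) →
      (∀ e ∈ E, ∀ x ∈ V, e *ᵥ x ∈ V) →
      ∃ p : K[X], (∀ x ∈ V, (aeval F p) *ᵥ x = x) ∧ ∀ x, (aeval F p) *ᵥ x ∈ V) :
    ∀ x ∈ E, (∀ y ∈ E, (x * y).trace = 0) → x = 0 := by
  let J : Submodule K (Matrix n n K) :=
    { carrier := {x | x ∈ E ∧ ∀ y ∈ E, (x * y).trace = 0}
      add_mem' := fun {a b} ha hb => ⟨E.add_mem ha.1 hb.1, fun y hy => by
        rw [add_mul, trace_add, ha.2 y hy, hb.2 y hy, add_zero]⟩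
      zero_mem' := ⟨E.zero_mem, fun y _ => by rw [zero_mul, trace_zero]⟩
      smul_mem' := fun c x hx => ⟨E.smul_mem hx.1 c, fun y hy => by
        rw [smul_mul_assoc, trace_smul, hx.2 y hy, smul_zero]⟩ }
  have hJE : ∀ x ∈ J, x ∈ E := fun x hx => hx.1
  have hJl : ∀ e ∈ E, ∀ x ∈ J, e * x ∈ J := by
    intro e he x hx
    refine ⟨E.mul_mem he hx.1, fun y hy => ?_⟩
    rw [Matrix.mul_assoc, Matrix.trace_mul_comm, Matrix.mul_assoc]
    exact hx.2 _ (E.mul_mem hy he)
  have hJn : ∀ x ∈ J, IsNilpotent x := fun x hx =>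
    Pool.Agent.Y154.Trf.nilpotent_of_trace E x hx.1 hx.2
  have hJG : ∀ g ∈ G, ∀ x ∈ J, g * x * g⁻¹ ∈ J := by
    intro g hg x hx
    refine ⟨(hGE g hg x hx.1).1, fun y hy => ?_⟩
    have h1 : (g * x * g⁻¹ * y).trace = (x * (g⁻¹ * y * g)).trace := by
      rw [Matrix.mul_assoc, Matrix.mul_assoc, Matrix.trace_mul_comm]
      simp only [Matrix.mul_assoc]
    rw [h1]
    exact hx.2 _ (hGE g hg y hy).2
  obtain ⟨k, hk⟩ := Pool.Agent.Y154.Trf.exists_length E J hJE hJl hJn
  have hex : ∃ k : ℕ, ∀ l : List (Matrix n n K), (∀ x ∈ l, x ∈ J) → k ≤ l.length → l.prod = 0 :=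
    ⟨k, hk⟩
  classical
  have hfind := Nat.find_spec hex
  set m := Nat.find hex with hm
  have hmin : ∀ j < m, ∃ l : List (Matrix n n K), (∀ x ∈ l, x ∈ J) ∧ j ≤ l.length ∧
      l.prod ≠ 0 := by
    intro j hj
    have h1 := Nat.find_min hex hj
    push Not at h1
    exact h1
  by_contra hcon
  push Not at hcon
  obtain ⟨x0, hx0E, hx0J, hx0⟩ := hcon
  have hx0J' : x0 ∈ J := ⟨hx0E, hx0J⟩
  have hm2 : 2 ≤ m := by
    by_contra hlt
    have h1 := hfind [x0] (by simpa using hx0J') (by simp; omega)
    simp at h1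
    exact hx0 h1
  obtain ⟨l0, hl0J, hl0len, hl0⟩ := hmin (m - 1) (by omega)
  let S : Set (n → K) := {w | ∃ (l : List (Matrix n n K)) (v : n → K), (∀ x ∈ l, x ∈ J) ∧
    m - 1 ≤ l.length ∧ w = l.prod *ᵥ v}
  obtain ⟨p, hp1, hp2⟩ := hpoly (Submodule.span K S) (by
    intro g hg x hx
    induction hx using Submodule.span_induction with
    | mem w hw =>
      obtain ⟨l, v, hl, hlen, rfl⟩ := hw
      apply Submodule.subset_span
      have hgd : IsUnit g.det := (Matrix.isUnit_iff_isUnit_det g).1 (hG g hg)
      refine ⟨l.map (fun a => g * a * g⁻¹), g *ᵥ v, ?_, by simpa using hlen, ?_⟩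
      · intro x hx
        obtain ⟨a, ha, rfl⟩ := List.mem_map.1 hx
        exact hJG g hg a (hl a ha)
      · have h1 : ∀ l : List (Matrix n n K), (l.map (fun a => g * a * g⁻¹)).prod * g =
            g * l.prod := by
          intro l
          induction l with
          | nil => simp
          | cons a l ih =>
            rw [List.map_cons, List.prod_cons, List.prod_cons, Matrix.mul_assoc, ih]
            calc g * a * g⁻¹ * (g * l.prod) = g * a * (g⁻¹ * g) * l.prod := by
                  simp only [Matrix.mul_assoc]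
              _ = g * (a * l.prod) := by
                  rw [Matrix.nonsing_inv_mul g hgd, Matrix.mul_one, Matrix.mul_assoc]
        rw [Matrix.mulVec_mulVec, Matrix.mulVec_mulVec, h1]
    | zero => rw [Matrix.mulVec_zero]; exact Submodule.zero_mem _
    | add a b _ _ ha hb => rw [Matrix.mulVec_add]; exact Submodule.add_mem _ ha hb
    | smul c a _ ha => rw [Matrix.mulVec_smul]; exact Submodule.smul_mem _ _ ha) (by
    intro e he x hx
    induction hx using Submodule.span_induction with
    | mem w hw =>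
      obtain ⟨l, v, hl, hlen, rfl⟩ := hw
      apply Submodule.subset_span
      cases l with
      | nil => simp at hlen; omega
      | cons a l =>
        refine ⟨(e * a) :: l, v, ?_, by simpa using hlen, ?_⟩
        · intro x hx
          rcases List.mem_cons.1 hx with rfl | hx
          · exact hJl e he a (hl a List.mem_cons_self)
          · exact hl x (List.mem_cons_of_mem _ hx)
        · rw [Matrix.mulVec_mulVec, List.prod_cons, List.prod_cons, Matrix.mul_assoc]
    | zero => rw [Matrix.mulVec_zero]; exact Submodule.zero_mem _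
    | add a b _ _ ha hb => rw [Matrix.mulVec_add]; exact Submodule.add_mem _ ha hb
    | smul c a _ ha => rw [Matrix.mulVec_smul]; exact Submodule.smul_mem _ _ ha)
  -- the elements of `J` kill the stable subspace
  have hkill : ∀ a ∈ J, ∀ x ∈ Submodule.span K S, a *ᵥ x = 0 := by
    intro a ha x hx
    induction hx using Submodule.span_induction with
    | mem w hw =>
      obtain ⟨l, v, hl, hlen, rfl⟩ := hw
      have h1 : (a :: l).prod = 0 := hfind (a :: l) (by
        intro x hx
        rcases List.mem_cons.1 hx with rfl | hx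
        · exact ha
        · exact hl x hx) (by rw [List.length_cons]; omega)
      rw [List.prod_cons] at h1
      rw [Matrix.mulVec_mulVec, h1, Matrix.zero_mulVec]
    | zero => rw [Matrix.mulVec_zero]
    | add a b _ _ ha hb => rw [Matrix.mulVec_add, ha, hb, add_zero]
    | smul c a _ ha => rw [Matrix.mulVec_smul, ha, smul_zero]
  -- the projection commutes with the algebra
  have hcomm : ∀ e ∈ E, e * aeval F p = aeval F p * e := by
    intro e he
    have h1 : Commute e F := hF e he
    have h2 : ∀ q : K[X], Commute e (aeval F q) := by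
      intro q
      induction q using Polynomial.induction_on' with
      | add q r hq hr => rw [map_add]; exact hq.add_right hr
      | monomial i c =>
        rw [aeval_monomial]
        exact Commute.mul_right (Algebra.commutes c e).symm (h1.pow_right i)
    exact h2 p
  have hz : ∀ a ∈ J, aeval F p * a = 0 := by
    intro a ha
    rw [← hcomm a (hJE a ha)]
    ext i j
    have h1 := congrFun (hkill a ha _ (hp2 (Pi.single j 1))) i
    rw [Matrix.mulVec_mulVec, Matrix.mulVec_single_one] at h1
    exact h1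
  apply hl0
  cases l0 with
  | nil => simp at hl0len; omega
  | cons a l =>
    ext i j
    have h1 := hp1 ((a :: l).prod *ᵥ (Pi.single j 1)) (Submodule.subset_span
      ⟨a :: l, _, hl0J, hl0len, rfl⟩)
    rw [Matrix.mulVec_mulVec, List.prod_cons, ← Matrix.mul_assoc, hz a (hl0J a List.mem_cons_self),
      Matrix.zero_mul, Matrix.zero_mulVec, Matrix.mulVec_single_one] at h1
    exact (congrFun h1 i).symm

end Pool.Agent.Y146.KP
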