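import Pool.Agent.Y104.Pub2
import Pool.Agent.Y146.InjL.Stm
import Pool.Agent.H447R3.DegDefs

/-!
# Abelian varieties with a central endomorphism: definitions
-/

open CategoryTheory AlgebraicGeometry Polynomial

universe u v w

namespace Pool.Agent.Y146.KP

section Alg

open Pool.Agent.Y104.Geo

variable {K A : Type*} [Field K] [Ring A] [Algebra K A] {Γ : Type*} [Group Γ]

/-- Some polynomial in `f` is the identity on `V` and maps `U` to `V`. -/
def IsPolynomialImage (f : Module.End K A) (U V : Submodule K A) : Prop :=
  ∃ p : K[X], (∀ a ∈ V, aeval f p a = a) ∧ ∀ a ∈ U, aeval f p a ∈ V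

/-- All subspaces `V` of `U` which are stable under the group `Γ` and under the operators in `E`
which preserve `U` are images of polynomials in `f` which are projections from `U` to `V`. -/
def StableImages (f : Module.End K A) (U : Submodule K A) (ρ : Γ →* (A ≃ₐ[K] A))
    (E : Set (A →ₗ[K] A)) : Prop :=
  ∀ V ≤ U, StableAct ρ V → StableUnder E U V → IsPolynomialImage f U V

/-- The operator `f` commutes on `U` with all operators in `E` which preserve `U`. -/
def CentralOn (f : Module.End K A) (U : Submodule K A) (E : Set (A →ₗ[K] A)) : Prop :=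
  ∀ e ∈ E, (∀ a ∈ U, e a ∈ U) → ∀ a ∈ U, e (f a) = f (e a)

variable [CharZero K]

/-- On the space `U`, with the form `t (a b)`, the operator `f` is a zero of the squarefree
polynomial `m`, its adjoint is `h(f)`, and `h(x)` is the complex conjugate of `x` for all complex
zeros `x` of `m`. -/
structure HasRosati (t : A →ₗ[K] K) (f : Module.End K A) (U : Submodule K A) (m h : ℚ[X]) :
    Prop where
  squarefree : Squarefree m
  zero : ∀ a ∈ U, aeval f (m.map (algebraMap ℚ K)) a = 0
  adjoint : ∀ a ∈ U, ∀ b ∈ U, t (f a * b) = t (a * aeval f (h.map (algebraMap ℚ K)) b)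
  conj : ∀ x : ℂ, aeval x m = 0 → aeval x h = starRingEnd ℂ x

/-- Every monic irreducible factor `p` of `m` over `K` is self-dual, that is, divides `p(h)`, or has
all its coefficients in the field `M`. -/
def SelfDualOrIn (M : Subfield K) (m h : ℚ[X]) : Prop :=
  ∀ p : K[X], p.Monic → Irreducible p → p ∣ m.map (algebraMap ℚ K) →
    p ∣ p.comp (h.map (algebraMap ℚ K)) ∨ ∀ i, p.coeff i ∈ M

end Alg

open Pool.Agent.H914 Pool.Agent.H914.VarClass Pool.Agent.H914.VarClass.Obj
  Pool.Agent.H914.WeilCohomology Pool.Agent.TH125.Gal Pool.Agent.Y104.Geo Pool.Agent.W550.B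

variable {k : Type u} [Field k] {𝒱 : VarClass k} {ops : CycleOps 𝒱}
  {W : WeilCohomology.{u, v} ops} {Γ : Type w} [Group Γ]

/-- The endomorphism `f` of the abelian variety `A` with the polarization `ξ` is central and
generates the centre of the algebra of the endomorphisms of `A`: it commutes on `H¹(A)` with all
algebraic correspondences which preserve `H¹(A)`, and the subspaces of `H¹(A)` which are stable
under them and under `Γ` are given by polynomials in `f`; its adjoint is `h(f)`. -/
structure GeneratesCentre (A : GVar W Γ) (ξ : W.H A.X) (f : A.X ⟶ A.X) (m h : ℚ[X]) :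
    Prop where
  rosati : HasRosati (twTr W A.X (ξ ^ (A.X.dim - 1))) (pullOp W f) (W.gr A.X 1) m h
  central : CentralOn (pullOp W f) (W.gr A.X 1) (AlgCorr W A.X)
  images : StableImages (pullOp W f) (W.gr A.X 1) A.act (AlgCorr W A.X)

/-- The abelian variety `A` has an endomorphism which generates the centre, such that the
irreducible factors over the coefficient field of its minimal polynomial `m` are self-dual or have
coefficients in the field `M`. -/
def AbelianOver (χ : Γ →* W.Kˣ) (M : Subfield W.K) (A : GVar W Γ) : Prop :=
  ∃ (ξ : W.H A.X) (f : A.X ⟶ A.X) (m h : ℚ[X]), IsAbelian χ A ξ ∧ GeneratesCentre A ξ f m h ∧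
    SelfDualOrIn M m h

end Pool.Agent.Y146.KP
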