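import Pool.Agent.Y146.KP.Abc
import Pool.Agent.Y146.KP.Nd
import Pool.Agent.Y146.KP.Stm
import Pool.Agent.Y104.AbD

/-!
# The pieces of an abelian variety
-/

open CategoryTheory AlgebraicGeometry Polynomial
open scoped Matrix

set_option linter.unusedSectionVars false

universe u v w

namespace Pool.Agent.Y146.KP

open Pool.Agent.H914 Pool.Agent.H914.VarClass Pool.Agent.H914.VarClass.Obj
  Pool.Agent.H914.WeilCohomology Pool.Agent.H281R3.HT Pool.Agent.TH125.Gal Pool.Agent.W550.B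
  Pool.Agent.Y104.Geo

variable {k : Type u} [Field k] {𝒱 : VarClass k} {ops : CycleOps 𝒱}
  {W : WeilCohomology.{u, v} ops} {Γ : Type w} [Group Γ] {χ : Γ →* W.Kˣ} {G : Set (GVar W Γ)}
  {M : Subfield W.K}

/-- The piece `H⁰`. -/
noncomputable def zeroPiece {X : 𝒱.Obj} (θ : W.H X) (hθ : θ ∈ algSpan W X)
    (h : W.tr X θ ≠ 0) : Piece W X where
  J := Unit
  fin := inferInstance
  dec := inferInstance
  x := fun _ => 1
  e := 0
  x_mem := fun _ => hpar_one
  θ := θ
  θ_mem := hθ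
  Q := Matrix.of fun _ _ => W.tr X (1 * 1 * θ)
  Q_eq := fun _ _ => rfl
  isUnit := by
    rw [Matrix.isUnit_iff_isUnit_det, Matrix.det_unique, Matrix.of_apply, one_mul, one_mul]
    exact h.isUnit
  β_mem := by
    refine Submodule.sum_mem _ fun _ _ => Submodule.sum_mem _ fun _ _ =>
      Submodule.smul_mem _ _ ?_
    rw [map_one, map_one, mul_one]
    exact algSpan_one

/-- The slot `H⁰`. -/
theorem exists_slot_zero {A : GVar W Γ} (hA : A ∈ G) {θ : W.H A.X} (hθ : θ ∈ algSpan W A.X)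
    (h : W.tr A.X θ ≠ 0) (hs : ∀ γ, ∃ a : W.K, a ≠ 0 ∧ A.act γ θ = a • θ) :
    ∃ S : Sl W G M, S.X = A ∧ Submodule.span W.K (Set.range S.P.x) = W.gr S.X.X 0 := by
  have hspan : Submodule.span W.K (Set.range (zeroPiece θ hθ h).x) = W.gr A.X 0 := by
    rw [W.gr_zero]
    congr 1
    ext x
    constructor
    · rintro ⟨_, rfl⟩
      rfl
    · rintro rfl
      exact ⟨(), rfl⟩
  have hone : (1 : W.H A.X) ∈ Submodule.span W.K (Set.range (zeroPiece θ hθ h).x) :=
    Submodule.subset_span ⟨(), rfl⟩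
  have hmul : ∀ u ∈ Submodule.span W.K (Set.range (zeroPiece θ hθ h).x),
      ∃ c : W.K, u = c • 1 := by
    intro u hu
    rw [hspan, W.gr_zero, Submodule.mem_span_singleton] at hu
    obtain ⟨c, rfl⟩ := hu
    exact ⟨c, rfl⟩
  have hsub : Subsingleton (zeroPiece θ hθ h).J := inferInstanceAs (Subsingleton Unit)
  refine ⟨{ X := A, mem := hA, P := zeroPiece θ hθ h, stable := ?_, semi := hs, f := 1,
            f_op := rop_opAlg.one, F := 1, f_eq := ?_, m := X - C 1, h := X, m_sq := ?_,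
            m_eq := ?_, adj := ?_, cnj := ?_, nd := ?_, poly := ?_, fac := ?_ }, rfl, hspan⟩
  · intro γ q
    change A.act γ 1 ∈ _
    rw [map_one]
    exact hone
  · intro q
    rw [Finset.sum_eq_single q]
    · rw [Matrix.one_apply_eq, one_smul]
      rfl
    · intro p _ hp
      exact absurd (Subsingleton.elim p q) hp
    · intro h
      exact absurd (Finset.mem_univ _) h
  · exact (irreducible_X_sub_C (1 : ℚ)).squarefree
  · rw [map_sub, aeval_X, map_one, map_one, sub_self]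
  · rw [aeval_X, Matrix.transpose_one, Matrix.one_mul, Matrix.mul_one]
  · intro x hx
    rw [map_sub, aeval_X, map_one, map_one, sub_eq_zero] at hx
    rw [hx, aeval_X, map_one]
  · intro x _ hx
    have h1 := hx 1 (one_mem _)
    rw [mul_one] at h1
    ext i j
    have h2 : x.trace = x i j := by
      rw [Matrix.trace, Fintype.sum_subsingleton _ i, Matrix.diag_apply]
      congr 1
    rw [← h2, h1]
    rfl
  · intro U hU _ _
    by_cases h0 : U = ⊥
    · refine ⟨0, fun u hu => ?_, fun u _ => ?_⟩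
      · rw [h0, Submodule.mem_bot] at hu
        rw [hu, map_zero]
      · rw [map_zero, LinearMap.zero_apply]
        exact Submodule.zero_mem _
    · obtain ⟨u, hu, hu0⟩ := (Submodule.ne_bot_iff _).1 h0
      obtain ⟨c, hc⟩ := hmul u (hU hu)
      have hc0 : c ≠ 0 := by
        rintro rfl
        rw [zero_smul] at hc
        exact hu0 hc
      have h1 : (1 : W.H A.X) ∈ U := by
        have h2 := U.smul_mem c⁻¹ hu
        rwa [hc, smul_smul, inv_mul_cancel₀ hc0, one_smul] at h2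
      refine ⟨1, fun u _ => ?_, fun u hu => ?_⟩
      · rw [map_one]
        rfl
      · rw [map_one]
        obtain ⟨c, rfl⟩ := hmul u hu
        exact U.smul_mem c h1
  · intro p _ _ _
    left
    rw [Polynomial.map_X, comp_X]

/-- The slot `H¹`. -/
theorem exists_slot_one (hG : GaloisClass χ G) {A : GVar W Γ} (hA : A ∈ G) {ξ : W.H A.X}
    {f : A.X ⟶ A.X} {m h : ℚ[X]} (hab : IsAbelian χ A ξ) (hc : GeneratesCentre A ξ f m h)
    (hM : SelfDualOrIn M m h) :
    ∃ S : Sl W G M, S.X = A ∧ Submodule.span W.K (Set.range S.P.x) = W.gr S.X.X 1 := by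
  classical
  obtain ⟨_, ⟨μ, rfl⟩, hμ⟩ := hab.add
  have hξ2 : ξ ∈ W.gr A.X 2 := by
    have h1 : Submodule.span W.K (algClasses W A.X 1) ≤ W.gr A.X 2 :=
      Submodule.span_le.2 fun c hc => alg_gr hc
    exact h1 hab.pol.1
  obtain ⟨P, hPe, hPθ, hPs⟩ := Y154.Hpc.exists_hpiece μ ξ hab.pol.1 (gr_two_le hab.gen hξ2) hμ
    hab.pol.2.1
  have hgal := hG.galois A hA
  have hxg : ∀ q, P.x q ∈ W.gr A.X 1 := fun q => by
    rw [← hPs]
    exact Submodule.subset_span ⟨q, rfl⟩
  have hstable : ∀ γ q, A.act γ (P.x q) ∈ Submodule.span W.K (Set.range P.x) := by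
    intro γ q
    rw [hPs]
    exact hgal.gr_mem γ 1 _ (hxg q)
  have hFe : ∀ q, ∃ a : P.J → W.K, pullOp W f (P.x q) = ∑ p, a p • P.x p := by
    intro q
    refine exists_coef ?_
    rw [hPs]
    exact W.map_mem f (hxg q)
  choose F' hF' using hFe
  let F : Matrix P.J P.J W.K := fun p q => F' q p
  have hF : ∀ q, pullOp W f (P.x q) = ∑ p, F p q • P.x p := hF'
  have haev : ∀ (r : W.K[X]) (q : P.J), aeval (pullOp W f) r (P.x q) =
      ∑ p, (aeval F r) p q • P.x p := by
    intro r q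
    have h2 := lin_aeval hF (Pi.single q 1) r
    rw [Finset.sum_eq_single q] at h2
    · rw [Pi.single_eq_same, one_smul] at h2
      refine h2.trans ?_
      refine Finset.sum_congr rfl fun p _ => ?_
      rw [Matrix.mulVec_single_one]
      rfl
    · intro p _ hp
      rw [Pi.single_eq_of_ne hp, zero_smul]
    · intro h
      exact absurd (Finset.mem_univ _) h
  have htw : ∀ a b : W.H A.X, twTr W A.X (ξ ^ (A.X.dim - 1)) (a * b) =
      W.tr A.X (a * b * P.θ) := by
    intro a b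
    rw [hPθ]
    rfl
  have hpoly : ∀ U ≤ Submodule.span W.K (Set.range P.x), (∀ γ, ∀ u ∈ U, A.act γ u ∈ U) →
    (∀ c ∈ algSpan W (A.X.prod A.X), (∀ u ∈ Submodule.span W.K (Set.range P.x),
      W.corr c u ∈ Submodule.span W.K (Set.range P.x)) → ∀ u ∈ U, W.corr c u ∈ U) →
    ∃ p : W.K[X], (∀ u ∈ U, aeval (pullOp W f) p u = u) ∧
      ∀ u ∈ Submodule.span W.K (Set.range P.x), aeval (pullOp W f) p u ∈ U := by
    rw [hPs]
    intro U hU hUΓ hUc
    exact hc.images U hU hUΓ fun e he heU u hu => by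
      obtain ⟨c, hc', rfl⟩ := mem_algCorr.1 he
      exact hUc c hc' heU u hu
  have hgm := exists_gmat' hstable
  have hinv : ∀ g : Matrix P.J P.J W.K, ∀ γ : Γ, (∀ q, A.act γ (P.x q) = ∑ p, g p q • P.x p) →
      ∃ g' : Matrix P.J P.J W.K, (∀ q, A.act γ⁻¹ (P.x q) = ∑ p, g' p q • P.x p) ∧
        g * g' = 1 ∧ g⁻¹ = g' := by
    intro g γ hg
    obtain ⟨g', hg'⟩ := hgm γ⁻¹
    exact ⟨g', hg', gmat_inv hg hg', Matrix.inv_eq_right_inv (gmat_inv hg hg')⟩
  have hnd : ∀ x ∈ P.Ealg, (∀ y ∈ P.Ealg, (x * y).trace = 0) → x = 0 := by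
    refine nondeg_of_central P.Ealg {g | ∃ γ : Γ, ∀ q, A.act γ (P.x q) = ∑ p, g p q • P.x p}
      ?_ ?_ (F := F) ?_ ?_
    · rintro g ⟨γ, hγ⟩
      obtain ⟨g', -, h1, -⟩ := hinv g γ hγ
      exact IsUnit.of_mul_eq_one _ h1
    · rintro g ⟨γ, hγ⟩ e he
      obtain ⟨g', h1, h2, h3⟩ := hinv g γ hγ
      rw [h3]
      refine ⟨conj_mem hG hA hγ h1 he, conj_mem hG hA (γ := γ⁻¹) h1 ?_ he⟩
      rw [inv_inv]
      exact hγ
    · rintro e ⟨c, hc', hce⟩
      apply mat_ext
      intro q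
      have hpres : ∀ a ∈ W.gr A.X 1, W.corr c a ∈ W.gr A.X 1 := by
        intro a ha
        rw [← hPs] at ha ⊢
        obtain ⟨a', rfl⟩ := exists_coef ha
        rw [lin_sum hce]
        exact sum_mem_span _
      have h1 := hc.central (W.corr c) (mem_algCorr.2 ⟨c, hc', rfl⟩) hpres (P.x q) (hxg q)
      rw [hF, hce, lin_sum hce, lin_sum hF] at h1
      exact h1
    · intro V hVG hVE
      exact poly_mat' hstable hF hpoly V (fun γ g hg a ha => hVG g ⟨γ, hg⟩ a ha) hVE
  refine ⟨{ X := A, mem := hA, P := P, stable := hstable, semi := ?_, f := pullOp W f,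
            f_op := rop_map f, F := F, f_eq := hF, m := m, h := h, m_sq := hc.rosati.squarefree,
            m_eq := ?_, adj := ?_, cnj := hc.rosati.conj, nd := hnd, poly := hpoly,
            fac := hM }, rfl, hPs⟩
  · intro γ
    exact ⟨(χ γ : W.K) ^ (A.X.dim - 1), pow_ne_zero _ (Units.ne_zero _), by
      rw [hPθ, map_pow, hab.pol.2.2, _root_.smul_pow]⟩
  · have h1 : aeval F (m.map (algebraMap ℚ W.K)) = 0 := by
      apply mat_ext
      intro q
      rw [← haev, hc.rosati.zero _ (hxg q)]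
      simp
    rwa [aeval_map_algebraMap] at h1
  · ext p q
    have h1 := hc.rosati.adjoint _ (hxg p) _ (hxg q)
    rw [htw, htw, hF p, haev, aeval_map_algebraMap] at h1
    rw [Matrix.mul_apply, Matrix.mul_apply]
    rw [Finset.sum_mul, Finset.sum_mul, map_sum, Finset.mul_sum, Finset.sum_mul, map_sum] at h1
    have h2 : ∀ r, W.tr A.X (F r p • P.x r * P.x q * P.θ) = Fᵀ p r * P.Q r q := by
      intro r
      rw [smul_mul_assoc, smul_mul_assoc, map_smul, ← P.Q_eq]
      rfl
    have h3 : ∀ r, W.tr A.X (P.x p * (aeval F h) r q • P.x r * P.θ) =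
        P.Q p r * (aeval F h) r q := by
      intro r
      rw [mul_smul_comm, smul_mul_assoc, map_smul, ← P.Q_eq, smul_eq_mul, mul_comm]
    rw [Finset.sum_congr rfl fun r _ => h2 r, Finset.sum_congr rfl fun r _ => h3 r] at h1
    exact h1

/-- **The decomposition of the cohomology of an abelian variety.** -/
theorem dec_abelian (hG : GaloisClass χ G) {A : GVar W Γ} (hA : A ∈ G)
    (h : AbelianOver χ M A) : Dec W G M A.X := by
  obtain ⟨ξ, f, m, h, hab, hc, hM⟩ := h
  obtain ⟨S, hS, hspan⟩ := exists_slot_one hG hA hab hc hM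
  have hξ : ξ ∈ algSpan W A.X := Submodule.span_mono (Set.subset_iUnion _ 1) hab.pol.1
  have hpow : ∀ n, ξ ^ n ∈ algSpan W A.X := by
    intro n
    induction n with
    | zero => rw [pow_zero]; exact algSpan_one
    | succ n ih => rw [pow_succ]; exact algSpan_mul ih hξ
  obtain ⟨S', hS', hspan'⟩ := exists_slot_zero (M := M) hA (hpow A.X.dim) hab.pol.2.1
    (fun γ => ⟨(χ γ : W.K) ^ A.X.dim, pow_ne_zero _ (Units.ne_zero _), by
      rw [map_pow, hab.pol.2.2, _root_.smul_pow]⟩)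
  obtain ⟨_, ⟨μ, rfl⟩, hμ⟩ := hab.add
  refine dec_of_slots hμ hab.gen ?_ ?_
  · subst hS'
    exact exists_comp_one S' hμ hab.gen 0 hspan'
  · subst hS
    exact exists_comp_one S hμ hab.gen 1 hspan

end Pool.Agent.Y146.KP
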