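import Pool.Agent.Y146.KP.Cmp

/-!
# The cohomology of a group variety which is generated by the first cohomology
-/

open CategoryTheory AlgebraicGeometry

set_option linter.unusedSectionVars false

universe u v w

namespace Pool.Agent.Y146.KP

open Pool.Agent.H914 Pool.Agent.H914.VarClass Pool.Agent.H914.VarClass.Obj
  Pool.Agent.H914.WeilCohomology Pool.Agent.W550.B

variable {k : Type u} [Field k] {𝒱 : VarClass k} {ops : CycleOps 𝒱}
  {W : WeilCohomology.{u, v} ops} {A : 𝒱.Obj}

/-- Linear maps which agree on words. -/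
lemma word_ext (hgen : Algebra.adjoin W.K (W.gr A 1 : Set (W.H A)) = ⊤) {V : Type*}
    [AddCommGroup V] [Module W.K V] {φ ψ : W.H A →ₗ[W.K] V}
    (h : ∀ l : List (W.H A), (∀ x ∈ l, x ∈ W.gr A 1) → φ l.prod = ψ l.prod) : φ = ψ := by
  have hspan : (⊤ : Submodule W.K (W.H A)) =
      Submodule.span W.K (Submonoid.closure (W.gr A 1 : Set (W.H A))) := by
    rw [← Algebra.adjoin_eq_span, hgen, Algebra.top_toSubmodule]
  apply LinearMap.ext
  intro x
  have hx : x ∈ Submodule.span W.K (Submonoid.closure (W.gr A 1 : Set (W.H A)) :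
      Set (W.H A)) := hspan ▸ Submodule.mem_top
  induction hx using Submodule.span_induction with
  | mem x hx =>
    obtain ⟨l, hl, rfl⟩ := Submonoid.exists_list_of_mem_closure hx
    exact h l hl
  | zero => rw [map_zero, map_zero]
  | add x y _ _ hx hy => rw [map_add, map_add, hx, hy]
  | smul r x _ hx => rw [map_smul, map_smul, hx]

lemma word_mem (l : List (W.H A)) (h : ∀ x ∈ l, x ∈ W.gr A 1) : l.prod ∈ W.gr A l.length := by
  induction l with
  | nil => exact W.one_mem A
  | cons x l ih =>
    rw [List.prod_cons, List.length_cons, add_comm]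
    exact W.mul_mem (h x List.mem_cons_self) (ih fun y hy => h y (List.mem_cons_of_mem _ hy))

lemma proj_word (l : List (W.H A)) (h : ∀ x ∈ l, x ∈ W.gr A 1) (j : ℕ) :
    proj (W.isInternal A) j l.prod = if l.length = j then l.prod else 0 := by
  split_ifs with h1
  · subst h1
    exact proj_same _ (word_mem l h)
  · exact proj_ne _ (word_mem l h) h1

lemma proj_mul_succ {x : W.H A} (hx : x ∈ W.gr A 1) (j : ℕ) (a : W.H A) :
    proj (W.isInternal A) (j + 1) (x * a) = x * proj (W.isInternal A) j a := by
  refine gr_induction (W.isInternal A) (p := fun a =>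
    proj (W.isInternal A) (j + 1) (x * a) = x * proj (W.isInternal A) j a) ?_ ?_ a
  · intro i a ha
    have h1 := W.mul_mem hx ha
    rw [add_comm] at h1
    by_cases hij : i = j
    · subst hij
      rw [proj_same _ h1, proj_same _ ha]
    · rw [proj_ne _ h1 (by omega), proj_ne _ ha hij, mul_zero]
  · intro a b ha hb
    rw [mul_add, map_add, ha, hb, map_add, mul_add]

lemma proj_mul_zero {x : W.H A} (hx : x ∈ W.gr A 1) (a : W.H A) :
    proj (W.isInternal A) 0 (x * a) = 0 := by
  refine gr_induction (W.isInternal A) (p := fun a =>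
    proj (W.isInternal A) 0 (x * a) = 0) ?_ ?_ a
  · intro i a ha
    have h1 := W.mul_mem hx ha
    exact proj_ne _ h1 (by omega)
  · intro a b ha hb
    rw [mul_add, map_add, ha, hb, add_zero]

/-- Multiplication by a class from the first factor. -/
lemma ext_fst_succ {x : W.H A} (hx : x ∈ W.gr A 1) (i j : ℕ) (w : W.H (A.prod A)) :
    extOp W (proj (W.isInternal A) (i + 1)) (proj (W.isInternal A) j) (W.map (fst A A) x * w) =
      W.map (fst A A) x * extOp W (proj (W.isInternal A) i) (proj (W.isInternal A) j) w := by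
  refine W.kunneth_induction (p := fun w =>
    extOp W (proj (W.isInternal A) (i + 1)) (proj (W.isInternal A) j) (W.map (fst A A) x * w) =
      W.map (fst A A) x * extOp W (proj (W.isInternal A) i) (proj (W.isInternal A) j) w) ?_ ?_ w
  · intro a b ha hb
    rw [mul_add, map_add, ha, hb, map_add, mul_add]
  · intro _ _ a _ b _
    rw [← mul_assoc, ← map_mul, extOp_tmul, extOp_tmul, proj_mul_succ hx, map_mul, mul_assoc]

lemma ext_fst_zero {x : W.H A} (hx : x ∈ W.gr A 1) (j : ℕ) (w : W.H (A.prod A)) :
    extOp W (proj (W.isInternal A) 0) (proj (W.isInternal A) j) (W.map (fst A A) x * w) = 0 := by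
  refine W.kunneth_induction (p := fun w =>
    extOp W (proj (W.isInternal A) 0) (proj (W.isInternal A) j) (W.map (fst A A) x * w) = 0)
      ?_ ?_ w
  · intro a b ha hb
    rw [mul_add, map_add, ha, hb, add_zero]
  · intro _ _ a _ b _
    rw [← mul_assoc, ← map_mul, extOp_tmul, proj_mul_zero hx, map_zero, zero_mul]

lemma snd_mul_tmul {x : W.H A} (hx : x ∈ W.gr A 1) {i : ℕ} {a : W.H A} (ha : a ∈ W.gr A i)
    (b : W.H A) : W.map (snd A A) x * (W.map (fst A A) a * W.map (snd A A) b) =
      (-1 : W.K) ^ i • (W.map (fst A A) a * W.map (snd A A) (x * b)) := by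
  have h1 := W.comm (W.map_mem (snd A A) hx) (W.map_mem (fst A A) ha)
  rw [← mul_assoc, h1, one_mul, smul_mul_assoc, mul_assoc, ← map_mul]

lemma ext_snd_succ {x : W.H A} (hx : x ∈ W.gr A 1) (i j : ℕ) (w : W.H (A.prod A)) :
    extOp W (proj (W.isInternal A) i) (proj (W.isInternal A) (j + 1)) (W.map (snd A A) x * w) =
      W.map (snd A A) x * extOp W (proj (W.isInternal A) i) (proj (W.isInternal A) j) w := by
  refine W.kunneth_induction (p := fun w =>
    extOp W (proj (W.isInternal A) i) (proj (W.isInternal A) (j + 1)) (W.map (snd A A) x * w) =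
      W.map (snd A A) x * extOp W (proj (W.isInternal A) i) (proj (W.isInternal A) j) w) ?_ ?_ w
  · intro a b ha hb
    rw [mul_add, map_add, ha, hb, map_add, mul_add]
  · intro i' _ a ha b _
    rw [snd_mul_tmul hx ha, map_smul, extOp_tmul, extOp_tmul, proj_mul_succ hx]
    by_cases hi : i' = i
    · subst hi
      rw [proj_same _ ha, snd_mul_tmul hx ha]
    · rw [proj_ne _ ha hi, map_zero, zero_mul, smul_zero, zero_mul, mul_zero]

lemma ext_snd_zero {x : W.H A} (hx : x ∈ W.gr A 1) (i : ℕ) (w : W.H (A.prod A)) :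
    extOp W (proj (W.isInternal A) i) (proj (W.isInternal A) 0) (W.map (snd A A) x * w) = 0 := by
  refine W.kunneth_induction (p := fun w =>
    extOp W (proj (W.isInternal A) i) (proj (W.isInternal A) 0) (W.map (snd A A) x * w) = 0)
      ?_ ?_ w
  · intro a b ha hb
    rw [mul_add, map_add, ha, hb, add_zero]
  · intro i' _ a ha b _
    rw [snd_mul_tmul hx ha, map_smul, extOp_tmul, proj_mul_zero hx, map_zero, mul_zero, smul_zero]

section

variable (m : A.prod A ⟶ A)

lemma diag_fst (x : W.H A) : W.map (diag A) (W.map (fst A A) x) = x := by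
  rw [← W.map_comp, diag, Obj.lift_fst, W.map_id]

lemma diag_snd (x : W.H A) : W.map (diag A) (W.map (snd A A) x) = x := by
  rw [← W.map_comp, diag, Obj.lift_snd, W.map_id]

/-- The operator `diag^* (π_i × π_j) m^*`. -/
noncomputable def nOp (W : WeilCohomology.{u, v} ops) (m : A.prod A ⟶ A) (i j : ℕ) :
    Module.End W.K (W.H A) :=
  (W.map (diag A)).toLinearMap ∘ₗ
    extOp W (proj (W.isInternal A) i) (proj (W.isInternal A) j) ∘ₗ (W.map m).toLinearMap

lemma nOp_apply (i j : ℕ) (x : W.H A) : nOp W m i j x = W.map (diag A)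
    (extOp W (proj (W.isInternal A) i) (proj (W.isInternal A) j) (W.map m x)) := rfl

lemma nOp_one (i j : ℕ) : nOp W m i j 1 = if i = 0 ∧ j = 0 then 1 else 0 := by
  have h1 : (1 : W.H (A.prod A)) = W.map (fst A A) 1 * W.map (snd A A) 1 := by
    rw [map_one, map_one, mul_one]
  rw [nOp_apply, map_one, h1, extOp_tmul]
  by_cases hi : i = 0
  · subst hi
    rw [proj_same _ (W.one_mem A)]
    by_cases hj : j = 0
    · subst hj
      rw [proj_same _ (W.one_mem A), if_pos ⟨rfl, rfl⟩, map_one, map_one, mul_one, map_one]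
    · rw [proj_ne _ (W.one_mem A) (Ne.symm hj), map_zero, mul_zero, map_zero,
        if_neg (fun h => hj h.2)]
  · rw [proj_ne _ (W.one_mem A) (Ne.symm hi), map_zero, zero_mul, map_zero,
      if_neg (fun h => hi h.1)]

variable {m} (hm : ∀ a ∈ W.gr A 1, W.map m a = W.map (fst A A) a + W.map (snd A A) a)

include hm

lemma nOp_zero_word (l : List (W.H A)) (h : ∀ x ∈ l, x ∈ W.gr A 1) :
    ∀ j, nOp W m 0 j l.prod = if l.length = j then l.prod else 0 := by
  induction l with
  | nil =>
    intro j
    rw [List.prod_nil, nOp_one, List.length_nil]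
    by_cases hj : j = 0
    · rw [if_pos ⟨rfl, hj⟩, if_pos hj.symm]
    · rw [if_neg (fun h => hj h.2), if_neg (Ne.symm hj)]
  | cons x l ih =>
    intro j
    have hx := h x List.mem_cons_self
    have ih' := ih fun y hy => h y (List.mem_cons_of_mem _ hy)
    rw [nOp_apply, List.prod_cons, map_mul (W.map m), hm x hx, add_mul, map_add,
      ext_fst_zero hx, zero_add]
    rcases j with _ | j
    · rw [ext_snd_zero hx, map_zero, if_neg (by simp)]
    · rw [ext_snd_succ hx, map_mul, diag_snd, ← nOp_apply, ih', List.length_cons]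
      by_cases hj : l.length = j
      · rw [if_pos hj, if_pos (by omega)]
      · rw [if_neg hj, if_neg (by omega), mul_zero]

lemma nOp_one_word (l : List (W.H A)) (h : ∀ x ∈ l, x ∈ W.gr A 1) :
    ∀ j, nOp W m 1 j l.prod = if l.length = j + 1 then ((j + 1 : ℕ) : W.K) • l.prod else 0 := by
  induction l with
  | nil =>
    intro j
    rw [List.prod_nil, nOp_one, if_neg (fun h => one_ne_zero h.1), if_neg (by simp)]
  | cons x l ih =>
    intro j
    have hx := h x List.mem_cons_self
    have hl := fun y hy => h y (List.mem_cons_of_mem x hy)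
    have ih' := ih hl
    rw [nOp_apply, List.prod_cons, map_mul (W.map m), hm x hx, add_mul, map_add,
      map_add (W.map (diag A)), ext_fst_succ hx 0 j, map_mul, diag_fst, ← nOp_apply,
      nOp_zero_word hm l hl, List.length_cons]
    rcases j with _ | j
    · rw [ext_snd_zero hx, map_zero, add_zero]
      by_cases hj : l.length = 0
      · rw [if_pos hj, if_pos (by omega)]
        simp
      · rw [if_neg hj, if_neg (by omega), mul_zero]
    · rw [ext_snd_succ hx, map_mul, diag_snd, ← nOp_apply, ih']
      by_cases hj : l.length = j + 1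
      · rw [if_pos hj, if_pos hj, if_pos (by omega), mul_smul_comm]
        push_cast
        rw [add_smul ((j : W.K) + 1) 1, one_smul, add_comm]
      · rw [if_neg hj, if_neg hj, if_neg (by omega), mul_zero, add_zero]

/-- **The projectors by means of the comultiplication.** -/
lemma nOp_eq (hgen : Algebra.adjoin W.K (W.gr A 1 : Set (W.H A)) = ⊤) (j : ℕ) :
    nOp W m 1 j = ((j + 1 : ℕ) : W.K) • proj (W.isInternal A) (j + 1) := by
  apply word_ext hgen
  intro l hl
  rw [nOp_one_word hm l hl, LinearMap.smul_apply, proj_word l hl]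
  split_ifs
  · rfl
  · rw [smul_zero]

/-- The multiplication by two. -/
lemma two_word (l : List (W.H A)) (h : ∀ x ∈ l, x ∈ W.gr A 1) :
    W.map (diag A ≫ m) l.prod = (2 : W.K) ^ l.length • l.prod := by
  induction l with
  | nil => simp
  | cons x l ih =>
    have hx := h x List.mem_cons_self
    rw [List.prod_cons, map_mul, ih fun y hy => h y (List.mem_cons_of_mem _ hy), W.map_comp,
      hm x hx, map_add, diag_fst, diag_snd, List.length_cons, pow_succ', mul_smul_comm,
      mul_smul, ← two_smul W.K x, smul_mul_assoc, smul_comm]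

end

end Pool.Agent.Y146.KP
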