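import Mathlib

/-!
# Changing the coefficients of relations
-/

open Finset Module

namespace Pool.Agent.Y146.KP

/-- There is no non-trivial relation with coefficients in `M` between the vectors `y i`. -/
def IndepOver {K H : Type*} [Field K] [AddCommGroup H] [Module K H] (M : Set K) {n : ℕ}
    (y : Fin n → H) : Prop :=
  ∀ c : Fin n → K, (∀ i, c i ∈ M) → ∑ i, c i • y i = 0 → c = 0

/-- Linear independence of automorphisms. -/
lemma dedekind {L₀ : Type*} [Field L₀] [CharZero L₀] (Γ : Subgroup (L₀ ≃ₐ[ℚ] L₀)) [Fintype Γ] {x : L₀}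
    (h : ∀ c : L₀, ∑ g : Γ, (g : L₀ ≃ₐ[ℚ] L₀) (c * x) = 0) : x = 0 := by
  have h1 := linearIndependent_monoidHom L₀ L₀
  let F : Γ → (L₀ →* L₀) := fun g => ((g : L₀ ≃ₐ[ℚ] L₀) : L₀ →ₐ[ℚ] L₀).toRingHom.toMonoidHom
  have hF : Function.Injective F := by
    intro g g' hgg
    apply Subtype.ext
    apply AlgEquiv.ext
    intro y
    exact DFunLike.congr_fun hgg y
  have h2 := h1.comp F hF
  rw [Fintype.linearIndependent_iff] at h2
  have h3 := h2 (fun g => (g : L₀ ≃ₐ[ℚ] L₀) x) (by
    funext c
    have h4 := h c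
    rw [Finset.sum_apply, Pi.zero_apply]
    rw [← h4]
    refine Finset.sum_congr rfl fun g _ => ?_
    rw [map_mul, mul_comm]
    rfl) 1
  simpa using h3

/-- **Change of coefficients.** Let the relations with coefficients in `M` between the vectors
`y k` be consequences of the rational relations. If a combination of the `y k` with coefficients
in `L₀` is not zero, then so is a conjugate, by an element of `Γ τ`. -/
theorem exists_conj {K : Type*} [Field K] [CharZero K] {L : Type*} [Field L] [Algebra K L]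
    {H : Type*} [AddCommGroup H] [Module K H] {L₀ : Type*} [Field L₀] [CharZero L₀] (φ : L₀ →+* L)
    (Γ : Subgroup (L₀ ≃ₐ[ℚ] L₀)) [Finite Γ] (M : Set K)
    (hM : ∀ x : L₀, (∀ g ∈ Γ, g x = x) → ∃ m ∈ M, φ x = algebraMap K L m) (τ : L₀ →+* L₀)
    {I : Type} [Finite I] (y : I → H)
    (hinj : ∀ (n : ℕ) (k : Fin n → I), IndepOver (Set.range ((↑) : ℚ → K)) (y ∘ k) →
      IndepOver M (y ∘ k)) (J : Type) [Fintype J] (k₀ : J → I) (b : J → L₀) (l : H →ₗ[K] K)
    (hne : ∑ k, φ (b k) * algebraMap K L (l (y (k₀ k))) ≠ 0) :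
    ∃ g ∈ Γ, ∃ l' : H →ₗ[K] K,
      ∑ k, φ (g (τ (b k))) * algebraMap K L (l' (y (k₀ k))) ≠ 0 := by
  classical
  have : Fintype Γ := Fintype.ofFinite Γ
  by_contra hcon
  push Not at hcon
  let _ : Module ℚ H := Module.compHom H (algebraMap ℚ K)
  have hsm : ∀ (q : ℚ) (x : H), q • x = (q : K) • x := fun q x => by
    change algebraMap ℚ K q • x = _
    rw [eq_ratCast]
  obtain ⟨κ, a, ha, hspan, hli⟩ := exists_linearIndependent' ℚ y
  have : Finite κ := Finite.of_injective a ha
  have : Fintype κ := Fintype.ofFinite κ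
  have hc : ∀ k, ∃ c : κ → ℚ, ∑ i, c i • (y ∘ a) i = y k := by
    intro k
    rw [← Submodule.mem_span_range_iff_exists_fun ℚ, hspan]
    exact Submodule.subset_span ⟨k, rfl⟩
  choose c hc using hc
  -- enumerate
  let e := Fintype.equivFin κ
  have hind : IndepOver (Set.range ((↑) : ℚ → K)) (y ∘ (a ∘ e.symm)) := by
    intro d hd hsum
    choose q hq using hd
    have h1 : ∑ i : κ, q (e i) • (y ∘ a) i = 0 := by
      rw [← hsum, ← Equiv.sum_comp e]
      refine Finset.sum_congr rfl fun i _ => ?_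
      rw [hsm, hq]
      simp
    have h2 := Fintype.linearIndependent_iff.1 hli _ h1
    funext i
    rw [← hq, Pi.zero_apply]
    have h3 := h2 (e.symm i)
    rw [Equiv.apply_symm_apply] at h3
    rw [h3, Rat.cast_zero]
  have hindM := hinj _ _ hind
  -- the coefficients in terms of the basis
  let B : κ → L₀ := fun i => ∑ k, (c (k₀ k) i : L₀) * b k
  have hy : ∀ (l : H →ₗ[K] K) k, l (y k) = ∑ i, (c k i : K) * l (y (a i)) := by
    intro l k
    conv_lhs => rw [← hc k]
    rw [map_sum]
    refine Finset.sum_congr rfl fun i _ => ?_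
    rw [hsm, map_smul, smul_eq_mul]
    rfl
  have hB : ∀ (ψ : L₀ →+* L) (l : H →ₗ[K] K),
      ∑ k, ψ (b k) * algebraMap K L (l (y (k₀ k))) =
        ∑ i, ψ (B i) * algebraMap K L (l (y (a i))) := by
    intro ψ l
    have h1 : ∀ k, ψ (b k) * algebraMap K L (l (y (k₀ k))) =
        ∑ i, ψ (b k) * ((c (k₀ k) i : L) * algebraMap K L (l (y (a i)))) := by
      intro k
      rw [hy l (k₀ k), map_sum, Finset.mul_sum]
      refine Finset.sum_congr rfl fun i _ => ?_
      rw [map_mul, map_ratCast]
    have h2 : ∀ i, ψ (B i) * algebraMap K L (l (y (a i))) =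
        ∑ k, ψ (b k) * ((c (k₀ k) i : L) * algebraMap K L (l (y (a i)))) := by
      intro i
      simp only [B]
      rw [map_sum, Finset.sum_mul]
      refine Finset.sum_congr rfl fun k _ => ?_
      rw [map_mul, map_ratCast]
      ring
    rw [Finset.sum_congr rfl fun k _ => h1 k, Finset.sum_congr rfl fun i _ => h2 i,
      Finset.sum_comm]
  have hzero : ∀ i, τ (B i) = 0 := by
    intro i
    refine dedekind Γ fun x => ?_
    -- the traces
    let m : κ → L₀ := fun i => ∑ g : Γ, (g : L₀ ≃ₐ[ℚ] L₀) (x * τ (B i))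
    have hm : ∀ i, ∀ g ∈ Γ, g (m i) = m i := by
      intro i g hg
      simp only [m, map_sum]
      rw [← Equiv.sum_comp (Equiv.mulLeft (⟨g, hg⟩ : Γ))
        (fun g' : Γ => (g' : L₀ ≃ₐ[ℚ] L₀) (x * τ (B i)))]
      rfl
    choose m' hm' hm'' using fun i => hM (m i) (hm i)
    have hrel : ∀ l' : H →ₗ[K] K, ∑ i, m' i * l' (y (a i)) = 0 := by
      intro l'
      apply (algebraMap K L).injective
      rw [map_zero, map_sum]
      have h1 : ∀ g ∈ Γ, ∑ i, φ (g (τ (B i))) * algebraMap K L (l' (y (a i))) = 0 := by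
        intro g hg
        have h2 := hB ((φ.comp (g : L₀ →ₐ[ℚ] L₀).toRingHom).comp τ) l'
        have h3 := hcon g hg l'
        simp only [RingHom.comp_apply] at h2
        rw [← h3]
        exact h2.symm
      have h4 : ∀ i, algebraMap K L (m' i * l' (y (a i))) =
          ∑ g : Γ, φ ((g : L₀ ≃ₐ[ℚ] L₀) x) * (φ ((g : L₀ ≃ₐ[ℚ] L₀) (τ (B i))) *
            algebraMap K L (l' (y (a i)))) := by
        intro i
        rw [map_mul, ← hm'']
        simp only [m, map_sum, map_mul, Finset.sum_mul]
        refine Finset.sum_congr rfl fun g _ => ?_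
        ring
      rw [Finset.sum_congr rfl fun i _ => h4 i, Finset.sum_comm]
      refine Finset.sum_eq_zero fun g _ => ?_
      rw [← Finset.mul_sum, h1 g g.2, mul_zero]
    have hrel2 : ∑ i, m' i • y (a i) = 0 := by
      rw [← Module.forall_dual_apply_eq_zero_iff K]
      intro l'
      rw [map_sum, ← hrel l']
      refine Finset.sum_congr rfl fun i _ => ?_
      rw [map_smul, smul_eq_mul]
    have h5 := hindM (fun j => m' (e.symm j)) (fun j => hm' _) (by
      rw [← hrel2, ← Equiv.sum_comp e]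
      refine Finset.sum_congr rfl fun i _ => ?_
      simp)
    have h6 : m' i = 0 := by
      have := congrFun h5 (e i)
      simpa using this
    have h7 : φ (m i) = 0 := by rw [hm'', h6, map_zero]
    exact (map_eq_zero φ).1 h7
  apply hne
  rw [hB φ l]
  refine Finset.sum_eq_zero fun i _ => ?_
  rw [(map_eq_zero τ).1 (hzero i), map_zero, zero_mul]

end Pool.Agent.Y146.KP
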