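import Pool.Agent.Y146.KP.Bas
import Pool.Agent.Y146.KP.Trf

/-!
# The main algebraic result
-/

open Finset Module Matrix Polynomial

set_option linter.unusedSectionVars false

namespace Pool.Agent.Y146.KP

open Pool.Agent.Y104.Kempf

universe u

variable {S : Type} [Fintype S] [DecidableEq S] {b : S → Type} [∀ s, Fintype (b s)]
  [∀ s, DecidableEq (b s)] {K : Type u} [Field K] [CharZero K]

/-- A nonzero value at `0` of a family given by a multi-index is detected by some eigenvalues. -/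
lemma exists_chi {P : ℚ[X]} (hP : P ≠ 0) {m : S → ℚ[X]} (hm : ∀ s, Squarefree (m s))
    (hmP : ∀ s, m s ∣ P) {F : ∀ s, Matrix (b s) (b s) K} (hmF : ∀ s, aeval (F s) (m s) = 0)
    {D : ℕ} (hb : ∀ s, Nonempty (b s)) (D0 : 0 < D)
    (x : (S → Fin D) → AlgebraicClosure K) (hx : x (fun _ => ⟨0, D0⟩) ≠ 0) :
    ∃ α : S → RF K P, (∀ s, α s ∈ rts (RF K P) (m s)) ∧
      ∑ k : S → Fin D, emb K P (∏ s, (lag (rts (RF K P) (m s)) (α s)).coeff (k s)) * x k ≠ 0 := by
  classical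
  by_contra hcon
  push Not at hcon
  apply hx
  have h1 : ∑ α ∈ Fintype.piFinset (fun s => rts (RF K P) (m s)),
      ∑ k : S → Fin D, emb K P (∏ s, (lag (rts (RF K P) (m s)) (α s)).coeff (k s)) * x k = 0 :=
    Finset.sum_eq_zero fun α hα => hcon α fun s => Fintype.mem_piFinset.1 hα s
  rw [Finset.sum_comm] at h1
  have h2 : ∀ k : S → Fin D, ∑ α ∈ Fintype.piFinset (fun s => rts (RF K P) (m s)),
      emb K P (∏ s, (lag (rts (RF K P) (m s)) (α s)).coeff (k s)) * x k =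
      if k = (fun _ => ⟨0, D0⟩) then x k else 0 := by
    intro k
    rw [← Finset.sum_mul, ← map_sum, ← Finset.prod_univ_sum (fun s => rts (RF K P) (m s))
      (fun s α => (lag (rts (RF K P) (m s)) α).coeff (k s))]
    have h3 : ∀ s, ∑ α ∈ rts (RF K P) (m s), (lag (rts (RF K P) (m s)) α).coeff (k s) =
        if (k s : ℕ) = 0 then 1 else 0 := by
      intro s
      have := hb s
      rw [← Polynomial.finsetSum_coeff, lag_sum (rts_nonempty (K := K) hP (hm s).ne_zero (hmP s)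
        (hmF s)), coeff_one]
    rw [Finset.prod_congr rfl fun s _ => h3 s]
    split_ifs with hk
    · subst hk
      simp
    · have : ∃ s, (k s : ℕ) ≠ 0 := by
        by_contra hcon
        push Not at hcon
        exact hk (funext fun s => Fin.ext (hcon s))
      obtain ⟨s, hs⟩ := this
      rw [Finset.prod_eq_zero (mem_univ s) (if_neg hs), map_zero, zero_mul]
  rw [Finset.sum_congr rfl fun k _ => h2 k, Finset.sum_ite_eq' univ _ x, if_pos (mem_univ _)] at h1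
  exact h1

/-- **The main algebraic result.** -/
theorem main_alg {Q : ∀ s, Matrix (b s) (b s) K} {ε : S → K} (hε1 : ∀ s, ε s * ε s = 1)
    (hε : ∀ s, (Q s)ᵀ = ε s • Q s) (hQ : ∀ s, IsUnit (Q s)) {N : Set ((S → Σ j, b j) → K)}
    (hc : ∀ z ∈ N, ∀ I, z I ≠ 0 → ∀ s, (I s).1 = id s)
    (hN : ∀ (m : ℕ) (z : Fin (m + 1) → (S → Σ j, b j) → K), (∀ i, z i ∈ N) →
      NullT (Matrix.blockDiagonal' fun j => (Q j)⁻¹) (tp z))
    {G : Set (∀ j, Matrix (b j) (b j) K)} (hG : ∀ g ∈ G, ∀ j, IsUnit (g j))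
    (hGQ : ∀ g ∈ G, ∀ j, ∃ a : K, a ≠ 0 ∧ (g j)ᵀ * Q j * g j = a • Q j)
    (hGN : ∀ g ∈ G, ∀ z ∈ N, gtact (fun _ => Matrix.blockDiagonal' fun j => (g j)ᵀ) z ∈ N)
    (E : ∀ j, Subalgebra K (Matrix (b j) (b j) K))
    (hadjE : ∀ j, ∀ e ∈ E j, (Q j)⁻¹ * eᵀ * Q j ∈ E j)
    (hnd : ∀ j, ∀ x ∈ E j, (∀ y ∈ E j, (x * y).trace = 0) → x = 0)
    (hEN : ∀ e : S → ∀ j, Matrix (b j) (b j) K, (∀ s j, e s j ∈ E j) → ∀ z ∈ N,
      gtact (fun s => Matrix.blockDiagonal' fun j => (e s j)ᵀ) z ∈ N)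
    {F : ∀ s, Matrix (b s) (b s) K} (hf : StablePoly F G E) {m h : S → ℚ[X]}
    (hm : ∀ s, Squarefree (m s)) (hmF : ∀ s, aeval (F s) (m s) = 0)
    (hadj : ∀ s, (F s)ᵀ * Q s = Q s * aeval (F s) (h s)) {P : ℚ[X]} (hP : P ≠ 0)
    (hmP : ∀ s, m s ∣ P) {M : Subfield K}
    (hfac : ∀ s, ∀ p : K[X], p.Monic → Irreducible p → p ∣ (m s).map (algebraMap ℚ K) →
      p ∣ p.comp ((h s).map (algebraMap ℚ K)) ∨ ∀ i, p.coeff i ∈ M)
    (τ : RF K P →+* RF K P) (hτ : ∀ x, τ (τ x) = x)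
    (hτh : ∀ s, ∀ x ∈ rts (RF K P) (m s), τ x = aeval x (h s)) (ζ : (∀ s, b s) → K)
    {z : (S → Σ j, b j) → K} (hz : z ∈ N)
    (hzζ : ∀ I : ∀ s, b s, z (fun s => ⟨s, I s⟩) = ∑ J : ∀ s, b s, ζ J * ∏ s, Q s (J s) (I s))
    {H : Type*} [AddCommGroup H] [Module K H] {D : ℕ} (D0 : 0 < D)
    (hD : ∀ s, (m s).natDegree < D)
    (y : (S → Fin D) → H) (v : (∀ s, b s) → H)
    (hy : ∀ k, y k = ∑ J' : ∀ s, b s,
      (∑ J : ∀ s, b s, ζ J * ∏ s, (F s ^ (k s : ℕ)) (J' s) (J s)) • v J')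
    (hinj : ∀ (n : ℕ) (k : Fin n → (S → Fin D)), IndepOver (Set.range ((↑) : ℚ → K)) (y ∘ k) →
      IndepOver (M : Set K) (y ∘ k)) : ∑ J : ∀ s, b s, ζ J • v J = 0 := by
  classical
  by_contra hne
  -- the index types are not empty
  have hb : ∀ s, Nonempty (b s) := by
    intro s
    by_contra hcon
    rw [not_nonempty_iff] at hcon
    have : IsEmpty (∀ s, b s) := ⟨fun I => hcon.false (I s)⟩
    exact hne (Fintype.sum_empty _)
  have hco : ∀ J' : ∀ s, b s, ∑ J : ∀ s, b s, ζ J *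
      ∏ s, (F s ^ (((⟨0, D0⟩ : Fin D) : ℕ))) (J' s) (J s) = ζ J' := by
    intro J'
    rw [Finset.sum_eq_single J']
    · simp
    · intro J _ hJ
      have : ∃ s, J' s ≠ J s := by
        by_contra hcon
        push Not at hcon
        exact hJ (funext fun s => (hcon s).symm)
      obtain ⟨s, hs⟩ := this
      rw [Finset.prod_eq_zero (mem_univ s) (by
        simp only [pow_zero]
        exact Matrix.one_apply_ne hs), mul_zero]
    · intro h1
      exact absurd (mem_univ _) h1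
  have hy0 : y (fun _ => ⟨0, D0⟩) ≠ 0 := by
    have h0 : y (fun _ => ⟨0, D0⟩) = ∑ J : ∀ s, b s, ζ J • v J := by
      rw [hy]
      exact Finset.sum_congr rfl fun J' _ => by rw [hco]
    rw [h0]
    exact hne
  obtain ⟨l, hl⟩ : ∃ l : H →ₗ[K] K, l (y (fun _ => ⟨0, D0⟩)) ≠ 0 := by
    by_contra hcon
    push Not at hcon
    exact hy0 ((Module.forall_dual_apply_eq_zero_iff K _).1 hcon)
  obtain ⟨α, hα, hχ⟩ := exists_chi (K := K) hP hm hmP hmF hb D0
    (fun k => algebraMap K (AlgebraicClosure K) (l (y k))) (by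
      rw [Ne, map_eq_zero]
      exact hl)
  have := rf_fin (K := K) P
  obtain ⟨g, hg, l', hχ'⟩ := exists_conj (emb K P) (stab M P) (M : Set K) stab_fixed τ y hinj
    (S → Fin D) id (fun k => ∏ s, (lag (rts (RF K P) (m s)) (α s)).coeff (k s)) l hχ
  -- the values of the functionals
  have hly : ∀ (l : H →ₗ[K] K) k, l (y k) = ∑ J' : ∀ s, b s,
      (∑ J : ∀ s, b s, ζ J * ∏ s, (F s ^ (k s : ℕ)) (J' s) (J s)) * l (v J') := by
    intro l k
    rw [hy, map_sum]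
    refine Finset.sum_congr rfl fun J' _ => ?_
    rw [map_smul, smul_eq_mul]
  simp only [hly] at hχ
  have hgα : ∀ s, g (τ (α s)) ∈ rts (RF K P) (m s) := fun s =>
    rts_map (hm s).ne_zero ((g : RF K P →ₐ[ℚ] RF K P).toRingHom.comp τ) (hα s)
  have hlg : ∀ (s : S) (k : ℕ), g (τ ((lag (rts (RF K P) (m s)) (α s)).coeff k)) =
      (lag (rts (RF K P) (m s)) (g (τ (α s)))).coeff k := by
    intro s k
    have h1 := lag_map (R := rts (RF K P) (m s)) ((g : RF K P →ₐ[ℚ] RF K P).toRingHom.comp τ)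
      (fun x hx => rts_map (hm s).ne_zero _ hx) (α s)
    have h2 := congrArg (fun p => p.coeff k) h1
    simp only [coeff_map] at h2
    exact h2
  simp only [id, map_prod, hlg] at hχ'
  simp only [hly] at hχ'
  obtain ⟨u, hu, hev⟩ := exists_eigen hP hε1 hε hQ hm hmP hmF hadj ζ hD (fun J' => l (v J')) hχ
  obtain ⟨u', hu', hev'⟩ := exists_eigen (α := fun s => g (τ (α s))) hP hε1 hε hQ hm hmP hmF hadj
    ζ hD (fun J' => l' (v J')) (by
      simp only [map_prod]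
      exact hχ')
  have hrst : rst id z = fun I : ∀ s, b s => ∑ J : ∀ s, b s, ζ J * ∏ s, Q s (J s) (I s) :=
    funext hzζ
  have hz0 : z ≠ 0 := by
    rintro rfl
    apply hev
    have h1 : (fun I : ∀ s, b s => ∑ J : ∀ s, b s, ζ J * ∏ s, Q s (J s) (I s)) = fun _ => 0 := by
      funext I
      rw [← hzζ]
      rfl
    rw [h1]
    simp [evS]
  choose e a ha he using fun s => exists_basis (K := K) hP (hm s) (hmP s) (hmF s)
  have hτe : ∀ s p, τ (a s p) = aeval (a s p) (h s) := fun s p => hτh s _ (ha s p)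
  have hw := exists_weights (S := S) (ι := S) (c := id) hε1 hε hQ hc hN hG hGQ hGN E hadjE hnd
    hEN ⟨z, hz, hz0⟩ hf (emb K P) e he τ hτ (fun j p q hpq => by
      rw [hτe]
      exact orth (hadj j) (he j p) (he j q) hpq)
  refine hev' ?_
  rw [← hrst, evS_eq]
  refine no_pair (c := id) (emb K P) hw (x := fun s => aeval (α s) (h s))
    (x' := fun s => aeval (g (τ (α s))) (h s)) ?_ hz hz hu hu' (by
      rw [hrst]
      exact hev)
  intro s
  have hβ : τ (α s) ∈ rts (RF K P) (m s) := rts_map (hm s).ne_zero τ (hα s)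
  have e1 : ∀ x ∈ rts (RF K P) (m s), emb K P (τ x) = aeval (x : AlgebraicClosure K) (h s) := by
    intro x hx
    rw [hτh s x hx]
    exact (aeval_algHom_apply (RF K P).val x (h s)).symm
  have hβ0 : aeval ((τ (α s) : RF K P) : AlgebraicClosure K) (m s) = 0 := by
    have h1 := (mem_rts (hm s).ne_zero).1 hβ
    have h2 := aeval_algHom_apply (RF K P).val (τ (α s)) (m s)
    rw [h1, map_zero] at h2
    exact h2
  rw [← hτh s _ (hα s), ← hτh s _ (hgα s), hτ, hτ]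
  rcases conj_of_factors hP (hmP s) (hfac s) (τ (α s)) hβ0 hg with ⟨σ, hσ⟩ | ⟨⟨σ, hσ⟩, σ', hσ'⟩
  · left
    refine ⟨σ, ?_⟩
    have h1 : σ (aeval ((g (τ (α s)) : RF K P) : AlgebraicClosure K) (h s)) =
        aeval (σ ((g (τ (α s)) : RF K P) : AlgebraicClosure K)) (h s) :=
      (aeval_algHom_apply ((σ : AlgebraicClosure K →ₐ[K] AlgebraicClosure K).restrictScalars ℚ)
        _ _).symm
    rw [e1 _ (hgα s), h1, hσ, ← e1 _ hβ, hτ]
  · right
    refine ⟨⟨σ.symm, ?_⟩, σ'.symm, ?_⟩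
    · have h1 := e1 _ hβ
      rw [hτ] at h1
      rw [AlgEquiv.symm_apply_eq, h1, hσ]
      rfl
    · rw [AlgEquiv.symm_apply_eq, e1 _ (hgα s), ← hσ']
      rfl

end Pool.Agent.Y146.KP
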