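import Pool.Agent.Y146.KP.Evn

/-!
# A basis of eigenvectors
-/

open Finset Module Matrix Polynomial

set_option linter.unusedSectionVars false

namespace Pool.Agent.Y146.KP

open Pool.Agent.Y104.Kempf

universe u

variable {K : Type u} [Field K] [CharZero K]

section

variable {n : Type} [Fintype n] [DecidableEq n]

lemma aeval_emb {P : ℚ[X]} (A : Matrix n n (AlgebraicClosure K)) (p : ℚ[X]) :
    aeval A ((p.map (algebraMap ℚ (RF K P))).map (emb K P)) = aeval A p := by
  rw [Polynomial.map_map]
  have : (emb K P).comp (algebraMap ℚ (RF K P)) = algebraMap ℚ (AlgebraicClosure K) :=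
    Subsingleton.elim _ _
  rw [this, aeval_map_algebraMap]

lemma rts_nonempty [Nonempty n] {P m : ℚ[X]} (hP : P ≠ 0) (hm : m ≠ 0) (hmP : m ∣ P)
    {F : Matrix n n K} (hmF : aeval F m = 0) : (rts (RF K P) m).Nonempty := by
  classical
  by_contra hne
  rw [Finset.not_nonempty_iff_eq_empty] at hne
  have h1 := splits_rf (K := K) hP hmP
  have h2 := h1.natDegree_eq_card_roots
  have h3 : (m.map (algebraMap ℚ (RF K P))).roots = 0 := by
    refine Multiset.eq_zero_of_forall_notMem fun x hx => ?_
    rw [mem_roots (by rwa [Ne, Polynomial.map_eq_zero]), IsRoot, eval_map_algebraMap] at hx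
    have h4 := (mem_rts hm).2 hx
    rw [hne] at h4
    exact absurd h4 (Finset.notMem_empty _)
  rw [h3, Multiset.card_zero, natDegree_map] at h2
  rw [eq_C_of_natDegree_eq_zero h2, aeval_C] at hmF
  have h4 : m.coeff 0 ≠ 0 := by
    intro h0
    apply hm
    rw [eq_C_of_natDegree_eq_zero h2, h0, C_0]
  obtain ⟨i⟩ := ‹Nonempty n›
  have h5 := congrFun (congrFun hmF i) i
  rw [Matrix.algebraMap_matrix_apply, if_pos rfl, Matrix.zero_apply, map_eq_zero] at h5
  exact h4 h5

/-- The vectors are sums of eigenvectors. -/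
lemma exists_basis {P m : ℚ[X]} (hP : P ≠ 0) (hm : Squarefree m) (hmP : m ∣ P)
    {F : Matrix n n K} (hmF : aeval F m = 0) :
    ∃ (e : Basis n (AlgebraicClosure K) (n → AlgebraicClosure K)) (a : n → RF K P),
      (∀ p, a p ∈ rts (RF K P) m) ∧ ∀ p, Eig F (emb K P (a p)) (e p) := by
  classical
  set L := AlgebraicClosure K with hL
  set A : Matrix n n L := F.map (algebraMap K L) with hA
  let T : Set (n → L) := {x | ∃ α ∈ rts (RF K P) m, A *ᵥ x = emb K P α • x}
  have hAm : aeval A m = 0 := by
    rw [hA, ← aeval_mapQ, hmF]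
    ext i j
    simp
  have hT : ⊤ ≤ Submodule.span L T := by
    rintro x -
    rcases isEmpty_or_nonempty n with hn | hn
    · have : x = 0 := Subsingleton.elim _ _
      rw [this]
      exact Submodule.zero_mem _
    have h1 := lag_sum (rts_nonempty (K := K) hP hm.ne_zero hmP hmF)
    have h2 := congrArg (fun p => (aeval A (p.map (emb K P))) *ᵥ x) h1
    simp only [Polynomial.map_sum, map_sum, Polynomial.map_one, map_one, Matrix.one_mulVec,
      Matrix.sum_mulVec] at h2
    rw [← h2]
    refine Submodule.sum_mem _ fun α hα => Submodule.subset_span ⟨α, hα, ?_⟩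
    obtain ⟨q, hq⟩ := dvd_of_roots hm (splits_rf hP hmP) (p := (X - C α) *
      lag (rts (RF K P) m) α) (by
        intro x hx
        rw [eval_mul]
        by_cases hxα : x = α
        · subst hxα
          rw [eval_sub, eval_C, eval_X, sub_self, zero_mul]
        · rw [lag_ne hx hxα, mul_zero])
    have h3 := congrArg (fun p => aeval A (p.map (emb K P))) hq
    simp only [Polynomial.map_mul, map_mul, Polynomial.map_sub, map_C, map_sub, aeval_C,
      map_X, aeval_X] at h3
    rw [aeval_emb, hAm, zero_mul, sub_mul, sub_eq_zero] at h3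
    rw [Matrix.mulVec_mulVec, h3, ← Matrix.smul_mulVec, Algebra.smul_def]
  let e' := Basis.ofSpan hT
  have he' : ∀ i, e' i ∈ T := fun i => Basis.ofSpan_subset hT ⟨i, rfl⟩
  have hc : Nonempty (((linearIndepOn_empty L id).extend (Set.empty_subset T)) ≃ n) := by
    have h1 : Fintype ((linearIndepOn_empty L id).extend (Set.empty_subset T)) :=
      FiniteDimensional.fintypeBasisIndex e'
    refine ⟨Fintype.equivOfCardEq ?_⟩
    rw [← finrank_eq_card_basis e', finrank_fintype_fun_eq_card]
  obtain ⟨r⟩ := hc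
  choose a ha1 ha2 using fun i => he' (r.symm i)
  refine ⟨e'.reindex r, a, ha1, fun p => ?_⟩
  rw [Basis.reindex_apply]
  exact ha2 p

lemma orth {P h : ℚ[X]} {Q F : Matrix n n K} (hadj : Fᵀ * Q = Q * aeval F h)
    {x y : n → AlgebraicClosure K} {α β : RF K P} (hx : Eig F (emb K P α) x)
    (hy : Eig F (emb K P β) y)
    (hxy : x ⬝ᵥ (Q.map (algebraMap K (AlgebraicClosure K)) *ᵥ y) ≠ 0) : α = aeval β h := by
  have h1 : (F.map (algebraMap K (AlgebraicClosure K)))ᵀ * Q.map (algebraMap K (AlgebraicClosure K)) =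
      Q.map (algebraMap K (AlgebraicClosure K)) * aeval (F.map (algebraMap K (AlgebraicClosure K))) h := by
    have h2 := congrArg (fun X : Matrix n n K => X.map (algebraMap K (AlgebraicClosure K))) hadj
    simp only [Matrix.map_mul] at h2
    rwa [Matrix.transpose_map, aeval_mapQ] at h2
  have h2 : (aeval (F.map (algebraMap K (AlgebraicClosure K))) h) *ᵥ y = emb K P (aeval β h) • y := by
    have h3 := aeval_eigen (K := K) hy (h.map (algebraMap ℚ K))
    rw [aeval_map_algebraMap, aeval_map_algebraMap] at h3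
    rw [h3]
    congr 1
    exact aeval_algHom_apply (RF K P).val β h
  have h3 : x ⬝ᵥ ((F.map (algebraMap K (AlgebraicClosure K)))ᵀ * Q.map (algebraMap K (AlgebraicClosure K))) *ᵥ y =
      emb K P α * (x ⬝ᵥ (Q.map (algebraMap K (AlgebraicClosure K)) *ᵥ y)) := by
    rw [← Matrix.mulVec_mulVec, Matrix.dotProduct_mulVec, Matrix.vecMul_transpose]
    have : F.map (algebraMap K (AlgebraicClosure K)) *ᵥ x = emb K P α • x := hx
    rw [this, smul_dotProduct, smul_eq_mul]
  rw [h1, ← Matrix.mulVec_mulVec, h2, Matrix.mulVec_smul, dotProduct_smul, smul_eq_mul] at h3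
  exact (emb K P).injective (mul_right_cancel₀ hxy h3).symm

end

end Pool.Agent.Y146.KP
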