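import Pool.Agent.Y146.KP.Ext

/-!
# Decompositions into products of pieces
-/

open CategoryTheory AlgebraicGeometry

set_option linter.unusedSectionVars false

universe u v w

namespace Pool.Agent.Y146.KP

open Pool.Agent.H914 Pool.Agent.H914.VarClass Pool.Agent.H914.VarClass.Obj
  Pool.Agent.H914.WeilCohomology Pool.Agent.H281R3.HT Pool.Agent.TH125.Gal Pool.Agent.W550.B
  Pool.Agent.Y104.Geo Pool.Agent.Y146.InjL

variable {k : Type u} [Field k] {𝒱 : VarClass k} {ops : CycleOps 𝒱}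
  {W : WeilCohomology.{u, v} ops} {Γ : Type w} [Group Γ] {χ : Γ →* W.Kˣ} {G : Set (GVar W Γ)}
  {M : Subfield W.K}

/-- A pair of correspondences which factors through a product of pieces. -/
structure Comp (W : WeilCohomology.{u, v} ops) {Γ : Type w} [Group Γ] (G : Set (GVar W Γ))
    (M : Subfield W.K) (Y : 𝒱.Obj) where
  Λ : Type
  D : Λ → Sl W G M
  Q : 𝒱.Obj
  E : MPD W (fun s => (D s).X.X) Q
  p : (Y.prod Q).Cycles
  q : (Q.prod Y).Cycles
  opp : AreOpposite p q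
  mem : ∀ x, cycMap W p x ∈ Submodule.span W.K
    (Set.range fun J : ∀ s, (D s).P.J => big E.e E.π fun s => (D s).P.x (J s))

/-- The composition. -/
noncomputable def Comp.op {Y : 𝒱.Obj} (C : Comp W G M Y) : Module.End W.K (W.H Y) :=
  cycMap W C.q ∘ₗ cycMap W C.p

/-- Numerically trivial cycles are killed. -/
theorem Comp.kill (hG : GaloisClass χ G) {Y : 𝒱.Obj} (C : Comp W G M Y) {j : ℕ} (hj : j ≤ Y.dim)
    {z : Y.Cycles} (hz : IsNumTrivial ops Y j z) (hI : InjectiveOver W (M : Set W.K) Y j) :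
    C.op (W.cl Y z) = 0 :=
  engine hG C.D C.E hj C.opp hz (C.mem _) hI

lemma cycMap_zero {X Y : 𝒱.Obj} : cycMap W (0 : (X.prod Y).Cycles) = 0 := by
  rw [cycMap, map_zero, W.corr_zero]

lemma cycMap_smul {X Y : 𝒱.Obj} (r : ℚ) (z : (X.prod Y).Cycles) :
    cycMap W (r • z) = (r : W.K) • cycMap W z := by
  rw [cycMap, cl_smul, W.corr_smul]
  rfl

/-- Rational multiples. -/
lemma Comp.exists_smul {Y : 𝒱.Obj} (C : Comp W G M Y) (r : ℚ) :
    ∃ C' : Comp W G M Y, C'.op = (r : W.K) • C.op := by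
  obtain ⟨a, b, hab, ha, hb⟩ := C.opp
  refine ⟨⟨C.Λ, C.D, C.Q, C.E, C.p, r • C.q, ⟨a, b, hab, ha, SmVar.IsCyc.smul r hb⟩, C.mem⟩, ?_⟩
  rw [Comp.op, cycMap_smul, LinearMap.smul_comp]
  rfl

/-- Correspondences of very negative degree vanish. -/
lemma KOp_eq_zero {X Z : 𝒱.Obj} {d : ℤ} {φ : W.H X →ₗ[W.K] W.H Z} (hφ : φ ∈ KOp W X Z d)
    (hd : (X.dim : ℤ) + d < 0) : φ = 0 := by
  apply gr_ext (W.isInternal X)
  intro i a ha
  have h1 := KOp.isHom hφ i a (by rw [grZ_natCast]; exact ha)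
  by_cases hi : 2 * X.dim < i
  · rw [W.gr_eq_bot X i hi] at ha
    rw [(Submodule.mem_bot _).1 ha, map_zero, map_zero]
  · rw [grZ_of_neg (by omega)] at h1
    rw [LinearMap.zero_apply]
    exact (Submodule.mem_bot _).1 h1

lemma cycMap_KOp {X Y : 𝒱.Obj} {a : ℕ} {z : (X.prod Y).Cycles} (hz : (X.prod Y).IsCyc a z) :
    cycMap W z ∈ KOp W X Y ((a : ℤ) - X.dim) := KOp.gen (p := a) (by ring) hz

/-- Transport along a pair of opposite correspondences. -/
theorem Comp.trans {Y Y' : 𝒱.Obj} (C : Comp W G M Y) {u : (Y'.prod Y).Cycles}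
    {v : (Y.prod Y').Cycles} (huv : AreOpposite u v) :
    ∃ C' : Comp W G M Y', C'.op = cycMap W v ∘ₗ C.op ∘ₗ cycMap W u := by
  obtain ⟨a, b, hab, ha, hb⟩ := huv
  obtain ⟨a', b', hab', ha', hb'⟩ := C.opp
  by_cases h1 : Y.dim ≤ a + a'
  · by_cases h2 : Y.dim ≤ b + b'
    · refine ⟨⟨C.Λ, C.D, C.Q, C.E, compCyc ops u C.p, compCyc ops C.q v,
        ⟨a + a' - Y.dim, b + b' - Y.dim, by omega, compCyc_mem ha ha' (by omega),
          compCyc_mem hb' hb (by omega)⟩, fun x => ?_⟩, ?_⟩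
      · rw [cycMap, corr_compCyc W ha', LinearMap.comp_apply]
        exact C.mem _
      · change W.corr (W.cl _ (compCyc ops C.q v)) ∘ₗ W.corr (W.cl _ (compCyc ops u C.p)) = _
        rw [corr_compCyc W ha', corr_compCyc W hb]
        rfl
    · have h0 : cycMap W v ∘ₗ cycMap W C.q = 0 :=
        KOp_eq_zero (KOp.comp (cycMap_KOp hb) (cycMap_KOp hb')) (by omega)
      refine ⟨⟨C.Λ, C.D, C.Q, C.E, 0, 0, ⟨0, Y'.dim + C.Q.dim, by omega,
        SmVar.IsCyc.zero _ _, SmVar.IsCyc.zero _ _⟩, fun x => ?_⟩, ?_⟩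
      · rw [cycMap_zero]
        exact Submodule.zero_mem _
      · change cycMap W (0 : (C.Q.prod Y').Cycles) ∘ₗ cycMap W (0 : (Y'.prod C.Q).Cycles) = _
        rw [cycMap_zero, LinearMap.zero_comp, Comp.op, LinearMap.comp_assoc,
          ← LinearMap.comp_assoc, h0, LinearMap.zero_comp]
  · have h0 : cycMap W C.p ∘ₗ cycMap W u = 0 :=
      KOp_eq_zero (KOp.comp (cycMap_KOp ha') (cycMap_KOp ha)) (by omega)
    refine ⟨⟨C.Λ, C.D, C.Q, C.E, 0, 0, ⟨0, Y'.dim + C.Q.dim, by omega,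
      SmVar.IsCyc.zero _ _, SmVar.IsCyc.zero _ _⟩, fun x => ?_⟩, ?_⟩
    · rw [cycMap_zero]
      exact Submodule.zero_mem _
    · change cycMap W (0 : (C.Q.prod Y').Cycles) ∘ₗ cycMap W (0 : (Y'.prod C.Q).Cycles) = _
      rw [cycMap_zero, LinearMap.zero_comp, Comp.op, LinearMap.comp_assoc, h0,
        LinearMap.comp_zero, LinearMap.comp_zero]

lemma span_mul_mem {K : Type*} [Field K] {A B C : Type*} [AddCommGroup A] [Module K A]
    [AddCommGroup B] [Module K B] [Ring C] [Algebra K C] (f : A →ₗ[K] C) (g : B →ₗ[K] C)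
    {S : Set A} {T : Set B} {U : Submodule K C} (h : ∀ a ∈ S, ∀ b ∈ T, f a * g b ∈ U) {a : A}
    {b : B} (ha : a ∈ Submodule.span K S) (hb : b ∈ Submodule.span K T) : f a * g b ∈ U := by
  induction ha using Submodule.span_induction with
  | mem x hx =>
    induction hb using Submodule.span_induction with
    | mem y hy => exact h x hx y hy
    | zero => rw [map_zero, mul_zero]; exact Submodule.zero_mem _
    | add x y _ _ hx hy => rw [map_add, mul_add]; exact Submodule.add_mem _ hx hy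
    | smul r x _ hx => rw [map_smul, mul_smul_comm]; exact Submodule.smul_mem _ _ hx
  | zero => rw [map_zero, zero_mul]; exact Submodule.zero_mem _
  | add x y _ _ hx hy => rw [map_add, add_mul]; exact Submodule.add_mem _ hx hy
  | smul r x _ hx => rw [map_smul, smul_mul_assoc]; exact Submodule.smul_mem _ _ hx

lemma mem_prod {Λ₁ Λ₂ : Type} (D : Λ₁ ⊕ Λ₂ → Sl W G M) {Q₁ Q₂ : 𝒱.Obj}
    (E₁ : MPD W (fun s => (D (Sum.inl s)).X.X) Q₁) (E₂ : MPD W (fun s => (D (Sum.inr s)).X.X) Q₂)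
    {a : W.H Q₁} {b : W.H Q₂}
    (ha : a ∈ Submodule.span W.K (Set.range fun J : ∀ s, (D (Sum.inl s)).P.J =>
      big E₁.e E₁.π fun s => (D (Sum.inl s)).P.x (J s)))
    (hb : b ∈ Submodule.span W.K (Set.range fun J : ∀ s, (D (Sum.inr s)).P.J =>
      big E₂.e E₂.π fun s => (D (Sum.inr s)).P.x (J s))) :
    W.map (fst Q₁ Q₂) a * W.map (snd Q₁ Q₂) b ∈ Submodule.span W.K
      (Set.range fun J : ∀ s, (D s).P.J => big (MPD.prod (X := fun s => (D s).X.X) E₁ E₂).e
        (MPD.prod (X := fun s => (D s).X.X) E₁ E₂).π fun s => (D s).P.x (J s)) := by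
  refine span_mul_mem (W.map (fst Q₁ Q₂)).toLinearMap (W.map (snd Q₁ Q₂)).toLinearMap ?_ ha hb
  rintro _ ⟨J, rfl⟩ _ ⟨J', rfl⟩
  let J'' : ∀ s, (D s).P.J := fun s => match s with
    | Sum.inl s => J s
    | Sum.inr s => J' s
  exact Submodule.subset_span ⟨J'', big_prod (X := fun s => (D s).X.X) E₁.e E₂.e E₁.π E₂.π
    fun s => (D s).P.x (J'' s)⟩

/-- Products. -/
theorem Comp.prod {Y Z : 𝒱.Obj} (C : Comp W G M Y) (C' : Comp W G M Z) :
    ∃ C'' : Comp W G M (Y.prod Z), C''.op = extOp W C.op C'.op := by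
  obtain ⟨a, b, hab, ha, hb⟩ := C.opp
  obtain ⟨a', b', hab', ha', hb'⟩ := C'.opp
  let D : C.Λ ⊕ C'.Λ → Sl W G M := Sum.elim C.D C'.D
  let E : MPD W (fun s => (D s).X.X) (C.Q.prod C'.Q) := MPD.prod C.E C'.E
  refine ⟨⟨C.Λ ⊕ C'.Λ, D, C.Q.prod C'.Q, E, extCyc ops C.p C'.p, extCyc ops C.q C'.q,
    ⟨a + a', b + b', ?_, extCyc_mem ha ha', extCyc_mem hb hb'⟩, fun x => ?_⟩, ?_⟩
  · rw [dim_prod, dim_prod]
    omega
  · refine W.kunneth_induction (p := fun x => cycMap W (extCyc ops C.p C'.p) x ∈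
      Submodule.span W.K (Set.range fun J : ∀ s, (D s).P.J => big E.e E.π fun s =>
        (D s).P.x (J s))) ?_ ?_ x
    · intro a b ha hb
      rw [map_add]
      exact Submodule.add_mem _ ha hb
    · intro i j x _ y _
      rw [cycMap_ext ha']
      exact mem_prod D C.E C'.E (C.mem x) (C'.mem y)
  · apply ext_kunneth_lin
    intro x y
    rw [Comp.op, LinearMap.comp_apply, cycMap_ext ha', cycMap_ext hb', extOp_tmul]
    rfl

/-- The identity of the cohomology is a sum of pairs of correspondences which factor through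
products of pieces. -/
def Dec (W : WeilCohomology.{u, v} ops) {Γ : Type w} [Group Γ] (G : Set (GVar W Γ))
    (M : Subfield W.K) (Y : 𝒱.Obj) : Prop :=
  ∃ (ι : Type) (_ : Fintype ι) (C : ι → Comp W G M Y), ∑ i, (C i).op = 1

theorem Dec.prod {Y Z : 𝒱.Obj} (hY : Dec W G M Y) (hZ : Dec W G M Z) :
    Dec W G M (Y.prod Z) := by
  obtain ⟨ι, _, C, hC⟩ := hY
  obtain ⟨ι', _, C', hC'⟩ := hZ
  choose C'' h using fun i : ι × ι' => (C i.1).prod (C' i.2)
  refine ⟨ι × ι', inferInstance, C'', ?_⟩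
  rw [Finset.sum_congr rfl fun i _ => h i, Fintype.sum_prod_type,
    Finset.sum_congr rfl fun i _ => (extOp_sum' Finset.univ (C i).op fun i' => (C' i').op).symm,
    hC', ← extOp_sum, hC, extOp_one]

theorem Dec.isProductOf {S : Set 𝒱.Obj} (hS : ∀ X ∈ S, Dec W G M X) {Y : 𝒱.Obj}
    (hY : IsProductOf S Y) : Dec W G M Y := by
  induction hY with
  | base h => exact hS _ h
  | prod _ _ ih ih' => exact ih.prod ih'

/-- **Numerically trivial cycles on direct summands.** -/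
theorem homEqNumIn_of_dec (hG : GaloisClass χ G) {Y : 𝒱.Obj} {r : ℕ} {Q : Fin r → 𝒱.Obj}
    (hQ : ∀ l, Dec W G M (Q l)) (u : ∀ l, (Y.prod (Q l)).Cycles)
    (v : ∀ l, ((Q l).prod Y).Cycles) (huv : ∀ l, AreOpposite (u l) (v l)) {c : W.K} (hc : c ≠ 0)
    (hvu : ∀ x, ∑ l, cycMap W (v l) (cycMap W (u l) x) = c • x) {j : ℕ}
    (hI : InjectiveOver W (M : Set W.K) Y j) : Pool.Agent.H447.HomEqNumIn W Y j := by
  intro z hz hnum
  by_cases hj : j ≤ Y.dim
  swap
  · exact cl_eq_zero_of_lt (by omega) hz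
  have hz' : IsNumTrivial ops Y j z := ⟨hz, hnum⟩
  have h0 : ∀ l, cycMap W (v l) (cycMap W (u l) (W.cl Y z)) = 0 := by
    intro l
    obtain ⟨ι, _, C, hC⟩ := hQ l
    choose C' hC' using fun i => (C i).trans (huv l)
    have h1 : cycMap W (v l) (cycMap W (u l) (W.cl Y z)) = ∑ i, (C' i).op (W.cl Y z) := by
      have h2 := congrArg (fun φ : Module.End W.K (W.H (Q l)) =>
        cycMap W (v l) (φ (cycMap W (u l) (W.cl Y z)))) hC
      simp only [LinearMap.sum_apply, map_sum, Module.End.one_apply] at h2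
      rw [← h2]
      refine Finset.sum_congr rfl fun i _ => ?_
      rw [hC' i]
      rfl
    rw [h1]
    exact Finset.sum_eq_zero fun i _ => (C' i).kill hG hj hz' hI
  have h1 := hvu (W.cl Y z)
  rw [Finset.sum_eq_zero fun l _ => h0 l] at h1
  exact (smul_eq_zero.1 h1.symm).resolve_left hc

/-- **Numerically trivial cycles on generated varieties.** -/
theorem homEqNumIn_of_generated (hG : GaloisClass χ G) {S : Set 𝒱.Obj}
    (hS : ∀ X ∈ S, Dec W G M X) {Y : 𝒱.Obj} (hY : IsGenerated W S Y) {j : ℕ}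
    (hI : InjectiveOver W (M : Set W.K) Y j) : Pool.Agent.H447.HomEqNumIn W Y j := by
  rcases hY with ⟨Q, hQ, hY⟩ | ⟨r, Q, hQ, u, v, huv, hvu⟩
  · obtain ⟨u, v, c, huv, hc, hvu⟩ := exists_of_dominates hY
    refine homEqNumIn_of_dec hG (Q := fun _ : Fin 1 => Q) (c := c)
      (fun _ => Dec.isProductOf hS hQ) (fun _ => u) (fun _ => v) (fun _ => huv) hc ?_ hI
    intro x
    rw [Fin.sum_univ_one, hvu]
  · refine homEqNumIn_of_dec hG (c := 1) (fun l => Dec.isProductOf hS (hQ l)) u v huv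
      one_ne_zero ?_ hI
    intro x
    rw [hvu, one_smul]

end Pool.Agent.Y146.KP
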