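import Pool.Agent.Y146.KP.Lag

/-!
# The complex conjugation on the root field
-/

open Finset Polynomial IntermediateField

namespace Pool.Agent.Y146.KP

universe u

variable {K : Type u} [Field K] [CharZero K]

lemma exists_conjugation (P : ℚ[X]) : ∃ (τ : RF K P →+* RF K P) (ψ : RF K P →+* ℂ),
    (∀ x, τ (τ x) = x) ∧ ∀ x, ψ (τ x) = starRingEnd ℂ (ψ x) := by
  have := rf_fin (K := K) P
  have := rf_gal (K := K) P
  let ψ : RF K P →ₐ[ℚ] ℂ := IsAlgClosed.lift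
  let _ : Algebra (RF K P) ℂ := ψ.toRingHom.toAlgebra
  have : IsScalarTower ℚ (RF K P) ℂ := IsScalarTower.of_algebraMap_eq' (Subsingleton.elim _ _)
  let c : ℂ →ₐ[ℚ] ℂ := (starRingEnd ℂ).toRatAlgHom
  let τ := c.restrictNormal (RF K P)
  have h1 : ∀ x, ψ (τ x) = starRingEnd ℂ (ψ x) := fun x => c.restrictNormal_commutes (RF K P) x
  refine ⟨τ.toRingHom, ψ.toRingHom, fun x => ?_, h1⟩
  apply ψ.toRingHom.injective
  have h2 := h1 (τ x)
  rw [h1 x, Complex.conj_conj] at h2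
  exact h2

/-- The complex conjugation and the adjoint. -/
lemma conjugation_eq {P m h : ℚ[X]} (hm : m ≠ 0) {τ : RF K P →+* RF K P} {ψ : RF K P →+* ℂ}
    (hψ : ∀ x, ψ (τ x) = starRingEnd ℂ (ψ x))
    (hh : ∀ x : ℂ, aeval x m = 0 → aeval x h = starRingEnd ℂ x) {x : RF K P}
    (hx : x ∈ rts (RF K P) m) : τ x = aeval x h := by
  rw [mem_rts hm] at hx
  have h0 : ∀ q : ℚ[X], ψ (aeval x q) = aeval (ψ x) q := fun q =>
    (aeval_algHom_apply ψ.toRatAlgHom x q).symm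
  apply ψ.injective
  rw [hψ, h0, hh]
  rw [← h0, hx, map_zero]

end Pool.Agent.Y146.KP
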