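import Pool.Agent.Y146.KP.Wgt

/-!
# The weights of a null set of tensors
-/

open Finset Module Matrix Polynomial

set_option linter.unusedSectionVars false

namespace Pool.Agent.Y146.KP

open Pool.Agent.Y104.Kempf

universe u

variable {ι : Type} [Fintype ι] [DecidableEq ι] {b : ι → Type} [∀ i, Fintype (b i)]
  [∀ i, DecidableEq (b i)] {S : Type} [Fintype S] [DecidableEq S] {c : S → ι}
  {K : Type u} [Field K] [CharZero K]

lemma ev_ne {z : (∀ s, b (c s)) → K} {u : ∀ s, b (c s) → AlgebraicClosure K} (h : ev z u ≠ 0)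
    (s : S) : u s ≠ 0 := by
  intro h0
  apply h
  unfold ev
  refine Finset.sum_eq_zero fun I _ => ?_
  rw [Finset.prod_eq_zero (mem_univ s) (by rw [h0]; rfl), zero_mul]

/-- **The weights.** A null set of tensors, which contains a nonzero tensor and is stable under
similitudes and a self-adjoint algebra of operators, has weights on the eigenvalues. -/
theorem exists_weights {Q : ∀ j, Matrix (b j) (b j) K} {ε : ι → K}
    (hε1 : ∀ j, ε j * ε j = 1) (hε : ∀ j, (Q j)ᵀ = ε j • Q j) (hQ : ∀ j, IsUnit (Q j))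
    {N : Set ((S → Σ j, b j) → K)} (hc : ∀ z ∈ N, ∀ I, z I ≠ 0 → ∀ s, (I s).1 = c s)
    (hN : ∀ (m : ℕ) (z : Fin (m + 1) → (S → Σ j, b j) → K), (∀ i, z i ∈ N) →
      NullT (Matrix.blockDiagonal' fun j => (Q j)⁻¹) (tp z))
    {G : Set (∀ j, Matrix (b j) (b j) K)} (hG : ∀ g ∈ G, ∀ j, IsUnit (g j))
    (hGQ : ∀ g ∈ G, ∀ j, ∃ a : K, a ≠ 0 ∧ (g j)ᵀ * Q j * g j = a • Q j)
    (hGN : ∀ g ∈ G, ∀ z ∈ N, gtact (fun _ => Matrix.blockDiagonal' fun j => (g j)ᵀ) z ∈ N)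
    (E : ∀ j, Subalgebra K (Matrix (b j) (b j) K))
    (hadj : ∀ j, ∀ e ∈ E j, (Q j)⁻¹ * eᵀ * Q j ∈ E j)
    (hnd : ∀ j, ∀ x ∈ E j, (∀ y ∈ E j, (x * y).trace = 0) → x = 0)
    (hEN : ∀ e : S → ∀ j, Matrix (b j) (b j) K, (∀ s j, e s j ∈ E j) → ∀ z ∈ N,
      gtact (fun s => Matrix.blockDiagonal' fun j => (e s j)ᵀ) z ∈ N)
    (hN0 : ∃ z ∈ N, z ≠ 0) {f : ∀ j, Matrix (b j) (b j) K} (hf : StablePoly f G E)
    {L₀ : Type*} [Field L₀] (φ : L₀ →+* AlgebraicClosure K)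
    (e : ∀ j, Basis (b j) (AlgebraicClosure K) (b j → AlgebraicClosure K))
    {a : ∀ j, b j → L₀} (he : ∀ j p, Eig (f j) (φ (a j p)) (e j p)) (τ : L₀ → L₀)
    (hτ : ∀ x, τ (τ x) = x)
    (horth : ∀ j p q, e j p ⬝ᵥ ((Q j).map (algebraMap K (AlgebraicClosure K)) *ᵥ e j q) ≠ 0 →
      a j p = τ (a j q)) :
    ∃ (ω : ι → L₀ → ℝ) (t : ℝ), 0 < t ∧ (∀ j x, ω j (τ x) = - ω j x) ∧
      (∀ j x x' (σ : AlgebraicClosure K ≃ₐ[K] AlgebraicClosure K), σ (φ x) = φ x' →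
        ω j x = ω j x') ∧
      ∀ z ∈ N, ∀ (x : S → L₀) (u : ∀ s, b (c s) → AlgebraicClosure K),
        (∀ s, Eig (f (c s)) (φ (x s)) (u s)) → ev (rst c z) u ≠ 0 →
          ∑ s, ω (c s) (x s) ≤ -t := by
  obtain ⟨z, hz, hz0⟩ := hN0
  obtain ⟨w, t, h⟩ := exists_canonical hε1 hε hQ hc hN hG hGQ hGN E hadj hnd hEN hz hz0
  refine ⟨wt φ w f, t, h.pos, fun j x => h.wt_anti φ hf hQ (e j) (he j) τ hτ (horth j) x,
    fun j x x' σ hσ => h.wt_gal φ hf j σ hσ, fun z hz x u hu hev => ?_⟩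
  have h1 := h.ge _ ⟨z, hz, rfl⟩ u hev
  rw [Finset.sum_congr rfl fun s _ => h.wt_eq φ hf (ev_ne hev s) (hu s)]
  exact h1

/-- **No pair of opposite types occurs.** -/
theorem no_pair {N : Set ((S → Σ j, b j) → K)} {f : ∀ j, Matrix (b j) (b j) K}
    {L₀ : Type*} [Field L₀] (φ : L₀ →+* AlgebraicClosure K) {τ : L₀ → L₀}
    (h : ∃ (ω : ι → L₀ → ℝ) (t : ℝ), 0 < t ∧ (∀ j x, ω j (τ x) = - ω j x) ∧
      (∀ j x x' (σ : AlgebraicClosure K ≃ₐ[K] AlgebraicClosure K), σ (φ x) = φ x' →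
        ω j x = ω j x') ∧
      ∀ z ∈ N, ∀ (x : S → L₀) (u : ∀ s, b (c s) → AlgebraicClosure K),
        (∀ s, Eig (f (c s)) (φ (x s)) (u s)) → ev (rst c z) u ≠ 0 →
          ∑ s, ω (c s) (x s) ≤ -t)
    {x x' : S → L₀}
    (hx : ∀ s, (∃ σ : AlgebraicClosure K ≃ₐ[K] AlgebraicClosure K, σ (φ (x' s)) = φ (τ (x s))) ∨
      ((∃ σ : AlgebraicClosure K ≃ₐ[K] AlgebraicClosure K, σ (φ (x s)) = φ (τ (x s))) ∧
        ∃ σ : AlgebraicClosure K ≃ₐ[K] AlgebraicClosure K, σ (φ (x' s)) = φ (τ (x' s))))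
    {z z' : (S → Σ j, b j) → K} (hz : z ∈ N) (hz' : z' ∈ N)
    {u u' : ∀ s, b (c s) → AlgebraicClosure K}
    (hu : ∀ s, Eig (f (c s)) (φ (x s)) (u s)) (hu' : ∀ s, Eig (f (c s)) (φ (x' s)) (u' s))
    (hev : ev (rst c z) u ≠ 0) : ev (rst c z') u' = 0 := by
  by_contra hev'
  obtain ⟨ω, t, ht, hanti, hgal, hge⟩ := h
  have h1 := hge z hz x u hu hev
  have h2 := hge z' hz' x' u' hu' hev'
  have h3 : ∀ s, ω (c s) (x' s) = - ω (c s) (x s) := by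
    intro s
    rcases hx s with ⟨σ, hσ⟩ | ⟨⟨σ, hσ⟩, ⟨σ', hσ'⟩⟩
    · rw [hgal (c s) _ _ σ hσ, hanti]
    · have h4 := hgal (c s) _ _ σ hσ
      have h5 := hgal (c s) _ _ σ' hσ'
      rw [hanti] at h4 h5
      linarith
  rw [Finset.sum_congr rfl fun s _ => h3 s, Finset.sum_neg_distrib] at h2
  linarith

end Pool.Agent.Y146.KP
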