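import Pool.Agent.Y146.KP.Lag
import Pool.Agent.Y146.KP.Wfin

/-!
# Nonzero values at eigenvectors
-/

open Finset Module Matrix Polynomial

set_option linter.unusedSectionVars false

namespace Pool.Agent.Y146.KP

open Pool.Agent.Y104.Kempf

universe u

/-- The embedding of the root field. -/
noncomputable def emb (K : Type u) [Field K] [CharZero K] (P : ℚ[X]) :
    RF K P →+* AlgebraicClosure K := (RF K P).val.toRingHom

lemma emb_apply {K : Type u} [Field K] [CharZero K] {P : ℚ[X]} (x : RF K P) :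
    emb K P x = (x : AlgebraicClosure K) := rfl

section

variable {S : Type} [Fintype S] [DecidableEq S] {b : S → Type} [∀ s, Fintype (b s)]
  [∀ s, DecidableEq (b s)] {K : Type u} [Field K] [CharZero K]

/-- The value of a tensor at a family of linear forms. -/
def evS {L : Type*} [Field L] [Algebra K L] (z : (∀ s, b s) → K) (u : ∀ s, b s → L) : L :=
  ∑ I : ∀ s, b s, (∏ s, u s (I s)) * algebraMap K L (z I)

lemma evS_eq {L : Type*} [Field L] [Algebra K L] (z : (∀ s, b s) → K) (u : ∀ s, b s → L) :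
    evS z u = ev (b := b) (c := id) z u := rfl

lemma ev_form {L : Type*} [Field L] [Algebra K L] (Q : ∀ s, Matrix (b s) (b s) K)
    (ζ : (∀ s, b s) → K) (u : ∀ s, b s → L) :
    evS (fun I => ∑ J : ∀ s, b s, ζ J * ∏ s, Q s (J s) (I s)) u =
      ∑ J : ∀ s, b s, algebraMap K L (ζ J) *
        ∏ s, ((Q s).map (algebraMap K L) *ᵥ u s) (J s) := by
  have h1 : ∀ J : ∀ s, b s, ∏ s, ((Q s).map (algebraMap K L) *ᵥ u s) (J s) =
      ∑ I : ∀ s, b s, ∏ s, algebraMap K L (Q s (J s) (I s)) * u s (I s) := by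
    intro J
    simp only [Matrix.mulVec, dotProduct, Matrix.map_apply]
    rw [Finset.prod_univ_sum, Fintype.piFinset_univ]
  simp only [h1]
  unfold evS
  simp only [Finset.mul_sum, map_sum]
  rw [Finset.sum_comm]
  refine Finset.sum_congr rfl fun J _ => ?_
  refine Finset.sum_congr rfl fun I _ => ?_
  rw [Finset.prod_mul_distrib, map_mul, map_prod]
  ring

lemma aeval_mapQ {L : Type*} [Field L] [CharZero L] [Algebra K L] {n : Type} [Fintype n]
    [DecidableEq n] (f : Matrix n n K) (p : ℚ[X]) :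
    (aeval f p).map (algebraMap K L) = aeval (f.map (algebraMap K L)) p := by
  have h1 := Polynomial.aeval_algHom_apply
    ((algebraMap K L).mapMatrix : Matrix n n K →+* Matrix n n L).toRatAlgHom f p
  exact h1.symm

lemma sum_coeff {L : Type*} [Field L] [Algebra K L] {L₀ : Type*} [Field L₀] (φ : L₀ →+* L)
    (F : ∀ s, Matrix (b s) (b s) K) (p : S → L₀[X]) (D : ℕ) (hD : ∀ s, (p s).natDegree < D)
    (ζ lam : (∀ s, b s) → K) :
    ∑ k : S → Fin D, φ (∏ s, (p s).coeff (k s)) * algebraMap K L
      (∑ J' : ∀ s, b s, (∑ J : ∀ s, b s, ζ J * ∏ s, (F s ^ (k s : ℕ)) (J' s) (J s)) * lam J') =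
    ∑ J' : ∀ s, b s, algebraMap K L (lam J') * ∑ J : ∀ s, b s, algebraMap K L (ζ J) *
      ∏ s, (aeval ((F s).map (algebraMap K L)) ((p s).map φ)) (J' s) (J s) := by
  have h1 : ∀ J' J : ∀ s, b s,
      ∏ s, (aeval ((F s).map (algebraMap K L)) ((p s).map φ)) (J' s) (J s) =
      ∑ k : S → Fin D, ∏ s, φ ((p s).coeff (k s)) *
        algebraMap K L ((F s ^ (k s : ℕ)) (J' s) (J s)) := by
    intro J' J
    have h2 : ∀ s, (aeval ((F s).map (algebraMap K L)) ((p s).map φ)) (J' s) (J s) =
        ∑ k : Fin D, φ ((p s).coeff k) * algebraMap K L ((F s ^ (k : ℕ)) (J' s) (J s)) := by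
      intro s
      rw [aeval_eq_sum_range' (n := D) (lt_of_le_of_lt natDegree_map_le (hD s)),
        Matrix.sum_apply, Finset.sum_range]
      refine Finset.sum_congr rfl fun k _ => ?_
      rw [Matrix.smul_apply, coeff_map, smul_eq_mul]
      congr 1
      have h3 : (F s).map (algebraMap K L) ^ (k : ℕ) = (F s ^ (k : ℕ)).map (algebraMap K L) :=
        (map_pow ((algebraMap K L).mapMatrix) (F s) k).symm
      rw [h3, Matrix.map_apply]
    simp only [h2]
    rw [Finset.prod_univ_sum, Fintype.piFinset_univ]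
  simp only [h1, map_sum, map_mul, map_prod, Finset.mul_sum, Finset.sum_mul]
  rw [Finset.sum_comm]
  refine Finset.sum_congr rfl fun J' _ => ?_
  rw [Finset.sum_comm]
  refine Finset.sum_congr rfl fun J _ => ?_
  refine Finset.sum_congr rfl fun k _ => ?_
  rw [Finset.prod_mul_distrib]
  ring

/-- **A nonzero component is detected by eigenvectors.** -/
theorem exists_eigen {P : ℚ[X]} (hP : P ≠ 0) {Q F : ∀ s, Matrix (b s) (b s) K} {ε : S → K}
    (hε1 : ∀ s, ε s * ε s = 1) (hε : ∀ s, (Q s)ᵀ = ε s • Q s) (hQ : ∀ s, IsUnit (Q s))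
    {m h : S → ℚ[X]} (hm : ∀ s, Squarefree (m s)) (hmP : ∀ s, m s ∣ P)
    (hmF : ∀ s, aeval (F s) (m s) = 0)
    (hadj : ∀ s, (F s)ᵀ * Q s = Q s * aeval (F s) (h s)) {α : S → RF K P}
    (ζ : (∀ s, b s) → K) {D : ℕ}
    (hD : ∀ s, (m s).natDegree < D) (lam : (∀ s, b s) → K)
    (hne : ∑ k : S → Fin D, emb K P (∏ s, (lag (rts (RF K P) (m s)) (α s)).coeff (k s)) *
      algebraMap K (AlgebraicClosure K) (∑ J' : ∀ s, b s,
        (∑ J : ∀ s, b s, ζ J * ∏ s, (F s ^ (k s : ℕ)) (J' s) (J s)) * lam J') ≠ 0) :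
    ∃ u : ∀ s, b s → AlgebraicClosure K,
      (∀ s, Eig (F s) (emb K P (aeval (α s) (h s))) (u s)) ∧
      evS (fun I => ∑ J : ∀ s, b s, ζ J * ∏ s, Q s (J s) (I s)) u ≠ 0 := by
  classical
  set L := AlgebraicClosure K with hL
  rw [sum_coeff (emb K P) F _ D (fun s => lt_of_le_of_lt (lag_natDegree _)
    (lt_of_le_of_lt rts_card (hD s)))] at hne
  obtain ⟨J', _, hJ'⟩ := Finset.exists_ne_zero_of_sum_ne_zero hne
  have hJ := right_ne_zero_of_mul hJ'
  let A : ∀ s, Matrix (b s) (b s) L := fun s => (F s).map (algebraMap K L)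
  let G : ∀ s, Matrix (b s) (b s) L := fun s =>
    aeval (A s) ((lag (rts (RF K P) (m s)) (α s)).map (emb K P))
  let QL : ∀ s, Matrix (b s) (b s) L := fun s => (Q s).map (algebraMap K L)
  have hQLu : ∀ s, IsUnit (QL s) := fun s => (hQ s).map ((algebraMap K L).mapMatrix)
  have hQd : ∀ s, IsUnit (QL s).det := fun s => (Matrix.isUnit_iff_isUnit_det _).1 (hQLu s)
  let u : ∀ s, b s → L := fun s => (QL s)⁻¹ *ᵥ ((G s)ᵀ *ᵥ Pi.single (J' s) 1)
  have hu : ∀ s, QL s *ᵥ u s = fun p => G s (J' s) p := by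
    intro s
    simp only [u]
    rw [Matrix.mulVec_mulVec, Matrix.mul_nonsing_inv _ (hQd s), Matrix.one_mulVec,
      Matrix.mulVec_single_one]
    rfl
  refine ⟨u, fun s => ?_, ?_⟩
  · -- the eigenvalue
    have hQA : QL s * A s = (aeval (A s) (h s))ᵀ * QL s := by
      have h1 := congrArg Matrix.transpose (hadj s)
      rw [Matrix.transpose_mul, Matrix.transpose_mul, Matrix.transpose_transpose, hε,
        Matrix.smul_mul, Matrix.mul_smul] at h1
      have h2 := congrArg (fun X => ε s • X) h1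
      simp only [smul_smul, hε1, one_smul] at h2
      have h3 := congrArg (fun X : Matrix (b s) (b s) K => X.map (algebraMap K L)) h2
      simp only [Matrix.map_mul] at h3
      rw [Matrix.transpose_map, aeval_mapQ] at h3
      exact h3
    have hGh : aeval (A s) (h s) * G s = emb K P (aeval (α s) (h s)) • G s := by
      have h1 : aeval (A s) (h s) =
          aeval (A s) (((h s).map (algebraMap ℚ (RF K P))).map (emb K P)) := by
        rw [Polynomial.map_map]
        have : (emb K P).comp (algebraMap ℚ (RF K P)) = algebraMap ℚ L := Subsingleton.elim _ _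
        rw [this, aeval_map_algebraMap]
      obtain ⟨q, h2⟩ := dvd_of_roots (hm s) (splits_rf hP (hmP s))
        (p := ((h s).map (algebraMap ℚ (RF K P)) - C (aeval (α s) (h s))) *
          lag (rts (RF K P) (m s)) (α s)) (by
            intro x hx
            rw [eval_mul]
            by_cases hxα : x = α s
            · subst hxα
              rw [eval_sub, eval_C, eval_map_algebraMap, sub_self, zero_mul]
            · rw [lag_ne hx hxα, mul_zero])
      have h3 := congrArg (fun p => aeval (A s) (p.map (emb K P))) h2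
      simp only [Polynomial.map_mul, map_mul, Polynomial.map_sub, map_C, map_sub, aeval_C] at h3
      have h4 : aeval (A s) (((m s).map (algebraMap ℚ (RF K P))).map (emb K P)) = 0 := by
        rw [Polynomial.map_map]
        have : (emb K P).comp (algebraMap ℚ (RF K P)) = algebraMap ℚ L := Subsingleton.elim _ _
        rw [this, aeval_map_algebraMap]
        simp only [A]
        rw [← aeval_mapQ, hmF]
        ext i j
        simp
      rw [h4, zero_mul, sub_mul, ← h1, sub_eq_zero] at h3
      rw [Algebra.smul_def]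
      exact h3
    have hcomm : G s * aeval (A s) (h s) = aeval (A s) (h s) * G s := by
      simp only [G]
      have h1 : aeval (A s) (h s) =
          aeval (A s) (((h s).map (algebraMap ℚ (RF K P))).map (emb K P)) := by
        rw [Polynomial.map_map]
        have : (emb K P).comp (algebraMap ℚ (RF K P)) = algebraMap ℚ L := Subsingleton.elim _ _
        rw [this, aeval_map_algebraMap]
      rw [h1, ← map_mul, ← map_mul, mul_comm]
    have hGh' : (aeval (A s) (h s))ᵀ * (G s)ᵀ = emb K P (aeval (α s) (h s)) • (G s)ᵀ := by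
      rw [← Matrix.transpose_mul, ← Matrix.transpose_smul, ← hGh, hcomm]
    change A s *ᵥ u s = _ • u s
    have h1 : A s * (QL s)⁻¹ = (QL s)⁻¹ * (aeval (A s) (h s))ᵀ := by
      have h2 := congrArg (fun X => (QL s)⁻¹ * X * (QL s)⁻¹) hQA
      simp only [← Matrix.mul_assoc] at h2
      rw [Matrix.nonsing_inv_mul _ (hQd s), Matrix.one_mul, Matrix.mul_assoc _ (QL s),
        Matrix.mul_nonsing_inv _ (hQd s), Matrix.mul_one] at h2
      exact h2
    simp only [u]
    rw [Matrix.mulVec_mulVec, h1, Matrix.mulVec_mulVec, Matrix.mulVec_mulVec, Matrix.mul_assoc,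
      hGh', Matrix.mul_smul, Matrix.smul_mulVec]
  · rw [ev_form]
    have h5 : ∀ J : ∀ s, b s, ∏ s, ((Q s).map (algebraMap K L) *ᵥ u s) (J s) =
        ∏ s, G s (J' s) (J s) := fun J =>
      Finset.prod_congr rfl fun s _ => congrFun (hu s) (J s)
    rw [Finset.sum_congr rfl fun J _ => congrArg (fun x => algebraMap K L (ζ J) * x) (h5 J)]
    exact hJ

end

end Pool.Agent.Y146.KP
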