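import Mathlib

/-!
# Conjugates of eigenvalues and coefficients of factors
-/

open Polynomial IntermediateField

namespace Pool.Agent.Y146.KP

universe u

variable {K : Type u} [Field K] [CharZero K]

/-- The field generated by the roots of a rational polynomial. -/
noncomputable abbrev RF (K : Type u) [Field K] [CharZero K] (P : ℚ[X]) :
    IntermediateField ℚ (AlgebraicClosure K) :=
  IntermediateField.adjoin ℚ (P.rootSet (AlgebraicClosure K))

lemma rf_split (P : ℚ[X]) : IsSplittingField ℚ (RF K P) P :=
  IntermediateField.adjoin_rootSet_isSplittingField (IsAlgClosed.splits _)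

lemma rf_fin (P : ℚ[X]) : FiniteDimensional ℚ (RF K P) := by
  have := rf_split (K := K) P
  exact IsSplittingField.finiteDimensional _ P

lemma rf_gal (P : ℚ[X]) : IsGalois ℚ (RF K P) := by
  have := rf_split (K := K) P
  have := rf_fin (K := K) P
  have : Normal ℚ (RF K P) := Normal.of_isSplittingField P
  exact ⟨⟩

/-- The elements of the root field with values in `M`. -/
noncomputable def fieldIn (M : Subfield K) (P : ℚ[X]) : IntermediateField ℚ (RF K P) :=
  Subfield.toIntermediateField
    ((M.map (algebraMap K (AlgebraicClosure K))).comap (RF K P).val.toRingHom) (by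
      intro x
      rw [Subfield.mem_comap]
      have h1 : (RF K P).val.toRingHom (algebraMap ℚ (RF K P) x) =
          algebraMap K (AlgebraicClosure K) (x : K) := by
        rw [map_ratCast, eq_ratCast (algebraMap ℚ (RF K P)) x, map_ratCast]
      rw [h1]
      exact ⟨x, by
        exact SubfieldClass.ratCast_mem M x, rfl⟩)

lemma mem_fieldIn {M : Subfield K} {P : ℚ[X]} {x : RF K P} :
    x ∈ fieldIn M P ↔ ∃ m ∈ M, algebraMap K (AlgebraicClosure K) m = x := Iff.rfl

/-- The automorphisms which fix the elements with values in `M`. -/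
noncomputable def stab (M : Subfield K) (P : ℚ[X]) : Subgroup (RF K P ≃ₐ[ℚ] RF K P) :=
  (fieldIn M P).fixingSubgroup

lemma stab_fixed {M : Subfield K} {P : ℚ[X]} (x : RF K P) (h : ∀ g ∈ stab M P, g x = x) :
    ∃ m ∈ M, (x : AlgebraicClosure K) = algebraMap K (AlgebraicClosure K) m := by
  have := rf_fin (K := K) P
  have := rf_gal (K := K) P
  have h1 : x ∈ fixedField (stab M P) := by
    rw [mem_fixedField_iff]
    exact h
  rw [stab, IsGalois.fixedField_fixingSubgroup, mem_fieldIn] at h1
  obtain ⟨m, hm, hmx⟩ := h1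
  exact ⟨m, hm, hmx.symm⟩

lemma stab_fix {M : Subfield K} {P : ℚ[X]} {x : RF K P} (hx : x ∈ fieldIn M P)
    {g : RF K P ≃ₐ[ℚ] RF K P} (hg : g ∈ stab M P) : g x = x :=
  (mem_fixingSubgroup_iff _ _).1 hg x hx

/-- If the minimal polynomial of `y` over `K` has coefficients in `M`, then `g y` is a
conjugate of `y`. -/
lemma conj_of_coeff {M : Subfield K} {P m : ℚ[X]} (hP : P ≠ 0) (hmP : m ∣ P) (y : RF K P)
    (hy : aeval (y : AlgebraicClosure K) m = 0)
    (hc : ∀ i, (minpoly K (y : AlgebraicClosure K)).coeff i ∈ M) {g : RF K P ≃ₐ[ℚ] RF K P}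
    (hg : g ∈ stab M P) :
    ∃ σ : AlgebraicClosure K ≃ₐ[K] AlgebraicClosure K, σ (g y : AlgebraicClosure K) = y := by
  set L := AlgebraicClosure K with hL
  set p := minpoly K (y : L) with hp
  have hint : IsIntegral K (y : L) := Algebra.IsIntegral.isIntegral _
  have hmon : p.Monic := minpoly.monic hint
  have hirr : Irreducible p := minpoly.irreducible hint
  have hdvd : p ∣ m.map (algebraMap ℚ K) := by
    apply minpoly.dvd
    rw [aeval_map_algebraMap]
    exact hy
  have hm0 : m ≠ 0 := fun h => hP (by rwa [h, zero_dvd_iff] at hmP)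
  -- the roots are in the root field
  have hroots : ∀ r ∈ (p.map (algebraMap K L)).roots, r ∈ RF K P := by
    intro r hr
    rw [mem_roots (map_monic_ne_zero hmon), IsRoot, eval_map_algebraMap] at hr
    apply IntermediateField.subset_adjoin
    rw [mem_rootSet]
    refine ⟨hP, ?_⟩
    obtain ⟨q, rfl⟩ := hmP
    obtain ⟨s, hs⟩ := hdvd
    have h1 : aeval r m = 0 := by
      rw [← aeval_map_algebraMap K, hs, map_mul, hr, zero_mul]
    rw [map_mul, h1, zero_mul]
  let q₀ : (RF K P)[X] := ((p.map (algebraMap K L)).roots.attach.map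
    (fun r => X - C (⟨r.1, hroots r.1 r.2⟩ : RF K P))).prod
  have hq₀ : q₀.map (RF K P).val.toRingHom = p.map (algebraMap K L) := by
    conv_rhs => rw [(IsAlgClosed.splits (p.map (algebraMap K L))).eq_prod_roots_of_monic
      (hmon.map _)]
    simp only [q₀]
    rw [Polynomial.map_multiset_prod, Multiset.map_map]
    congr 1
    conv_rhs => rw [← Multiset.attach_map_val (p.map (algebraMap K L)).roots, Multiset.map_map]
    refine Multiset.map_congr rfl fun r _ => ?_
    simp
  have hcoeff : ∀ i, ((q₀.coeff i : RF K P) : L) = algebraMap K L (p.coeff i) := by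
    intro i
    have h1 := congrArg (fun q : L[X] => q.coeff i) hq₀
    simp only [coeff_map] at h1
    exact h1
  have hfix : q₀.map (g : RF K P →ₐ[ℚ] RF K P).toRingHom = q₀ := by
    ext i
    rw [coeff_map]
    congr 1
    exact stab_fix (mem_fieldIn.2 ⟨_, hc i, (hcoeff i).symm⟩) hg
  have hy0 : eval y q₀ = 0 := by
    have h1 : (RF K P).val.toRingHom (eval y q₀) = 0 := by
      rw [← eval_map_apply, hq₀]
      change eval (y : L) (p.map (algebraMap K L)) = 0
      rw [eval_map_algebraMap]
      exact minpoly.aeval K (y : L)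
    exact (map_eq_zero _).1 h1
  have hgy : eval (g y) q₀ = 0 := by
    have h1 := congrArg (g : RF K P →ₐ[ℚ] RF K P).toRingHom hy0
    rw [← eval_map_apply, hfix, map_zero] at h1
    exact h1
  have hgy2 : aeval (g y : L) p = 0 := by
    have h1 := congrArg (RF K P).val.toRingHom hgy
    rw [← eval_map_apply, hq₀, map_zero] at h1
    rw [← eval_map_algebraMap]
    exact h1
  have h2 : p = minpoly K (g y : L) := minpoly.eq_of_irreducible_of_monic hirr hgy2 hmon
  have h3 : IsConjRoot K (y : L) (g y : L) := h2
  exact isConjRoot_iff_exists_algEquiv.1 h3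

/-- **Conjugates.** -/
lemma conj_of_factors {M : Subfield K} {P m h : ℚ[X]} (hP : P ≠ 0) (hmP : m ∣ P)
    (hfac : ∀ p : K[X], p.Monic → Irreducible p → p ∣ m.map (algebraMap ℚ K) →
      p ∣ p.comp (h.map (algebraMap ℚ K)) ∨ ∀ i, p.coeff i ∈ M) (y : RF K P)
    (hy : aeval (y : AlgebraicClosure K) m = 0) {g : RF K P ≃ₐ[ℚ] RF K P} (hg : g ∈ stab M P) :
    (∃ σ : AlgebraicClosure K ≃ₐ[K] AlgebraicClosure K, σ (g y : AlgebraicClosure K) = y) ∨
      ((∃ σ : AlgebraicClosure K ≃ₐ[K] AlgebraicClosure K,
          σ (aeval (y : AlgebraicClosure K) h) = y) ∧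
        ∃ σ : AlgebraicClosure K ≃ₐ[K] AlgebraicClosure K,
          σ (g y : AlgebraicClosure K) = aeval (g y : AlgebraicClosure K) h) := by
  have key : ∀ y : RF K P, aeval (y : AlgebraicClosure K) m = 0 →
      (∀ i, (minpoly K (y : AlgebraicClosure K)).coeff i ∈ M) ∨
      IsConjRoot K (y : AlgebraicClosure K) (aeval (y : AlgebraicClosure K) h) := by
    intro y hy
    have hint : IsIntegral K (y : AlgebraicClosure K) := Algebra.IsIntegral.isIntegral _
    have hdvd : minpoly K (y : AlgebraicClosure K) ∣ m.map (algebraMap ℚ K) := by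
      apply minpoly.dvd
      rw [aeval_map_algebraMap]
      exact hy
    rcases hfac _ (minpoly.monic hint) (minpoly.irreducible hint) hdvd with h1 | h1
    · right
      obtain ⟨s, hs⟩ := h1
      have h2 : aeval (aeval (y : AlgebraicClosure K) h) (minpoly K (y : AlgebraicClosure K)) =
          0 := by
        have h3 := congrArg (aeval (y : AlgebraicClosure K)) hs
        rw [map_mul, minpoly.aeval, zero_mul, aeval_comp, aeval_map_algebraMap] at h3
        exact h3
      exact minpoly.eq_of_irreducible_of_monic (minpoly.irreducible hint) h2 (minpoly.monic hint)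
    · exact Or.inl h1
  have hgy : aeval (g y : AlgebraicClosure K) m = 0 := by
    have h1 : aeval y m = 0 := by
      have h2 : ((aeval y m : RF K P) : AlgebraicClosure K) = 0 := by
        rw [← hy]
        exact (aeval_algHom_apply (RF K P).val y m).symm
      exact_mod_cast h2
    have h3 : aeval (g y) m = 0 := by
      rw [aeval_algHom_apply, h1, map_zero]
    have h4 := aeval_algHom_apply (RF K P).val (g y) m
    rw [h3, map_zero] at h4
    exact h4
  rcases key y hy with h1 | h1
  · exact Or.inl (conj_of_coeff hP hmP y hy h1 hg)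
  · rcases key (g y) hgy with h2 | h2
    · left
      obtain ⟨σ, hσ⟩ := conj_of_coeff hP hmP (g y) hgy h2 (Subgroup.inv_mem _ hg)
      refine ⟨σ.symm, ?_⟩
      have h3 : g⁻¹ (g y) = y := by
        change (g⁻¹ * g) y = y
        rw [inv_mul_cancel]
        rfl
      rw [h3] at hσ
      rw [← hσ, AlgEquiv.symm_apply_apply]
    · right
      exact ⟨isConjRoot_iff_exists_algEquiv.1 h1, isConjRoot_iff_exists_algEquiv.1 h2.symm⟩

end Pool.Agent.Y146.KP
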