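import Pool.Agent.Y146.KP.Fld

/-!
# The Lagrange polynomials of the eigenvalues
-/

open Finset Polynomial IntermediateField

set_option linter.unusedSectionVars false

namespace Pool.Agent.Y146.KP

section

variable {L₀ : Type*} [Field L₀] [CharZero L₀]

open Classical in
/-- The roots in `L₀` of a rational polynomial. -/
noncomputable def rts (L₀ : Type*) [Field L₀] [CharZero L₀] (m : ℚ[X]) : Finset L₀ :=
  (m.map (algebraMap ℚ L₀)).roots.toFinset

lemma mem_rts {m : ℚ[X]} (hm : m ≠ 0) {x : L₀} : x ∈ rts L₀ m ↔ aeval x m = 0 := by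
  classical
  rw [rts, Multiset.mem_toFinset, mem_roots (by
    rwa [Ne, Polynomial.map_eq_zero]), IsRoot, eval_map_algebraMap]

open Classical in
/-- The Lagrange polynomials. -/
noncomputable def lag (R : Finset L₀) (α : L₀) : L₀[X] := Lagrange.basis R id α

lemma lag_map {R : Finset L₀} (ψ : L₀ →+* L₀) (hψ : ∀ x ∈ R, ψ x ∈ R) (α : L₀) :
    (lag R α).map ψ = lag R (ψ α) := by
  classical
  have himg : R.image ψ = R := by
    refine Finset.eq_of_subset_of_card_le ?_ ?_
    · intro x hx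
      obtain ⟨y, hy, rfl⟩ := Finset.mem_image.1 hx
      exact hψ y hy
    · rw [Finset.card_image_of_injective _ ψ.injective]
  have h1 : R.erase (ψ α) = (R.erase α).image ψ := by
    rw [Finset.image_erase ψ.injective, himg]
  rw [lag, lag, Lagrange.basis, Lagrange.basis, h1, Finset.prod_image
    (fun x _ y _ hxy => ψ.injective hxy), Polynomial.map_prod]
  refine Finset.prod_congr rfl fun x _ => ?_
  rw [Lagrange.basisDivisor, Lagrange.basisDivisor, Polynomial.map_mul, map_C, Polynomial.map_sub,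
    map_X, map_C, map_inv₀, map_sub]
  rfl

lemma lag_ne {R : Finset L₀} {α β : L₀} (hβ : β ∈ R) (h : β ≠ α) : (lag R α).eval β = 0 := by
  classical
  exact Lagrange.eval_basis_of_ne (v := id) (Ne.symm h) hβ

lemma lag_sum {R : Finset L₀} (h : R.Nonempty) : ∑ α ∈ R, lag R α = 1 := by
  classical
  exact Lagrange.sum_basis (Set.injOn_id _) h

lemma lag_natDegree {R : Finset L₀} (α : L₀) : (lag R α).natDegree ≤ R.card := by
  classical
  rw [lag, Lagrange.basis]
  refine (natDegree_prod_le _ _).trans ?_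
  refine (Finset.sum_le_card_nsmul _ _ 1 fun x _ => ?_).trans ?_
  · rw [Lagrange.basisDivisor]
    refine (natDegree_C_mul_le _ _).trans ?_
    rw [natDegree_X_sub_C]
  · rw [smul_eq_mul, mul_one]
    exact Finset.card_le_card (Finset.erase_subset _ _)

lemma rts_card {m : ℚ[X]} : (rts L₀ m).card ≤ m.natDegree := by
  classical
  rw [rts]
  refine (Multiset.toFinset_card_le _).trans ?_
  refine (card_roots' _).trans ?_
  rw [natDegree_map]

/-- Polynomials vanishing at the roots. -/
lemma dvd_of_roots {m : ℚ[X]} (hm : Squarefree m) (hs : (m.map (algebraMap ℚ L₀)).Splits)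
    {p : L₀[X]} (hp : ∀ x ∈ rts L₀ m, p.eval x = 0) : m.map (algebraMap ℚ L₀) ∣ p := by
  classical
  have hm0 : m ≠ 0 := hm.ne_zero
  have hsep : (m.map (algebraMap ℚ L₀)).Separable :=
    (PerfectField.separable_iff_squarefree.2 hm).map
  have hnd := nodup_roots hsep
  have h1 := hs.eq_prod_roots
  have h2 : ((m.map (algebraMap ℚ L₀)).roots.map fun x => X - C x).prod =
      ∏ x ∈ rts L₀ m, (X - C x) := by
    rw [rts, Finset.prod_eq_multiset_prod, Multiset.toFinset_val, Multiset.dedup_eq_self.2 hnd]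
  have h3 : (∏ x ∈ rts L₀ m, (X - C x)) ∣ p := by
    refine Finset.prod_dvd_of_coprime ?_ fun x hx => ?_
    · intro x _ y _ hxy
      exact isCoprime_X_sub_C_of_isUnit_sub (sub_ne_zero.2 hxy).isUnit
    · exact dvd_iff_isRoot.2 (hp x hx)
  rw [h1, h2]
  obtain ⟨q, hq⟩ := h3
  have hlc : (m.map (algebraMap ℚ L₀)).leadingCoeff ≠ 0 := by
    rw [Ne, leadingCoeff_eq_zero, Polynomial.map_eq_zero]
    exact hm0
  refine ⟨C (m.map (algebraMap ℚ L₀)).leadingCoeff⁻¹ * q, ?_⟩
  rw [hq]
  have h4 : C (m.map (algebraMap ℚ L₀)).leadingCoeff *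
      C (m.map (algebraMap ℚ L₀)).leadingCoeff⁻¹ = 1 := by
    rw [← C_mul, mul_inv_cancel₀ hlc, C_1]
  calc _ = 1 * ((∏ x ∈ rts L₀ m, (X - C x)) * q) := by rw [one_mul]
    _ = _ := by
      rw [← h4]
      ring

lemma rts_map {m : ℚ[X]} (hm : m ≠ 0) (ψ : L₀ →+* L₀) {x : L₀} (hx : x ∈ rts L₀ m) :
    ψ x ∈ rts L₀ m := by
  rw [mem_rts hm] at hx ⊢
  have h1 := congrArg ψ hx
  rw [map_zero] at h1
  rw [← h1]
  rw [aeval_def, aeval_def, hom_eval₂]
  congr 1
  exact Subsingleton.elim _ _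

end

variable {K : Type*} [Field K] [CharZero K]

lemma splits_rf {P m : ℚ[X]} (hP : P ≠ 0) (hmP : m ∣ P) :
    (m.map (algebraMap ℚ (RF K P))).Splits := by
  have h1 := rf_split (K := K) P
  have h2 := h1.splits
  exact h2.of_dvd (by rwa [Ne, Polynomial.map_eq_zero]) (Polynomial.map_dvd _ hmP)

end Pool.Agent.Y146.KP
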