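import Pool.Agent.Y146.KP.Abs
import Pool.Agent.Y146.InjL.Top

/-!
# Conjecture D and injectivity for varieties generated by abelian varieties
-/

open CategoryTheory AlgebraicGeometry

universe u v w

namespace Pool.Agent.Y146.KP

open Pool.Agent.H914 Pool.Agent.H914.VarClass Pool.Agent.H914.VarClass.Obj
  Pool.Agent.H914.WeilCohomology Pool.Agent.TH125.Gal Pool.Agent.Y104.Geo Pool.Agent.W550.B
  Pool.Agent.Y146.InjL Pool.Agent.H447

variable {k : Type u} [Field k] {𝒱 : VarClass k} {ops : CycleOps 𝒱}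
  {W : WeilCohomology.{u, v} ops} {Γ : Type w} [Group Γ] {χ : Γ →* W.Kˣ}
  {G : Set (GVar W Γ)} {M : Subfield W.K}

/-- **Numerical and homological equivalence and injectivity** for the varieties generated by
abelian varieties. -/
theorem homEqNumIn_iff_injectiveOver (hG : GaloisClass χ G) {S : Set (GVar W Γ)} (hSG : S ⊆ G)
    (hS : ∀ A ∈ S, AbelianOver χ M A) {Y : 𝒱.Obj} (hY : IsGenerated W (GVar.X '' S) Y) (j : ℕ) :
    HomEqNumIn W Y j ↔ InjectiveOver W (M : Set W.K) Y j := by
  constructor
  · exact injectiveOver_of_homEqNumIn _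
  · refine homEqNumIn_of_generated hG (M := M) ?_ hY
    rintro _ ⟨A, hA, rfl⟩
    exact dec_abelian hG (hSG hA) (hS A hA)

end Pool.Agent.Y146.KP
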