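import Pool.Agent.Y104.Eng
import Pool.Agent.W550.B.Frame

/-!
# Products of varieties
-/

open CategoryTheory AlgebraicGeometry

set_option linter.unusedSectionVars false

universe u v w

namespace Pool.Agent.Y146.KP

open Pool.Agent.H914 Pool.Agent.H914.VarClass Pool.Agent.H914.VarClass.Obj
  Pool.Agent.H914.WeilCohomology Pool.Agent.W550.B Pool.Agent.Y104.Geo

variable {k : Type u} [Field k] {𝒱 : VarClass k} {ops : CycleOps 𝒱}
  {W : WeilCohomology.{u, v} ops}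

/-- The product of classes pulled back from the factors. -/
noncomputable def big {Λ : Type} {X : Λ → 𝒱.Obj} {Q : 𝒱.Obj} {n : ℕ} (e : Fin n ≃ Λ)
    (π : ∀ s, Q ⟶ X s) (y : ∀ s, W.H (X s)) : W.H Q :=
  (List.ofFn fun i => W.map (π (e i)) (y (e i))).prod

/-- The list of values on a sum of index types. -/
lemma ofFn_sum {H : Type*} [Monoid H] {Λ₁ Λ₂ : Type} {n₁ n₂ : ℕ} (e₁ : Fin n₁ ≃ Λ₁)
    (e₂ : Fin n₂ ≃ Λ₂) (a : Λ₁ ⊕ Λ₂ → H) :
    (List.ofFn fun i => a ((finSumFinEquiv.symm.trans (Equiv.sumCongr e₁ e₂)) i)).prod =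
      (List.ofFn fun i => a (Sum.inl (e₁ i))).prod *
        (List.ofFn fun i => a (Sum.inr (e₂ i))).prod := by
  rw [List.ofFn_add, List.prod_append]
  congr 2
  · congr 1
    funext i
    change a (Sum.map e₁ e₂ (finSumFinEquiv.symm (Fin.castAdd n₂ i))) = _
    rw [finSumFinEquiv_symm_apply_castAdd]
    rfl
  · congr 1
    funext i
    simp

/-- The projections of a product of two products. -/
noncomputable def prj {Λ₁ Λ₂ : Type} {X : Λ₁ ⊕ Λ₂ → 𝒱.Obj} {Q₁ Q₂ : 𝒱.Obj}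
    (π₁ : ∀ s, Q₁ ⟶ X (Sum.inl s)) (π₂ : ∀ s, Q₂ ⟶ X (Sum.inr s)) :
    ∀ s, Q₁.prod Q₂ ⟶ X s
  | Sum.inl s => fst Q₁ Q₂ ≫ π₁ s
  | Sum.inr s => snd Q₁ Q₂ ≫ π₂ s

lemma big_prod {Λ₁ Λ₂ : Type} {X : Λ₁ ⊕ Λ₂ → 𝒱.Obj} {Q₁ Q₂ : 𝒱.Obj} {n₁ n₂ : ℕ}
    (e₁ : Fin n₁ ≃ Λ₁) (e₂ : Fin n₂ ≃ Λ₂) (π₁ : ∀ s, Q₁ ⟶ X (Sum.inl s))
    (π₂ : ∀ s, Q₂ ⟶ X (Sum.inr s)) (y : ∀ s, W.H (X s)) :
    big (finSumFinEquiv.symm.trans (Equiv.sumCongr e₁ e₂)) (prj π₁ π₂) y =
      W.map (fst Q₁ Q₂) (big e₁ π₁ fun s => y (Sum.inl s)) *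
        W.map (snd Q₁ Q₂) (big e₂ π₂ fun s => y (Sum.inr s)) := by
  rw [big, ofFn_sum e₁ e₂ (fun s => W.map (prj π₁ π₂ s) (y s)), big, big, map_list_prod,
    map_list_prod, List.map_ofFn, List.map_ofFn]
  congr 2
  · congr 1
    funext i
    exact W.map_comp _ _ _
  · congr 1
    funext i
    exact W.map_comp _ _ _

/-- The data of a product of the varieties `X s`. -/
structure MPD (W : WeilCohomology.{u, v} ops) {Λ : Type} (X : Λ → 𝒱.Obj) (Q : 𝒱.Obj) where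
  /-- the number of the factors -/
  n : ℕ
  pos : 0 < n
  /-- the order of the factors -/
  e : Fin n ≃ Λ
  /-- the projections -/
  π : ∀ s, Q ⟶ X s
  tr : ∀ y : ∀ s, W.H (X s), W.tr Q (big e π y) = ∏ i, W.tr (X (e i)) (y (e i))
  op : ∀ φ : ∀ s, Module.End W.K (W.H (X s)), (∀ s, ROp W (X s) 0 (φ s)) →
    ∃ Φ : Module.End W.K (W.H Q), ROp W Q 0 Φ ∧ ∀ y : ∀ s, W.H (X s),
      Φ (big e π y) = big e π fun s => φ s (y s)

/-- One factor. -/
noncomputable def MPD.one (X : Unit → 𝒱.Obj) : MPD W X (X ()) where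
  n := 1
  pos := one_pos
  e := Equiv.ofUnique _ _
  π := fun s => 𝟙 (X ())
  tr := by
    intro y
    rw [big, List.ofFn_succ, List.ofFn_zero, List.prod_cons, List.prod_nil, mul_one,
      Fin.prod_univ_one]
    change W.tr (X ()) (W.map (𝟙 (X ())) (y ())) = _
    rw [W.map_id]
  op := by
    intro φ hφ
    refine ⟨φ (), hφ (), fun y => ?_⟩
    rw [big, big, List.ofFn_succ, List.ofFn_zero, List.prod_cons, List.prod_nil, mul_one,
      List.ofFn_succ, List.ofFn_zero, List.prod_cons, List.prod_nil, mul_one]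
    change φ () (W.map (𝟙 (X ())) (y ())) = W.map (𝟙 (X ())) (φ () (y ()))
    rw [W.map_id, W.map_id]

/-- The product of two products. -/
noncomputable def MPD.prod {Λ₁ Λ₂ : Type} {X : Λ₁ ⊕ Λ₂ → 𝒱.Obj} {Q₁ Q₂ : 𝒱.Obj}
    (h₁ : MPD W (fun s => X (Sum.inl s)) Q₁) (h₂ : MPD W (fun s => X (Sum.inr s)) Q₂) :
    MPD W X (Q₁.prod Q₂) where
  n := h₁.n + h₂.n
  pos := Nat.add_pos_left h₁.pos _
  e := finSumFinEquiv.symm.trans (Equiv.sumCongr h₁.e h₂.e)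
  π := prj h₁.π h₂.π
  tr := by
    intro y
    rw [big_prod, W.tr_prod, h₁.tr, h₂.tr, Fin.prod_univ_add]
    congr 1
    · refine Finset.prod_congr rfl fun i _ => ?_
      have h1 : (finSumFinEquiv.symm.trans (Equiv.sumCongr h₁.e h₂.e)) (Fin.castAdd h₂.n i) =
          Sum.inl (h₁.e i) := by simp
      rw [h1]
    · refine Finset.prod_congr rfl fun i _ => ?_
      have h1 : (finSumFinEquiv.symm.trans (Equiv.sumCongr h₁.e h₂.e)) (Fin.natAdd h₁.n i) =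
          Sum.inr (h₂.e i) := by simp
      rw [h1]
  op := by
    intro φ hφ
    obtain ⟨Φ₁, h1, h2⟩ := h₁.op (fun s => φ (Sum.inl s)) fun s => hφ _
    obtain ⟨Φ₂, h3, h4⟩ := h₂.op (fun s => φ (Sum.inr s)) fun s => hφ _
    refine ⟨extOp W Φ₁ Φ₂, rop_ext h1 h3, fun y => ?_⟩
    rw [big_prod, big_prod, extOp_tmul, h2, h4]

namespace MPD

variable {Λ : Type} {X : Λ → 𝒱.Obj} {Q : 𝒱.Obj} (D : MPD W X Q)

/-- The product of classes, indexed by the positions. -/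
noncomputable def bigF (y : ∀ i, W.H (X (D.e i))) : W.H Q :=
  (List.ofFn fun i => W.map (D.π (D.e i)) (y i)).prod

lemma exists_family {H : Λ → Type*} (y' : ∀ i, H (D.e i)) :
    ∃ y : ∀ s, H s, ∀ i, y (D.e i) = y' i :=
  ⟨Equiv.piCongrLeft H D.e y', fun i => Equiv.piCongrLeft_apply_apply H D.e y' i⟩

lemma bigF_eq {y : ∀ s, W.H (X s)} {y' : ∀ i, W.H (X (D.e i))} (h : ∀ i, y (D.e i) = y' i) :
    D.bigF y' = big D.e D.π y := by
  rw [bigF, big]
  congr 2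
  funext i
  rw [h]

lemma trF (y' : ∀ i, W.H (X (D.e i))) : W.tr Q (D.bigF y') = ∏ i, W.tr (X (D.e i)) (y' i) := by
  obtain ⟨y, hy⟩ := D.exists_family (H := fun s => W.H (X s)) y'
  rw [D.bigF_eq hy, D.tr]
  exact Finset.prod_congr rfl fun i _ => by rw [hy]

lemma opF (φ' : ∀ i, Module.End W.K (W.H (X (D.e i)))) (h : ∀ i, ROp W (X (D.e i)) 0 (φ' i)) :
    ∃ Φ : Module.End W.K (W.H Q), ROp W Q 0 Φ ∧ ∀ y' : ∀ i, W.H (X (D.e i)),
      Φ (D.bigF y') = D.bigF fun i => φ' i (y' i) := by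
  obtain ⟨φ, hφ⟩ := D.exists_family (H := fun s => Module.End W.K (W.H (X s))) φ'
  obtain ⟨Φ, h1, h2⟩ := D.op φ (fun s => by
    obtain ⟨i, rfl⟩ := D.e.surjective s
    rw [hφ]
    exact h i)
  refine ⟨Φ, h1, fun y' => ?_⟩
  obtain ⟨y, hy⟩ := D.exists_family (H := fun s => W.H (X s)) y'
  rw [D.bigF_eq hy, h2]
  exact (D.bigF_eq fun i => by rw [hφ, hy]).symm

/-- Expansion of the product. -/
lemma bigF_sum {b : Fin D.n → Type} [∀ i, Fintype (b i)] [∀ i, DecidableEq (b i)]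
    (a : ∀ i, b i → W.K) (x : ∀ i, b i → W.H (X (D.e i))) :
    D.bigF (fun i => ∑ p, a i p • x i p) =
      ∑ J : ∀ i, b i, (∏ i, a i (J i)) • D.bigF fun i => x i (J i) := by
  have h2 := (MultilinearMap.mkPiAlgebraFin W.K D.n (W.H Q)).map_sum
    (fun (i : Fin D.n) (p : b i) => a i p • W.map (D.π (D.e i)) (x i p))
  simp only [MultilinearMap.mkPiAlgebraFin_apply] at h2
  have h3 : D.bigF (fun i => ∑ p, a i p • x i p) =
      (List.ofFn fun i => ∑ p, a i p • W.map (D.π (D.e i)) (x i p)).prod := by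
    rw [bigF]
    congr 2
    funext i
    rw [map_sum]
    exact Finset.sum_congr rfl fun p _ => map_smul _ _ _
  rw [h3, h2]
  refine Finset.sum_congr rfl fun J _ => ?_
  have h4 := (MultilinearMap.mkPiAlgebraFin W.K D.n (W.H Q)).map_smul_univ
    (fun i => a i (J i)) (fun i => W.map (D.π (D.e i)) (x i (J i)))
  simp only [MultilinearMap.mkPiAlgebraFin_apply] at h4
  exact h4

end MPD

end Pool.Agent.Y146.KP
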