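import Pool.Agent.Y146.KP.Sl
import Pool.Agent.Y146.InjL.Top

/-!
# Numerically trivial cycles with a class in a product of pieces
-/

open CategoryTheory AlgebraicGeometry Polynomial
open scoped Matrix

set_option linter.unusedSectionVars false

universe u v w

namespace Pool.Agent.Y146.KP

open Pool.Agent.H914 Pool.Agent.H914.VarClass Pool.Agent.H914.VarClass.Obj
  Pool.Agent.H914.WeilCohomology Pool.Agent.H281R3.HT Pool.Agent.TH125.Gal Pool.Agent.W550.B
  Pool.Agent.Y104.Geo Pool.Agent.Y104.Kempf Pool.Agent.Y146.InjL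

variable {k : Type u} [Field k] {𝒱 : VarClass k} {ops : CycleOps 𝒱}
  {W : WeilCohomology.{u, v} ops} {Γ : Type w} [Group Γ] {χ : Γ →* W.Kˣ} {G : Set (GVar W Γ)}

/-- The class of a numerically trivial cycle. -/
lemma IsNumTrivial.mem_rad {Y : 𝒱.Obj} {j : ℕ} (hj : j ≤ Y.dim) {z : Y.Cycles}
    (hz : IsNumTrivial ops Y j z) : W.cl Y z ∈ rad W Y := by
  rw [Pool.Agent.Y104.Geo.mem_rad]
  refine ⟨alg_mem (j := j) ⟨z, hz.1, rfl⟩, fun a ha => ?_⟩
  refine algSpan_ind (p := fun a => W.tr Y (W.cl Y z * a) = 0) ?_ ?_ ?_ ?_ ha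
  · rintro i _ ⟨c, hc, rfl⟩
    exact hz.tr_span (W := W) hj (c := (i : ℤ)) (Submodule.subset_span ⟨i, rfl, c, hc, rfl⟩)
  · rw [mul_zero, map_zero]
  · intro a b ha hb
    rw [mul_add, map_add, ha, hb, add_zero]
  · intro q a ha
    rw [mul_smul_comm, map_smul, ha, smul_zero]

/-- Rational correspondences of degree zero on a direct summand. -/
lemma rop_sandwich {Y Q : 𝒱.Obj} {a b : ℕ} (hab : a + b = Y.dim + Q.dim)
    {p : (Y.prod Q).Cycles} {q : (Q.prod Y).Cycles} (hp : (Y.prod Q).IsCyc a p)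
    (hq : (Q.prod Y).IsCyc b q) {y : Module.End W.K (W.H Q)} (hy : ROp W Q 0 y) :
    ROp W Y 0 (W.corr (W.cl _ q) ∘ₗ y ∘ₗ W.corr (W.cl _ p)) := by
  obtain ⟨z, hz, rfl⟩ := Pool.Agent.H447.exists_of_rop (p := Q.dim) (by simp) hy
  have h1 : (Y.prod Q).IsCyc a (compCyc ops p z) := compCyc_mem hp hz (by omega)
  rw [← corr_compCyc W hz, ← corr_compCyc W hq]
  exact Pool.Agent.H447.rop_corr (p := Y.dim) (by simp) (compCyc_mem h1 hq (by omega))

/-- **Numerically trivial cycles with a class in a product of pieces.** -/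
theorem engine (hG : GaloisClass χ G) {M : Subfield W.K} {Λ : Type} (D : Λ → Sl W G M)
    {Q : 𝒱.Obj} (E : MPD W (fun s => (D s).X.X) Q) {Y : 𝒱.Obj} {j : ℕ} (hj : j ≤ Y.dim)
    {p : (Y.prod Q).Cycles} {q : (Q.prod Y).Cycles} (hpq : AreOpposite p q) {z : Y.Cycles}
    (hz : IsNumTrivial ops Y j z)
    (hp : cycMap W p (W.cl Y z) ∈ Submodule.span W.K
      (Set.range fun J : ∀ s, (D s).P.J => big E.e E.π fun s => (D s).P.x (J s)))
    (hI : InjectiveOver W (M : Set W.K) Y j) :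
    cycMap W q (cycMap W p (W.cl Y z)) = 0 := by
  classical
  obtain ⟨a, b, hab, hpa, hqb⟩ := hpq
  -- the pieces, indexed by the positions
  let D' : Fin E.n → Sl W G M := fun i => D (E.e i)
  let P' : ∀ i, Piece W (D' i).X.X := fun i => (D' i).P
  -- the coordinates
  have hp' : cycMap W p (W.cl Y z) ∈ Submodule.span W.K
      (Set.range fun J : ∀ i, (P' i).J => E.bigF fun i => (P' i).x (J i)) := by
    refine Submodule.span_mono ?_ hp
    rintro _ ⟨J, rfl⟩
    refine ⟨fun i => J (E.e i), ?_⟩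
    exact E.bigF_eq (y := fun s => (D s).P.x (J s)) fun i => rfl
  obtain ⟨ζ, hζ⟩ := (Submodule.mem_span_range_iff_exists_fun W.K).1 hp'
  -- the tensor
  obtain ⟨ε, hε1, hε⟩ := E.tr_three (W := W) fun i => (P' i).e
  set Θ : W.H Q := E.bigF fun i => (P' i).θ with hΘ
  have hΘa : Θ ∈ algSpan W Q := ofFn_algSpan _ fun i => algSpan_map _ (P' i).θ_mem
  have hrad : cycMap W p (W.cl Y z) ∈ rad W Q := by
    have h1 := rad_map (fst Y Q) (IsNumTrivial.mem_rad (W := W) hj hz)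
    have h2 : W.cl _ p ∈ algSpan W (Y.prod Q) := alg_mem (j := a) ⟨p, hpa, rfl⟩
    have h3 := rad_push (snd Y Q) (rad_mul h1 h2)
    rwa [rad_comm h1] at h3
  let T : (Fin E.n → Tx P') → W.K := fun I => W.tr Q ((ε • (cycMap W p (W.cl Y z) * Θ)) * 1 *
    (List.ofFn fun s => W.map (E.π (E.e s)) (xv P' s (I s))).prod)
  have hT : T ∈ NSet P' ∅ := ⟨Q, fun i => E.π (E.e i), _,
    Submodule.smul_mem _ ε (rad_mul hrad hΘa), 0, 1, Mult.one, rfl⟩
  have hTζ : ∀ I : ∀ i, (P' i).J, T (fun i => ⟨i, I i⟩) =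
      ∑ J : ∀ i, (P' i).J, ζ J * ∏ i, (P' i).Q (J i) (I i) := by
    intro I
    have h1 : T (fun i => ⟨i, I i⟩) = ε * ∑ J : ∀ i, (P' i).J, ζ J *
        W.tr Q (E.bigF (fun i => (P' i).x (J i)) * Θ * E.bigF fun i => (P' i).x (I i)) := by
      simp only [T, xv_self]
      rw [mul_one, smul_mul_assoc, map_smul, smul_eq_mul, ← hζ, Finset.sum_mul, Finset.sum_mul,
        map_sum]
      congr 1
      refine Finset.sum_congr rfl fun J _ => ?_
      rw [smul_mul_assoc, smul_mul_assoc, map_smul, smul_eq_mul]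
      rfl
    rw [h1, Finset.mul_sum]
    refine Finset.sum_congr rfl fun J _ => ?_
    rw [hΘ, hε _ _ _ (fun i => (P' i).x_mem _) (fun i => algSpan_hpar (P' i).θ_mem)
      (fun i => (P' i).x_mem _)]
    have h2 : ∀ i, W.tr _ ((P' i).x (J i) * (P' i).x (I i) * (P' i).θ) =
        (P' i).Q (J i) (I i) := fun i => ((P' i).Q_eq _ _).symm
    rw [Finset.prod_congr rfl fun i _ => h2 i]
    linear_combination (ζ J * ∏ i, (P' i).Q (J i) (I i)) * hε1
  -- the root field
  let P₀ : ℚ[X] := ∏ i, (D' i).m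
  have hP₀ : P₀ ≠ 0 := Finset.prod_ne_zero_iff.2 fun i _ => (D' i).m_sq.ne_zero
  have hmP₀ : ∀ i, (D' i).m ∣ P₀ := fun i => Finset.dvd_prod_of_mem _ (Finset.mem_univ i)
  obtain ⟨τ, ψ, hτ, hψ⟩ := exists_conjugation (K := W.K) P₀
  -- the operators
  let D₀ : ℕ := (∑ i, (D' i).m.natDegree) + 1
  have hΦ : ∀ r : Fin E.n → ℕ, ∃ Φ : Module.End W.K (W.H Q), ROp W Q 0 Φ ∧
      ∀ y' : ∀ i, W.H (D' i).X.X, Φ (E.bigF y') = E.bigF fun i => ((D' i).f ^ (r i)) (y' i) :=
    fun r => E.opF (fun i => (D' i).f ^ (r i)) fun i =>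
      rop_opAlg.cast (rop_opAlg.pow (D' i).f_op (r i)) (by ring)
  choose Φ hΦ1 hΦ2 using hΦ
  choose zc hzc hcl using fun r : Fin E.n → ℕ => hz.image (W := W) hj
    (rop_sandwich hab hpa hqb (hΦ1 r))
  have hcl' : ∀ r : Fin E.n → ℕ, W.cl Y (zc r) = cycMap W q (Φ r (cycMap W p (W.cl Y z))) :=
    fun r => hcl r
  -- the main algebraic result
  have hgm : ∀ γ : Γ, ∃ g : ∀ s, Matrix (P' s).J (P' s).J W.K,
      ∀ s q, (D' s).X.act γ ((P' s).x q) = ∑ p, g s p q • (P' s).x p := by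
    intro γ
    choose g hg using fun s => exists_gmat' (D' s).stable γ
    exact ⟨g, hg⟩
  have hmain := main_alg (K := W.K) (S := Fin E.n) (b := fun i => (P' i).J)
    (Q := fun i => (P' i).Q) (ε := fun i => (P' i).ε) (fun i => (P' i).ε_sq)
    (fun i => (P' i).Q_symm) (fun i => (P' i).isUnit) (N := NSet P' ∅) (NSet_color P' ∅)
    (fun m z hz => NSet_null P' (by simp) (by simp) m z hz)
    (G := GSet (X := fun i => (D' i).X) P') ?_ ?_
    (fun g hg y hy => NSet_act (X := fun i => (D' i).X) P' hG (fun s => (D' s).mem) (by simp)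
      ⟨0, E.pos⟩ hg hy) (fun i => (P' i).Ealg) (fun i e he => (P' i).adj_mem he)
    (fun i => (D' i).nd) (fun e he y hy => NSet_corr P' e (fun s => he s s) hy)
    (F := fun i => (D' i).F) ?_ (m := fun i => (D' i).m) (h := fun i => (D' i).h)
    (fun i => (D' i).m_sq) (fun i => (D' i).m_eq) (fun i => (D' i).adj) hP₀ hmP₀
    (M := M) (fun i => (D' i).fac) τ hτ
    (fun i x hx => conjugation_eq (D' i).m_sq.ne_zero hψ (D' i).cnj hx) ζ hT hTζ
    (H := W.H Y) (D := D₀) (Nat.succ_pos _) ?_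
    (fun r => W.cl Y (zc fun i => (r i : ℕ)))
    (fun J => cycMap W q (E.bigF fun i => (P' i).x (J i))) ?_ ?_
  · rw [← hζ, map_sum, ← hmain]
    exact Finset.sum_congr rfl fun J _ => map_smul _ _ _
  · rintro g ⟨γ, hγ⟩ s
    obtain ⟨g', hg'⟩ := hgm γ⁻¹
    exact IsUnit.of_mul_eq_one _ (gmat_inv (hγ s) (hg' s))
  · rintro g ⟨γ, hγ⟩ s
    exact gmat_form' (hG.galois _ (D' s).mem) (D' s).semi (hγ s)
  · intro s V hVG hVE
    refine (D' s).poly_mat V (fun γ g hg a ha => ?_) hVE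
    obtain ⟨g', hg'⟩ := hgm γ
    have h1 : g' s = g := mat_ext fun q => by rw [← hg' s q]; exact hg q
    rw [← h1]
    exact hVG g' ⟨γ, hg'⟩ a ha
  · intro i
    exact Nat.lt_succ_of_le (Finset.single_le_sum (f := fun i => (D' i).m.natDegree)
      (fun _ _ => Nat.zero_le _) (Finset.mem_univ i))
  · intro r
    rw [hcl', ← hζ, map_sum, map_sum]
    have h1 : ∀ (i : Fin E.n) (r : ℕ) (q : (P' i).J), ((D' i).f ^ r) ((P' i).x q) =
        ∑ p, ((D' i).F ^ r) p q • (P' i).x p := by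
      intro i r q
      have h2 := lin_pow (D' i).f_eq (Pi.single q 1) r
      rw [Finset.sum_eq_single q] at h2
      · rw [Pi.single_eq_same, one_smul] at h2
        refine h2.trans ?_
        refine Finset.sum_congr rfl fun p _ => ?_
        rw [Matrix.mulVec_single_one]
        rfl
      · intro p _ hp
        rw [Pi.single_eq_of_ne hp, zero_smul]
      · intro h
        exact absurd (Finset.mem_univ _) h
    have h2 : ∀ J : ∀ i, (P' i).J, cycMap W q (Φ (fun i => (r i : ℕ))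
        (ζ J • E.bigF fun i => (P' i).x (J i))) = ∑ J' : ∀ i, (P' i).J,
          (ζ J * ∏ i, ((D' i).F ^ (r i : ℕ)) (J' i) (J i)) •
            cycMap W q (E.bigF fun i => (P' i).x (J' i)) := by
      intro J
      rw [map_smul, map_smul, hΦ2]
      simp only [h1]
      rw [E.bigF_sum (fun i p => ((D' i).F ^ (r i : ℕ)) p (J i)) (fun i => (P' i).x), map_sum,
        Finset.smul_sum]
      refine Finset.sum_congr rfl fun J' _ => ?_
      rw [map_smul, smul_smul]
    rw [Finset.sum_congr rfl fun J _ => h2 J, Finset.sum_comm]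
    exact Finset.sum_congr rfl fun J' _ => (Finset.sum_smul).symm
  · intro n r hr
    exact hI n (fun l => zc fun i => (r l i : ℕ)) (fun l => (hzc _).1) hr

end Pool.Agent.Y146.KP
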