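import Pool.Agent.Y146.KP.Tri
import Pool.Agent.Y146.KP.Alg
import Pool.Agent.Y146.KP.Cnj
import Pool.Agent.Y104.Pub

/-!
# Pieces with an endomorphism
-/

open CategoryTheory AlgebraicGeometry Polynomial
open scoped Matrix

set_option linter.unusedSectionVars false

universe u v w

namespace Pool.Agent.Y146.KP

open Pool.Agent.H914 Pool.Agent.H914.VarClass Pool.Agent.H914.VarClass.Obj
  Pool.Agent.H914.WeilCohomology Pool.Agent.H281R3.HT Pool.Agent.TH125.Gal Pool.Agent.W550.B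
  Pool.Agent.Y104.Geo Pool.Agent.Y104.Kempf

variable {k : Type u} [Field k] {𝒱 : VarClass k} {ops : CycleOps 𝒱}
  {W : WeilCohomology.{u, v} ops} {Γ : Type w} [Group Γ] {χ : Γ →* W.Kˣ} {G : Set (GVar W Γ)}

/-- A piece with an endomorphism `f`, such that all stable subspaces are images of polynomials in
`f`. -/
structure Sl (W : WeilCohomology.{u, v} ops) {Γ : Type w} [Group Γ] (G : Set (GVar W Γ))
    (M : Subfield W.K) where
  X : GVar W Γ
  mem : X ∈ G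
  P : Piece W X.X
  stable : ∀ γ q, X.act γ (P.x q) ∈ Submodule.span W.K (Set.range P.x)
  semi : ∀ γ, ∃ a : W.K, a ≠ 0 ∧ X.act γ P.θ = a • P.θ
  f : Module.End W.K (W.H X.X)
  f_op : ROp W X.X 0 f
  F : Matrix P.J P.J W.K
  f_eq : ∀ q, f (P.x q) = ∑ p, F p q • P.x p
  m : ℚ[X]
  h : ℚ[X]
  m_sq : Squarefree m
  m_eq : aeval F m = 0
  adj : Fᵀ * P.Q = P.Q * aeval F h
  cnj : ∀ x : ℂ, aeval x m = 0 → aeval x h = starRingEnd ℂ x
  nd : ∀ x ∈ P.Ealg, (∀ y ∈ P.Ealg, (x * y).trace = 0) → x = 0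
  poly : ∀ U ≤ Submodule.span W.K (Set.range P.x), (∀ γ, ∀ u ∈ U, X.act γ u ∈ U) →
    (∀ c ∈ algSpan W (X.X.prod X.X), (∀ u ∈ Submodule.span W.K (Set.range P.x),
      W.corr c u ∈ Submodule.span W.K (Set.range P.x)) → ∀ u ∈ U, W.corr c u ∈ U) →
    ∃ p : W.K[X], (∀ u ∈ U, aeval f p u = u) ∧
      ∀ u ∈ Submodule.span W.K (Set.range P.x), aeval f p u ∈ U
  fac : ∀ p : W.K[X], p.Monic → Irreducible p → p ∣ m.map (algebraMap ℚ W.K) →
    p ∣ p.comp (h.map (algebraMap ℚ W.K)) ∨ ∀ i, p.coeff i ∈ M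

section

variable {X : GVar W Γ} {P : Piece W X.X}

theorem exists_gmat' (hP : ∀ γ q, X.act γ (P.x q) ∈ Submodule.span W.K (Set.range P.x)) (γ : Γ) :
    ∃ g : Matrix P.J P.J W.K, ∀ q, X.act γ (P.x q) = ∑ p, g p q • P.x p := by
  choose a ha using fun q => exists_coef (hP γ q)
  exact ⟨fun p q => a q p, ha⟩

theorem gmat_form' (hX : IsGaloisVar χ X)
    (hP : ∀ γ, ∃ a : W.K, a ≠ 0 ∧ X.act γ P.θ = a • P.θ) {γ : Γ} {g : Matrix P.J P.J W.K}
    (hg : ∀ q, X.act γ (P.x q) = ∑ p, g p q • P.x p) :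
    ∃ a : W.K, a ≠ 0 ∧ gᵀ * P.Q * g = a • P.Q := by
  obtain ⟨a, ha, h1⟩ := hP γ
  refine ⟨a⁻¹ * (χ γ : W.K) ^ X.X.dim, mul_ne_zero (inv_ne_zero ha)
    (pow_ne_zero _ (Units.ne_zero _)), ?_⟩
  ext p q
  have h2 : W.tr X.X (X.act γ (P.x p) * X.act γ (P.x q) * P.θ) = (gᵀ * P.Q * g) p q := by
    rw [hg p, hg q, Matrix.mul_assoc, Matrix.mul_apply, Finset.sum_mul, Finset.sum_mul, map_sum]
    refine Finset.sum_congr rfl fun r _ => ?_
    rw [smul_mul_assoc, smul_mul_assoc, map_smul, P.pair_sum, smul_eq_mul,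
      Matrix.transpose_apply]
    rfl
  have h3 : W.tr X.X (X.act γ (P.x p) * X.act γ (P.x q) * (a • P.θ)) =
      (χ γ : W.K) ^ X.X.dim * P.Q p q := by
    rw [← h1, ← map_mul, ← map_mul, hX.tr_act, P.Q_eq]
  rw [mul_smul_comm, map_smul, h2, smul_eq_mul] at h3
  rw [Matrix.smul_apply, smul_eq_mul, mul_assoc a⁻¹, ← h3, inv_mul_cancel_left₀ ha]

/-- Powers. -/
theorem lin_pow {φ : Module.End W.K (W.H X.X)} {e : Matrix P.J P.J W.K}
    (h : ∀ q, φ (P.x q) = ∑ p, e p q • P.x p) (a : P.J → W.K) (r : ℕ) :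
    (φ ^ r) (∑ q, a q • P.x q) = ∑ p, ((e ^ r) *ᵥ a) p • P.x p := by
  induction r with
  | zero => simp
  | succ r ih =>
    rw [pow_succ', Module.End.mul_apply, ih]
    have h1 := lin_sum (φ := φ) h ((e ^ r) *ᵥ a)
    rw [Matrix.mulVec_mulVec, ← pow_succ'] at h1
    exact h1

/-- Polynomials. -/
theorem lin_aeval {φ : Module.End W.K (W.H X.X)} {e : Matrix P.J P.J W.K}
    (h : ∀ q, φ (P.x q) = ∑ p, e p q • P.x p) (a : P.J → W.K) (r : W.K[X]) :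
    aeval φ r (∑ q, a q • P.x q) = ∑ p, ((aeval e r) *ᵥ a) p • P.x p := by
  induction r using Polynomial.induction_on' with
  | add r s hr hs =>
    rw [map_add, map_add, LinearMap.add_apply, hr, hs, Matrix.add_mulVec,
      ← Finset.sum_add_distrib]
    exact Finset.sum_congr rfl fun p _ => (add_smul _ _ _).symm
  | monomial r c =>
    rw [aeval_monomial, aeval_monomial, ← Algebra.smul_def, ← Algebra.smul_def,
      LinearMap.smul_apply, lin_pow h, Matrix.smul_mulVec, Finset.smul_sum]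
    exact Finset.sum_congr rfl fun p _ => by rw [smul_smul]; rfl

end

/-- Stable subspaces of the coordinates. -/
theorem poly_mat' {X : GVar W Γ} {P : Piece W X.X}
    (hP : ∀ γ q, X.act γ (P.x q) ∈ Submodule.span W.K (Set.range P.x))
    {f : Module.End W.K (W.H X.X)} {F : Matrix P.J P.J W.K}
    (hf : ∀ q, f (P.x q) = ∑ p, F p q • P.x p)
    (hpoly : ∀ U ≤ Submodule.span W.K (Set.range P.x), (∀ γ, ∀ u ∈ U, X.act γ u ∈ U) →
    (∀ c ∈ algSpan W (X.X.prod X.X), (∀ u ∈ Submodule.span W.K (Set.range P.x),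
      W.corr c u ∈ Submodule.span W.K (Set.range P.x)) → ∀ u ∈ U, W.corr c u ∈ U) →
    ∃ p : W.K[X], (∀ u ∈ U, aeval f p u = u) ∧
      ∀ u ∈ Submodule.span W.K (Set.range P.x), aeval f p u ∈ U)
    (V : Submodule W.K (P.J → W.K))
    (hVG : ∀ (γ : Γ) (g : Matrix P.J P.J W.K),
      (∀ q, X.act γ (P.x q) = ∑ p, g p q • P.x p) → ∀ a ∈ V, g *ᵥ a ∈ V)
    (hVE : ∀ e ∈ P.Ealg, ∀ a ∈ V, e *ᵥ a ∈ V) :
    ∃ p : W.K[X], (∀ x ∈ V, (aeval F p) *ᵥ x = x) ∧ ∀ x, (aeval F p) *ᵥ x ∈ V := by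
  let V' : Submodule W.K (W.H X.X) := V.map (Fintype.linearCombination W.K P.x)
  have hlc : ∀ a : P.J → W.K, Fintype.linearCombination W.K P.x a =
      ∑ p, a p • P.x p := fun a => Fintype.linearCombination_apply _ _ _
  obtain ⟨p, hp1, hp2⟩ := hpoly V' (by
    rintro _ ⟨a, _, rfl⟩
    rw [hlc]
    exact sum_mem_span a) (by
    rintro γ _ ⟨a, ha, rfl⟩
    obtain ⟨g, hg⟩ := exists_gmat' hP γ
    refine ⟨g *ᵥ a, hVG γ g hg a ha, ?_⟩
    rw [hlc, hlc]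
    exact (lin_sum (φ := (X.act γ).toLinearMap) hg a).symm) (by
    rintro c hc hcs _ ⟨a, ha, rfl⟩
    choose e he using fun q => exists_coef (P := P) (hcs _
      (Submodule.subset_span ⟨q, rfl⟩))
    refine ⟨(fun p q => e q p : Matrix P.J P.J W.K) *ᵥ a, hVE _ ⟨c, hc, he⟩ a ha, ?_⟩
    rw [hlc, hlc]
    exact (lin_sum (φ := W.corr c) he a).symm)
  refine ⟨p, fun x hx => ?_, fun x => ?_⟩
  · have h1 := hp1 _ ⟨x, hx, hlc x⟩
    rw [lin_aeval hf] at h1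
    exact P.sum_inj h1
  · obtain ⟨a, ha, h1⟩ := hp2 _ (sum_mem_span x)
    rw [lin_aeval hf, hlc] at h1
    rw [← P.sum_inj h1]
    exact ha

namespace Sl

variable {M : Subfield W.K}

/-- Stable subspaces of the coordinates. -/
theorem poly_mat (D : Sl W G M) (V : Submodule W.K (D.P.J → W.K))
    (hVG : ∀ (γ : Γ) (g : Matrix D.P.J D.P.J W.K),
      (∀ q, D.X.act γ (D.P.x q) = ∑ p, g p q • D.P.x p) → ∀ a ∈ V, g *ᵥ a ∈ V)
    (hVE : ∀ e ∈ D.P.Ealg, ∀ a ∈ V, e *ᵥ a ∈ V) :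
    ∃ p : W.K[X], (∀ x ∈ V, (aeval D.F p) *ᵥ x = x) ∧ ∀ x, (aeval D.F p) *ᵥ x ∈ V :=
  poly_mat' D.stable D.f_eq D.poly V hVG hVE

end Sl

end Pool.Agent.Y146.KP
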