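import Pool.Agent.Y146.KP.Mpd

/-!
# The trace of a product of three classes on a product
-/

open CategoryTheory AlgebraicGeometry

set_option linter.unusedSectionVars false

universe u v w

namespace Pool.Agent.Y146.KP

open Pool.Agent.H914 Pool.Agent.H914.VarClass Pool.Agent.H914.VarClass.Obj
  Pool.Agent.H914.WeilCohomology Pool.Agent.H281R3.HT Pool.Agent.TH125.Gal Pool.Agent.W550.B
  Pool.Agent.Y104.Geo

section Lists

variable {H : Type*} [Ring H]

/-- First all classes of the first kind, and so on. -/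
def tl1 (n : ℕ) : List (Fin n × Fin 3) :=
  (List.finRange n).map (fun i => (i, 0)) ++ ((List.finRange n).map (fun i => (i, 2)) ++
    (List.finRange n).map (fun i => (i, 1)))

/-- First the classes on the first factor, and so on. -/
def tl2 (n : ℕ) : List (Fin n × Fin 3) :=
  (List.finRange n).flatMap fun i => [(i, 0), (i, 1), (i, 2)]

theorem nodup_tl1 (n : ℕ) : (tl1 n).Nodup := by
  rw [tl1, List.nodup_append', List.nodup_append']
  refine ⟨(List.nodup_finRange n).map fun i j h => by simpa using h,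
    ⟨(List.nodup_finRange n).map fun i j h => by simpa using h,
      (List.nodup_finRange n).map fun i j h => by simpa using h, ?_⟩, ?_⟩
  · rw [List.disjoint_left]
    intro x hx hx'
    simp only [List.mem_map, List.mem_finRange, true_and] at hx hx'
    obtain ⟨i, rfl⟩ := hx
    obtain ⟨j, h⟩ := hx'
    simp at h
  · rw [List.disjoint_left]
    intro x hx hx'
    simp only [List.mem_append, List.mem_map, List.mem_finRange, true_and] at hx hx'
    obtain ⟨i, rfl⟩ := hx
    rcases hx' with ⟨j, h⟩ | ⟨j, h⟩ <;> simp at h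

theorem nodup_tl2 (n : ℕ) : (tl2 n).Nodup := by
  rw [tl2, List.nodup_flatMap]
  refine ⟨fun l _ => by simp, ?_⟩
  refine (List.nodup_finRange n).pairwise_of_forall_ne fun i _ j _ hij => ?_
  rw [Function.onFun, List.disjoint_left]
  intro x hx hx'
  simp only [List.mem_cons, List.not_mem_nil, or_false] at hx hx'
  rcases hx with rfl | rfl | rfl <;> simp [hij] at hx'

theorem tl_perm (n : ℕ) : (tl1 n).Perm (tl2 n) := by
  rw [List.perm_ext_iff_of_nodup (nodup_tl1 n) (nodup_tl2 n)]
  rintro ⟨i, j⟩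
  have h1 : (i, j) ∈ tl1 n := by
    simp only [tl1, List.mem_append, List.mem_map, List.mem_finRange, true_and, Prod.mk.injEq]
    fin_cases j
    · left; exact ⟨i, rfl, rfl⟩
    · right; right; exact ⟨i, rfl, rfl⟩
    · right; left; exact ⟨i, rfl, rfl⟩
  have h2 : (i, j) ∈ tl2 n := by
    simp only [tl2, List.mem_flatMap, List.mem_finRange, true_and, List.mem_cons,
      List.not_mem_nil, or_false, Prod.mk.injEq]
    refine ⟨i, ?_⟩
    fin_cases j
    · left; exact ⟨rfl, rfl⟩
    · right; left; exact ⟨rfl, rfl⟩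
    · right; right; exact ⟨rfl, rfl⟩
  exact ⟨fun _ => h2, fun _ => h1⟩

theorem prod_tl1 (n : ℕ) (f : Fin n × Fin 3 → H) :
    ((tl1 n).map f).prod = (List.ofFn fun i => f (i, 0)).prod *
      (List.ofFn fun i => f (i, 2)).prod * (List.ofFn fun i => f (i, 1)).prod := by
  rw [tl1, List.map_append, List.map_append, List.prod_append, List.prod_append, List.map_map,
    List.map_map, List.map_map, List.ofFn_eq_map, List.ofFn_eq_map, List.ofFn_eq_map, mul_assoc]
  rfl

theorem prod_tl2 (n : ℕ) (f : Fin n × Fin 3 → H) :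
    ((tl2 n).map f).prod = (List.ofFn fun i => f (i, 0) * f (i, 1) * f (i, 2)).prod := by
  rw [tl2, map_flatMap_prod, List.ofFn_eq_map]
  congr 2
  funext i
  simp [mul_assoc]

end Lists

variable {k : Type u} [Field k] {𝒱 : VarClass k} {ops : CycleOps 𝒱}
  {W : WeilCohomology.{u, v} ops} {Λ : Type} {X : Λ → 𝒱.Obj} {Q : 𝒱.Obj} (D : MPD W X Q)

/-- **The trace of a product of three products.** -/
theorem MPD.tr_three (e : Fin D.n → ℕ) : ∃ ε : W.K, ε * ε = 1 ∧
    ∀ a θ c : ∀ i, W.H (X (D.e i)), (∀ i, a i ∈ hpar W _ (e i)) → (∀ i, θ i ∈ hpar W _ 0) →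
      (∀ i, c i ∈ hpar W _ (e i)) →
      W.tr Q (D.bigF a * D.bigF θ * D.bigF c) = ε * ∏ i, W.tr _ (a i * c i * θ i) := by
  obtain ⟨ε, hε1, hε⟩ := perm_sign (hpar W Q) (hpar_comm (W := W) (X := Q))
    (fun x : Fin D.n × Fin 3 => if x.2 = 2 then 0 else e x.1) (tl_perm D.n)
  refine ⟨ε, hε1, fun a θ c ha hθ hc => ?_⟩
  let f : Fin D.n × Fin 3 → W.H Q := fun x =>
    W.map (D.π (D.e x.1)) (if x.2 = 0 then a x.1 else if x.2 = 1 then c x.1 else θ x.1)
  have hf : ∀ x, f x ∈ hpar W Q (if x.2 = 2 then 0 else e x.1) := by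
    rintro ⟨i, j⟩
    refine hpar_map _ ?_
    fin_cases j
    · exact ha i
    · exact hc i
    · exact hθ i
  have h1 := hε f hf
  rw [prod_tl1, prod_tl2] at h1
  have h2 : D.bigF a * D.bigF θ * D.bigF c = (List.ofFn fun i => f (i, 0)).prod *
      (List.ofFn fun i => f (i, 2)).prod * (List.ofFn fun i => f (i, 1)).prod := rfl
  have h3 : (List.ofFn fun i => f (i, 0) * f (i, 1) * f (i, 2)).prod =
      D.bigF fun i => a i * c i * θ i := by
    rw [MPD.bigF]
    congr 2
    funext i
    rw [map_mul, map_mul]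
    rfl
  rw [h2, h1, h3, map_smul, D.trF, smul_eq_mul]

end Pool.Agent.Y146.KP
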