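import Pool.Agent.Y146.KP.Wts

/-!
# The weights of the canonical filtration, on the eigenvalues
-/

open Finset Module Matrix Polynomial

set_option linter.unusedSectionVars false

namespace Pool.Agent.Y146.KP

open Pool.Agent.Y104.Kempf

universe u

variable {ι : Type} [Fintype ι] [DecidableEq ι] {b : ι → Type} [∀ i, Fintype (b i)]
  [∀ i, DecidableEq (b i)] {S : Type} [Fintype S] [DecidableEq S] {c : S → ι}
  {K : Type u} [Field K] [CharZero K]

variable {Q : ∀ j, Matrix (b j) (b j) K} {N : Set ((S → Σ j, b j) → K)}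
  {G : Set (∀ j, Matrix (b j) (b j) K)} {E : ∀ j, Subalgebra K (Matrix (b j) (b j) K)}
  {w : ∀ j, (b j → AlgebraicClosure K) → ℝ} {t : ℝ} {f : ∀ j, Matrix (b j) (b j) K}

/-- `y` is an eigenvector of `f` with the eigenvalue `α`. -/
def Eig {n : Type} [Fintype n] (f : Matrix n n K) (α : AlgebraicClosure K)
    (y : n → AlgebraicClosure K) : Prop :=
  f.map (algebraMap K (AlgebraicClosure K)) *ᵥ y = α • y

lemma IsCanonical.const (h : IsCanonical Q N G E c w t) (hf : StablePoly f G E) {j : ι}
    {α : AlgebraicClosure K} {y y' : b j → AlgebraicClosure K} (hy : y ≠ 0) (hy' : y' ≠ 0)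
    (hα : Eig (f j) α y) (hα' : Eig (f j) α y') : w j y = w j y' := by
  have key : ∀ {y y' : b j → AlgebraicClosure K}, y ≠ 0 → y' ≠ 0 → Eig (f j) α y →
      Eig (f j) α y' → w j y ≤ w j y' := by
    intro y y' hy hy' hα hα'
    by_contra hlt
    push Not at hlt
    obtain ⟨p, hp1, hp2⟩ := h.poly hf j (w j y')
    have h1 := hp1 y (Or.inr hlt)
    rw [aeval_eigen hα] at h1
    have h2 : aeval α p = 1 := by
      by_contra hne
      apply hy
      have h3 : (aeval α p - 1) • y = 0 := by rw [sub_smul, h1, one_smul, sub_self]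
      exact (smul_eq_zero.1 h3).resolve_left (sub_ne_zero.2 hne)
    have h3 := hp2 y'
    rw [aeval_eigen hα', h2, one_smul, IsNrm.mem_gt] at h3
    exact absurd (h3.resolve_left hy') (lt_irrefl _)
  exact le_antisymm (key hy hy' hα hα') (key hy' hy hα' hα)

/-- A basis of eigenvectors is adapted. -/
lemma IsCanonical.adapted (h : IsCanonical Q N G E c w t) (hf : StablePoly f G E) {j : ι}
    (e : Basis (b j) (AlgebraicClosure K) (b j → AlgebraicClosure K))
    {α : b j → AlgebraicClosure K} (he : ∀ p, Eig (f j) (α p) (e p)) : Adp (w j) e := by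
  intro x p hxp
  by_contra hlt
  push Not at hlt
  obtain ⟨P, hP1, hP2⟩ := h.poly hf j (w j (e p))
  have h1 := hP1 x (Or.inr hlt)
  have h2 : e.repr ((aeval ((f j).map (algebraMap K (AlgebraicClosure K))) P) *ᵥ x) p =
      aeval (α p) P * e.repr x p := by
    conv_lhs => rw [← e.sum_repr x]
    rw [Matrix.mulVec_sum, map_sum, Finsupp.finsetSum_apply]
    rw [Finset.sum_eq_single p]
    · rw [Matrix.mulVec_smul, aeval_eigen (he p), map_smul, map_smul, Finsupp.smul_apply,
        Finsupp.smul_apply, e.repr_self, Finsupp.single_eq_same, smul_eq_mul, smul_eq_mul, mul_one,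
        mul_comm]
    · intro q _ hq
      rw [Matrix.mulVec_smul, aeval_eigen (he q), map_smul, map_smul, Finsupp.smul_apply,
        Finsupp.smul_apply, e.repr_self, Finsupp.single_eq_of_ne (Ne.symm hq), smul_zero, smul_zero]
    · intro hp
      exact absurd (mem_univ p) hp
  rw [h1] at h2
  have h3 : aeval (α p) P = 1 := by
    have h4 : (aeval (α p) P - 1) * e.repr x p = 0 := by rw [sub_mul, ← h2, one_mul, sub_self]
    exact sub_eq_zero.1 ((mul_eq_zero.1 h4).resolve_right hxp)
  have h4 := hP2 (e p)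
  rw [aeval_eigen (he p), h3, one_smul, IsNrm.mem_gt] at h4
  exact absurd (h4.resolve_left (e.ne_zero p)) (lt_irrefl _)

section weights

variable {L₀ : Type*} [Field L₀] (φ : L₀ →+* AlgebraicClosure K)

open Classical in
/-- The weight of the eigenvalue `x`, and `0` if `x` is not an eigenvalue. -/
noncomputable def wt (w : ∀ j, (b j → AlgebraicClosure K) → ℝ)
    (f : ∀ j, Matrix (b j) (b j) K) (j : ι) (x : L₀) : ℝ :=
  if h : ∃ y : b j → AlgebraicClosure K, y ≠ 0 ∧ Eig (f j) (φ x) y then w j h.choose else 0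

lemma IsCanonical.wt_eq (h : IsCanonical Q N G E c w t) (hf : StablePoly f G E) {j : ι} {x : L₀}
    {y : b j → AlgebraicClosure K} (hy : y ≠ 0) (hx : Eig (f j) (φ x) y) :
    wt φ w f j x = w j y := by
  have h1 : ∃ y : b j → AlgebraicClosure K, y ≠ 0 ∧ Eig (f j) (φ x) y := ⟨y, hy, hx⟩
  rw [wt, dif_pos h1]
  exact h.const hf h1.choose_spec.1 hy h1.choose_spec.2 hx

lemma IsCanonical.wt_gal (h : IsCanonical Q N G E c w t) (hf : StablePoly f G E) (j : ι)
    {x x' : L₀} (σ : AlgebraicClosure K ≃ₐ[K] AlgebraicClosure K) (hσ : σ (φ x) = φ x') :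
    wt φ w f j x = wt φ w f j x' := by
  have key : ∀ (σ : AlgebraicClosure K ≃ₐ[K] AlgebraicClosure K) {x x' : L₀},
      σ (φ x) = φ x' → ∀ y : b j → AlgebraicClosure K, y ≠ 0 → Eig (f j) (φ x) y →
      (fun p => σ (y p)) ≠ 0 ∧ Eig (f j) (φ x') (fun p => σ (y p)) := by
    intro σ x x' hσ y hy hx
    refine ⟨?_, ?_⟩
    · intro h0
      apply hy
      funext p
      have := congrFun h0 p
      simpa using this
    · have h1 := congrArg (fun v : b j → AlgebraicClosure K => fun p => σ (v p)) hx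
      have h2 : (fun p => σ (((f j).map (algebraMap K (AlgebraicClosure K)) *ᵥ y) p)) =
          (f j).map (algebraMap K (AlgebraicClosure K)) *ᵥ (fun p => σ (y p)) := by
        funext q
        simp only [Matrix.mulVec, dotProduct, map_sum, map_mul, Matrix.map_apply,
          AlgEquiv.commutes]
      rw [Eig, ← h2]
      beta_reduce at h1
      rw [h1]
      funext q
      simp [hσ]
  by_cases h1 : ∃ y : b j → AlgebraicClosure K, y ≠ 0 ∧ Eig (f j) (φ x) y
  · obtain ⟨y, hy, hx⟩ := h1
    obtain ⟨h2, h3⟩ := key σ hσ y hy hx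
    rw [h.wt_eq φ hf hy hx, h.wt_eq φ hf h2 h3, h.gal σ j y hy]
  · have h2 : ¬ ∃ y : b j → AlgebraicClosure K, y ≠ 0 ∧ Eig (f j) (φ x') y := by
      rintro ⟨y, hy, hx⟩
      have h3 : σ.symm (φ x') = φ x := by rw [← hσ, AlgEquiv.symm_apply_apply]
      exact h1 ⟨_, key σ.symm h3 y hy hx⟩
    rw [wt, wt, dif_neg h1, dif_neg h2]

/-- Nonorthogonal eigenvectors of a basis can be paired. -/
lemma exists_perm {n : Type} [Fintype n] [DecidableEq n] {L : Type*} [Field L]
    {M : Matrix n n L} (hM : IsUnit M) : ∃ π : Equiv.Perm n, ∀ p, M (π p) p ≠ 0 := by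
  have h1 : M.det ≠ 0 := (Matrix.isUnit_iff_isUnit_det _).1 hM |>.ne_zero
  rw [Matrix.det_apply] at h1
  obtain ⟨π, _, hπ⟩ := Finset.exists_ne_zero_of_sum_ne_zero h1
  refine ⟨π, fun p => ?_⟩
  intro h0
  apply hπ
  have h2 : ∏ i, M (π i) i = 0 := Finset.prod_eq_zero (mem_univ p) h0
  exact (congrArg (fun x => Equiv.Perm.sign π • x) h2).trans (smul_zero _)

lemma IsCanonical.wt_anti (h : IsCanonical Q N G E c w t) (hf : StablePoly f G E)
    (hQ : ∀ j, IsUnit (Q j)) {j : ι}
    (e : Basis (b j) (AlgebraicClosure K) (b j → AlgebraicClosure K))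
    {a : b j → L₀} (he : ∀ p, Eig (f j) (φ (a p)) (e p)) (τ : L₀ → L₀) (hτ : ∀ x, τ (τ x) = x)
    (horth : ∀ p q, e p ⬝ᵥ ((Q j).map (algebraMap K (AlgebraicClosure K)) *ᵥ e q) ≠ 0 →
      a p = τ (a q)) (x : L₀) :
    wt φ w f j (τ x) = - wt φ w f j x := by
  classical
  have hadp : ∀ i, ∃ e' : Basis (b i) (AlgebraicClosure K) (b i → AlgebraicClosure K),
      Adp (w i) e' := by
    intro i
    obtain ⟨e', he', _⟩ := exists_common' (by rw [finrank_fintype_fun_eq_card])
      (h.adm.1.1 i) (h.adm.1.1 i)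
    exact ⟨e', he'⟩
  choose e₁ he₁ using hadp
  let e₂ : ∀ i, Basis (b i) (AlgebraicClosure K) (b i → AlgebraicClosure K) :=
    Function.update e₁ j e
  have he₂ : ∀ i, Adp (w i) (e₂ i) := by
    intro i
    by_cases hi : i = j
    · subst hi
      simp only [e₂, Function.update_self]
      exact h.adapted hf e he
    · simp only [e₂, Function.update_of_ne hi]
      exact he₁ i
  have hsum : ∑ p, w j (e p) = 0 := by
    have h1 := (h.adm.1.any he₂).1 j
    simp only [e₂, Function.update_self] at h1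
    exact h1
  -- the pairing
  set QL := (Q j).map (algebraMap K (AlgebraicClosure K)) with hQL
  let P : Matrix (b j) (b j) (AlgebraicClosure K) := Matrix.of fun p => e p
  have hP : IsUnit P := by
    refine Matrix.linearIndependent_rows_iff_isUnit.1 ?_
    exact e.linearIndependent
  have hM : IsUnit (P * QL * Pᵀ) := by
    refine (hP.mul ((hQ j).map ((algebraMap K (AlgebraicClosure K)).mapMatrix))).mul ?_
    rw [Matrix.isUnit_iff_isUnit_det, Matrix.det_transpose]
    exact (Matrix.isUnit_iff_isUnit_det _).1 hP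
  obtain ⟨π, hπ⟩ := exists_perm hM
  have hval : ∀ p q, (P * QL * Pᵀ) p q = e p ⬝ᵥ (QL *ᵥ e q) := by
    intro p q
    rw [Matrix.mul_assoc, Matrix.mul_apply]
    rfl
  have hle : ∀ p, w j (e (π p)) + w j (e p) ≤ 0 := by
    intro p
    refine h.adm.2 j _ _ ?_
    have h1 := hπ p
    rw [hval] at h1
    exact h1
  have hsum2 : ∑ p, (w j (e (π p)) + w j (e p)) = 0 := by
    rw [Finset.sum_add_distrib, Equiv.sum_comp π (fun p => w j (e p)), hsum, add_zero]
  have hz := (Finset.sum_eq_zero_iff_of_nonpos (fun p _ => hle p)).1 hsum2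
  have hbar : ∀ p, wt φ w f j (τ (a p)) = - wt φ w f j (a p) := by
    intro p
    have h1 : a (π p) = τ (a p) := horth _ _ (by
      have h1 := hπ p
      rw [hval] at h1
      exact h1)
    rw [← h1, h.wt_eq φ hf (e.ne_zero _) (he (π p)), h.wt_eq φ hf (e.ne_zero _) (he p)]
    have h2 := hz p (mem_univ p)
    linarith
  -- eigenvalues are values of `a`
  have hocc : ∀ (x : L₀) (y : b j → AlgebraicClosure K), y ≠ 0 → Eig (f j) (φ x) y →
      ∃ p, a p = x := by
    intro x y hy hx
    have h1 : ∃ p, e.repr y p ≠ 0 := by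
      by_contra hcon
      push Not at hcon
      apply hy
      rw [← e.sum_repr y]
      exact Finset.sum_eq_zero fun p _ => by rw [hcon p, zero_smul]
    obtain ⟨p, hp⟩ := h1
    refine ⟨p, ?_⟩
    apply φ.injective
    have h2 : e.repr ((f j).map (algebraMap K (AlgebraicClosure K)) *ᵥ y) p =
        φ (a p) * e.repr y p := by
      conv_lhs => rw [← e.sum_repr y]
      rw [Matrix.mulVec_sum, map_sum, Finsupp.finsetSum_apply, Finset.sum_eq_single p]
      · have h3 : (f j).map (algebraMap K (AlgebraicClosure K)) *ᵥ e p = φ (a p) • e p := he p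
        rw [Matrix.mulVec_smul, h3, map_smul, map_smul, Finsupp.smul_apply,
          Finsupp.smul_apply, e.repr_self, Finsupp.single_eq_same, smul_eq_mul, smul_eq_mul,
          mul_one, mul_comm]
      · intro q _ hq
        have h3 : (f j).map (algebraMap K (AlgebraicClosure K)) *ᵥ e q = φ (a q) • e q := he q
        rw [Matrix.mulVec_smul, h3, map_smul, map_smul, Finsupp.smul_apply,
          Finsupp.smul_apply, e.repr_self, Finsupp.single_eq_of_ne (Ne.symm hq), smul_zero,
          smul_zero]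
      · intro hp
        exact absurd (mem_univ p) hp
    rw [hx, map_smul, Finsupp.smul_apply, smul_eq_mul] at h2
    exact (mul_right_cancel₀ hp h2).symm
  by_cases h1 : ∃ y : b j → AlgebraicClosure K, y ≠ 0 ∧ Eig (f j) (φ x) y
  · obtain ⟨y, hy, hx⟩ := h1
    obtain ⟨p, rfl⟩ := hocc x y hy hx
    exact hbar p
  · by_cases h2 : ∃ y : b j → AlgebraicClosure K, y ≠ 0 ∧ Eig (f j) (φ (τ x)) y
    · obtain ⟨y, hy, hx⟩ := h2
      obtain ⟨p, hp⟩ := hocc _ y hy hx
      have h3 := hbar p
      rw [hp, hτ] at h3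
      linarith
    · rw [wt, wt, dif_neg h1, dif_neg h2, neg_zero]

end weights

end Pool.Agent.Y146.KP
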