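import Pool.Agent.Y146.KP.Can

/-!
# The weights of the canonical filtration
-/

open Finset Module Matrix Polynomial

set_option linter.unusedSectionVars false

namespace Pool.Agent.Y146.KP

open Pool.Agent.Y104.Kempf

universe u

variable {ι : Type} [Fintype ι] [DecidableEq ι] {b : ι → Type} [∀ i, Fintype (b i)]
  [∀ i, DecidableEq (b i)] {S : Type} [Fintype S] [DecidableEq S] {c : S → ι}
  {K : Type u} [Field K]

/-- Every stable subspace is the image of a polynomial in `f`, which is a projection to it. -/
def StablePoly (f : ∀ j, Matrix (b j) (b j) K) (G : Set (∀ j, Matrix (b j) (b j) K))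
    (E : ∀ j, Subalgebra K (Matrix (b j) (b j) K)) : Prop :=
  ∀ j (W : Submodule K (b j → K)), (∀ g ∈ G, ∀ x ∈ W, g j *ᵥ x ∈ W) →
    (∀ e ∈ E j, ∀ x ∈ W, e *ᵥ x ∈ W) →
    ∃ p : K[X], (∀ x ∈ W, (aeval (f j) p) *ᵥ x = x) ∧ ∀ x, (aeval (f j) p) *ᵥ x ∈ W

section

variable {L : Type*} [Field L] [Algebra K L] {n : Type} [Fintype n] [DecidableEq n]

lemma map_mulVec' (M : Matrix n n K) (y : n → K) :
    (fun p => algebraMap K L ((M *ᵥ y) p)) =
      M.map (algebraMap K L) *ᵥ (fun p => algebraMap K L (y p)) := by
  funext p
  simp [Matrix.mulVec, dotProduct]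

lemma aeval_map' (f : Matrix n n K) (p : K[X]) :
    (aeval f p).map (algebraMap K L) = aeval (f.map (algebraMap K L)) p := by
  have h1 : (Algebra.ofId K L).mapMatrix (aeval f p) = aeval ((Algebra.ofId K L).mapMatrix f) p :=
    (Polynomial.aeval_algHom_apply _ _ _).symm
  exact h1

lemma aeval_eigen {f : Matrix n n L} {x : n → L} {α : L} (h : f *ᵥ x = α • x) (p : K[X]) :
    (aeval f p) *ᵥ x = (aeval α p) • x := by
  induction p using Polynomial.induction_on' with
  | add p q hp hq => rw [map_add, map_add, Matrix.add_mulVec, hp, hq, add_smul]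
  | monomial k a =>
    rw [aeval_monomial, aeval_monomial]
    have h1 : ∀ k, (f ^ k) *ᵥ x = α ^ k • x := by
      intro k
      induction k with
      | zero => rw [pow_zero, pow_zero, one_mulVec, one_smul]
      | succ k ih => rw [pow_succ, ← Matrix.mulVec_mulVec, h, Matrix.mulVec_smul, ih, smul_smul,
          pow_succ, mul_comm]
    rw [← Matrix.mulVec_mulVec, h1, Matrix.mulVec_smul, Matrix.algebraMap_eq_diagonal,
      Matrix.mulVec_eq_sum]
    funext i
    simp [Matrix.diagonal, mul_comm, mul_left_comm]

end

variable {Q : ∀ j, Matrix (b j) (b j) K} {N : Set ((S → Σ j, b j) → K)}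
  {G : Set (∀ j, Matrix (b j) (b j) K)} {E : ∀ j, Subalgebra K (Matrix (b j) (b j) K)}
  {w : ∀ j, (b j → AlgebraicClosure K) → ℝ} {t : ℝ} {f : ∀ j, Matrix (b j) (b j) K}

/-- The steps of the canonical filtration are images of polynomials in `f`. -/
lemma IsCanonical.poly [CharZero K] (h : IsCanonical Q N G E c w t) (hf : StablePoly f G E) (j : ι) (r : ℝ) :
    ∃ p : K[X], (∀ x ∈ (h.adm.1.1 j).gt r,
      (aeval ((f j).map (algebraMap K (AlgebraicClosure K))) p) *ᵥ x = x) ∧
      ∀ x, (aeval ((f j).map (algebraMap K (AlgebraicClosure K))) p) *ᵥ x ∈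
        (h.adm.1.1 j).gt r := by
  classical
  let L := AlgebraicClosure K
  let F : Submodule L (b j → L) := (h.adm.1.1 j).gt r
  have hmem : ∀ y, y ∈ F ↔ y = 0 ∨ r < w j y := fun y => (h.adm.1.1 j).mem_gt r y
  let W : Submodule K (b j → K) :=
    { carrier := {y | (fun p => algebraMap K L (y p)) ∈ F}
      add_mem' := by
        intro y y' hy hy'
        have h1 : (fun p => algebraMap K L ((y + y') p)) =
            (fun p => algebraMap K L (y p)) + (fun p => algebraMap K L (y' p)) := by
          funext p
          simp
        change (fun p => algebraMap K L ((y + y') p)) ∈ F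
        rw [h1]
        exact F.add_mem hy hy'
      zero_mem' := by
        have h1 : (fun p => algebraMap K L ((0 : b j → K) p)) = 0 := by
          funext p
          simp
        change (fun p => algebraMap K L ((0 : b j → K) p)) ∈ F
        rw [h1]
        exact F.zero_mem
      smul_mem' := by
        intro a y hy
        have h1 : (fun p => algebraMap K L ((a • y) p)) =
            algebraMap K L a • (fun p => algebraMap K L (y p)) := by
          funext p
          simp
        change (fun p => algebraMap K L ((a • y) p)) ∈ F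
        rw [h1]
        exact F.smul_mem _ hy }
  have hW : ∀ y, y ∈ W ↔ (fun p => algebraMap K L (y p)) ∈ F := fun y => Iff.rfl
  obtain ⟨p, hp1, hp2⟩ := hf j W (by
    intro g hg y hy
    rw [hW] at hy ⊢
    rw [map_mulVec', hmem]
    by_cases h2 : (fun p => algebraMap K L (y p)) = 0
    · left
      rw [h2, mulVec_zero]
    · right
      rw [h.inv g hg j _ h2]
      exact ((hmem _).1 hy).resolve_left h2) (by
    intro e he y hy
    rw [hW] at hy ⊢
    rw [map_mulVec', hmem]
    by_cases h2 : (fun p => algebraMap K L (y p)) = 0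
    · left
      rw [h2, mulVec_zero]
    · by_cases h3 : e.map (algebraMap K L) *ᵥ (fun p => algebraMap K L (y p)) = 0
      · left
        exact h3
      · right
        exact lt_of_lt_of_le (((hmem _).1 hy).resolve_left h2)
          (h.alg j _ (map_mem_baseC he) _ h2 h3))
  refine ⟨p, ?_, ?_⟩
  all_goals rw [← aeval_map']
  · -- the part of the filtration killed by the projection
    have hpp : aeval (f j) p * aeval (f j) p = aeval (f j) p := by
      ext i k
      have h1 := congrFun (hp1 _ (hp2 (Pi.single k 1))) i
      rw [Matrix.mulVec_mulVec, Matrix.mulVec_single_one, Matrix.mulVec_single_one] at h1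
      exact h1
    have hin : ∀ x, (aeval (f j) p).map (algebraMap K L) *ᵥ x ∈ F := by
      intro x
      rw [← (Pi.basisFun L (b j)).sum_repr x, Matrix.mulVec_sum]
      refine F.sum_mem fun i _ => ?_
      rw [Matrix.mulVec_smul]
      refine F.smul_mem _ ?_
      have h1 := (hW _).1 (hp2 (Pi.single i 1))
      rw [map_mulVec'] at h1
      convert h1 using 2
      funext q
      rw [Pi.basisFun_apply]
      by_cases hq : q = i
      · subst hq
        simp
      · simp [hq]
    intro y hy
    let F' : Submodule L (b j → L) :=
      F ⊓ LinearMap.ker ((aeval (f j) p).map (algebraMap K L)).mulVecLin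
    have hF' : F' = ⊥ := by
      by_contra hne
      obtain ⟨x, hx, hxF⟩ := exists_rational (K := K) F' (by
        rintro σ x ⟨hx1, hx2⟩
        refine ⟨?_, ?_⟩
        · rw [SetLike.mem_coe, hmem] at hx1 ⊢
          by_cases h1 : x = 0
          · left
            rw [h1]
            funext p
            simp
          · right
            rw [h.gal σ j x h1]
            exact hx1.resolve_left h1
        · rw [SetLike.mem_coe, LinearMap.mem_ker, Matrix.mulVecLin_apply] at hx2 ⊢
          have h2 : (aeval (f j) p).map (algebraMap K L) *ᵥ (fun p => σ (x p)) =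
              fun q => σ (((aeval (f j) p).map (algebraMap K L) *ᵥ x) q) := by
            funext q
            simp only [Matrix.mulVec, dotProduct, map_sum, map_mul, Matrix.map_apply,
              AlgEquiv.commutes]
          rw [h2, hx2]
          funext q
          simp) hne
      obtain ⟨hx1, hx2⟩ := hxF
      apply hx
      have h1 := hp1 x ((hW x).2 hx1)
      rw [SetLike.mem_coe, LinearMap.mem_ker, Matrix.mulVecLin_apply, ← map_mulVec', h1] at hx2
      funext q
      have h2 := congrFun hx2 q
      simpa using h2
    have h1 : y - (aeval (f j) p).map (algebraMap K L) *ᵥ y ∈ F' := by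
      refine ⟨F.sub_mem hy (hin y), ?_⟩
      rw [SetLike.mem_coe, LinearMap.mem_ker, Matrix.mulVecLin_apply, Matrix.mulVec_sub,
        Matrix.mulVec_mulVec, ← Matrix.map_mul, hpp, sub_self]
    rw [hF', Submodule.mem_bot, sub_eq_zero] at h1
    exact h1.symm
  · intro x
    rw [← (Pi.basisFun L (b j)).sum_repr x, Matrix.mulVec_sum]
    refine F.sum_mem fun i _ => ?_
    rw [Matrix.mulVec_smul]
    refine F.smul_mem _ ?_
    have h1 := (hW _).1 (hp2 (Pi.single i 1))
    rw [map_mulVec'] at h1
    convert h1 using 2
    funext q
    rw [Pi.basisFun_apply]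
    by_cases hq : q = i
    · subst hq
      simp
    · simp [hq]

end Pool.Agent.Y146.KP
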